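import Pool.Agent.P.MP_9167e9_an.StA

/-!
Descent of operators from `ℓ^p(G)` to `ℓ^p(G ⧸ A)` for a finite subgroup `A`.
-/

noncomputable section
open scoped ENNReal Classical
open Filter Topology

namespace Pool.Agent.P.MP_9167e9_an

variable {p : ℝ≥0∞} [Fact (1 ≤ p)]

namespace Desc

theorem one_le (hp : p ≠ ∞) : 1 ≤ p.toReal := by
  simpa using ENNReal.toReal_mono hp (Fact.out : 1 ≤ p)

theorem pos (hp : p ≠ ∞) : 0 < p.toReal := zero_lt_one.trans_le (one_le hp)

/-- A bounded operator given by a formula and a bound on finite sums. -/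
def mkOp {I I' : Type} (hp : p ≠ ∞) (K : (I → ℂ) →ₗ[ℂ] (I' → ℂ)) (c : ℝ) (hc : 0 ≤ c)
    (h : ∀ (ξ : Lq I p) (s : Finset I'), ∑ i ∈ s, ‖K ξ i‖ ^ p.toReal ≤ (c * ‖ξ‖) ^ p.toReal) :
    Lq I p →L[ℂ] Lq I' p :=
  LinearMap.mkContinuous
    { toFun := fun ξ => ⟨K ξ, memℓp_gen' (h ξ)⟩
      map_add' := fun ξ η => lp.ext (K.map_add ξ η)
      map_smul' := fun a ξ => lp.ext (K.map_smul a ξ) } c
    fun ξ => lp.norm_le_of_forall_sum_le (pos hp) (by positivity) (h ξ)

theorem norm_mkOp {I I' : Type} (hp : p ≠ ∞) (K : (I → ℂ) →ₗ[ℂ] (I' → ℂ)) (c : ℝ) (hc : 0 ≤ c)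
    (h : ∀ (ξ : Lq I p) (s : Finset I'), ∑ i ∈ s, ‖K ξ i‖ ^ p.toReal ≤ (c * ‖ξ‖) ^ p.toReal) :
    ‖mkOp hp K c hc h‖ ≤ c :=
  LinearMap.mkContinuous_norm_le _ hc
    fun ξ => lp.norm_le_of_forall_sum_le (pos hp) (by positivity) (h ξ)

variable {G : Type} [Group G] (A : Subgroup G)

theorem inj_out : Function.Injective fun x : (G ⧸ A) × A => x.1.out * x.2 := by
  rintro ⟨w, a⟩ ⟨w', a'⟩ h
  have h : w.out * a = w'.out * a' := h
  have h1 : w = w' := by
    have := congrArg (fun g : G => (g : G ⧸ A)) h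
    simpa [QuotientGroup.mk_mul_of_mem] using this
  subst h1
  rw [Subtype.ext (mul_left_cancel h)]

theorem out_mem (g : G) : (g : G ⧸ A).out⁻¹ * g ∈ A :=
  QuotientGroup.eq.1 (QuotientGroup.out_eq' _)

variable [Finite A]

/-- The finite subgroup as a finite type. -/
instance fint : Fintype A := Fintype.ofFinite A

theorem card_pos : (0 : ℝ) < Nat.card A := by exact_mod_cast Nat.card_pos

/-- The constant `|A|^(1/p)`. -/
def cst (p : ℝ≥0∞) : ℝ := (Nat.card A : ℝ) ^ (p.toReal)⁻¹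

omit [Fact (1 ≤ p)] in
theorem cst_pos : 0 < cst A p := Real.rpow_pos_of_pos (card_pos A) _

theorem cst_pow (hp : p ≠ ∞) : cst A p ^ p.toReal = Nat.card A :=
  Real.rpow_inv_rpow (card_pos A).le (pos hp).ne'

theorem sum_out (s : Finset (G ⧸ A)) (F : G → ℝ) :
    ∑ w ∈ s, ∑ a : A, F (w.out * a) =
      ∑ g ∈ (s ×ˢ Finset.univ).image (fun x : (G ⧸ A) × A => x.1.out * x.2), F g := by
  rw [Finset.sum_image fun x _ y _ h => inj_out A h, Finset.sum_product]

/-- Functions on the quotient as invariant functions on the group. -/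
def J (hp : p ≠ ∞) : Lq (G ⧸ A) p →L[ℂ] Lq G p :=
  mkOp hp (LinearMap.funLeft ℂ ℂ fun g : G => (g : G ⧸ A)) (cst A p) (cst_pos A).le
    fun ξ s => by
      have h1 := sum_out A (s.image fun g : G => (g : G ⧸ A))
        fun g => ‖ξ (g : G ⧸ A)‖ ^ p.toReal
      refine (Finset.sum_le_sum_of_subset_of_nonneg (fun g hg => ?_)
        fun _ _ _ => by positivity).trans (h1.symm.le.trans ?_)
      · exact Finset.mem_image.2 ⟨((g : G ⧸ A), ⟨_, out_mem A g⟩),
          Finset.mem_product.2 ⟨Finset.mem_image_of_mem _ hg, Finset.mem_univ _⟩, by simp⟩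
      · rw [Real.mul_rpow (cst_pos A).le (norm_nonneg _), cst_pow A hp]
        simp only [QuotientGroup.mk_mul_of_mem _ (Subtype.prop _), QuotientGroup.out_eq',
          Finset.sum_const, Finset.card_univ, nsmul_eq_mul, ← Finset.mul_sum,
          Nat.card_eq_fintype_card]
        exact mul_le_mul_of_nonneg_left (lp.sum_rpow_le_norm_rpow (pos hp) ξ _) (by positivity)

/-- The average over a coset, as a linear map. -/
def avg : (G → ℂ) →ₗ[ℂ] (G ⧸ A → ℂ) where
  toFun η w := (Nat.card A : ℂ)⁻¹ * ∑ a : A, η (w.out * a)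
  map_add' η ζ := by ext w; simp [Finset.sum_add_distrib, mul_add]
  map_smul' c η := by ext w; simp [← Finset.mul_sum, mul_left_comm]

theorem avg_pow {r : ℝ} (hr : 1 ≤ r) (η : G → ℂ) (w : G ⧸ A) :
    ‖avg A η w‖ ^ r ≤ (Nat.card A : ℝ)⁻¹ * ∑ a : A, ‖η (w.out * a)‖ ^ r := by
  have hc := card_pos A
  have h1 : ‖avg A η w‖ ≤ ∑ a : A, (Nat.card A : ℝ)⁻¹ * ‖η (w.out * a)‖ := by
    change ‖(Nat.card A : ℂ)⁻¹ * _‖ ≤ _
    rw [norm_mul, norm_inv, Complex.norm_natCast, ← Finset.mul_sum]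
    exact mul_le_mul_of_nonneg_left (norm_sum_le _ _) (by positivity)
  have h2 := Real.rpow_arith_mean_le_arith_mean_rpow Finset.univ
    (fun _ : A => (Nat.card A : ℝ)⁻¹) (fun a => ‖η (w.out * a)‖) (fun _ _ => by positivity)
    (by rw [Finset.sum_const, nsmul_eq_mul, Finset.card_univ, ← Nat.card_eq_fintype_card,
      mul_inv_cancel₀ hc.ne']) (fun _ _ => norm_nonneg _) hr
  rw [Finset.mul_sum]
  exact (Real.rpow_le_rpow (norm_nonneg _) h1 (by linarith)).trans h2

/-- The average over the cosets. -/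
def M (hp : p ≠ ∞) : Lq G p →L[ℂ] Lq (G ⧸ A) p :=
  mkOp hp (avg A) (cst A p)⁻¹ (inv_pos.2 (cst_pos A)).le fun η s => by
    refine (Finset.sum_le_sum fun w _ => avg_pow A (one_le hp) η w).trans ?_
    rw [← Finset.mul_sum, sum_out A s fun g => ‖η g‖ ^ p.toReal,
      Real.mul_rpow (inv_pos.2 (cst_pos A)).le (norm_nonneg _),
      Real.inv_rpow (cst_pos A).le, cst_pow A hp]
    exact mul_le_mul_of_nonneg_left (lp.sum_rpow_le_norm_rpow (pos hp) η _)
      (inv_pos.2 (card_pos A)).le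

theorem J_apply (hp : p ≠ ∞) (ξ : Lq (G ⧸ A) p) (g : G) : J A hp ξ g = ξ (g : G ⧸ A) := rfl

theorem M_apply (hp : p ≠ ∞) (η : Lq G p) (w : G ⧸ A) :
    M A hp η w = (Nat.card A : ℂ)⁻¹ * ∑ a : A, η (w.out * a) := rfl

theorem norm_J (hp : p ≠ ∞) : ‖J A hp‖ ≤ cst A p :=
  norm_mkOp _ _ _ _ _

theorem norm_M (hp : p ≠ ∞) : ‖M A hp‖ ≤ (cst A p)⁻¹ :=
  norm_mkOp _ _ _ _ _

theorem M_inv (hp : p ≠ ∞) (η : Lq G p) (h : ∀ g, ∀ a ∈ A, η (g * a) = η g) (g : G) :
    M A hp η (g : G ⧸ A) = η g := by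
  have hc : (Nat.card A : ℂ) ≠ 0 := by exact_mod_cast Nat.card_pos.ne'
  have e : η (g : G ⧸ A).out = η g := by
    rw [← h _ _ (out_mem A g), mul_inv_cancel_left]
  rw [M_apply]
  simp only [h _ _ (Subtype.prop _), e, Finset.sum_const, Finset.card_univ, nsmul_eq_mul,
    ← Nat.card_eq_fintype_card]
  rw [inv_mul_cancel_left₀ hc]

theorem J_single (hp : p ≠ ∞) (g : G) :
    J A hp (lp.single p (g : G ⧸ A) 1) = ∑ a : A, lp.single p (g * a) (1 : ℂ) := by
  ext x
  rw [J_apply, lp.coeFn_sum, Finset.sum_apply]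
  by_cases h : (g : G ⧸ A) = (x : G ⧸ A)
  · rw [Finset.sum_eq_single (⟨_, QuotientGroup.eq.1 h⟩ : A)]
    · simp [h]
    · intro b _ hb
      have : x ≠ g * b := fun e => hb (Subtype.ext (by simp [e]))
      simp [lp.single_apply, this]
    · simp
  · rw [Finset.sum_eq_zero fun b _ => ?_]
    · simp [lp.single_apply, Ne.symm h]
    · have : x ≠ g * b := fun e => h (by rw [e, QuotientGroup.mk_mul_of_mem _ b.2])
      simp [lp.single_apply, this]

end Desc

open Desc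

variable {G : Type} [Group G]

/-- `T` commutes with the right translation by `a`. -/
def RComm (a : G) (T : Op G p) : Prop :=
  ∀ ξ η : Lq G p, (∀ g, η g = ξ (g * a)) → ∀ g, T η g = T ξ (g * a)

variable (p) in
/-- The commutant of a right translation. -/
def rcomm (a : G) : Subring (Op G p) where
  carrier := {T | RComm a T}
  one_mem' := fun _ _ h => h
  zero_mem' := fun _ _ _ _ => rfl
  mul_mem' := fun hS hT ξ η h => hS _ _ (hT ξ η h)
  add_mem' := fun {S T} hS hT ξ η h g => by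
    change S η g + T η g = S ξ (g * a) + T ξ (g * a)
    rw [hS ξ η h, hT ξ η h]
  neg_mem' := fun {S} hS ξ η h g => by
    change -(S η g) = -(S ξ (g * a))
    rw [hS ξ η h]

theorem isClosed_rcomm (a : G) : IsClosed (rcomm p a : Set (Op G p)) := by
  have hc : ∀ (ξ : Lq G p) (g : G), Continuous fun T : Op G p => T ξ g := fun ξ g =>
    (lp.evalCLM ℂ (fun _ : G => ℂ) p g).continuous.comp
      (ContinuousLinearMap.apply ℂ (Lq G p) ξ).continuous
  have e : (rcomm p a : Set (Op G p)) = ⋂ (ξ : Lq G p) (η : Lq G p)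
      (_ : ∀ g, η g = ξ (g * a)) (g : G), {T | T η g = T ξ (g * a)} := by
    ext T
    simp only [Set.mem_iInter]
    rfl
  rw [e]
  exact isClosed_iInter fun ξ => isClosed_iInter fun η => isClosed_iInter fun _ =>
    isClosed_iInter fun g => isClosed_eq (hc _ _) (hc _ _)

theorem IsConv.rcomm {f : G →₀ ℂ} {T : Op G p} (h : IsConv f T) (a : G) : RComm a T :=
  fun ξ η e g => by
    rw [h, h]
    simp only [e, mul_assoc]

theorem Bp_rcomm {T : Op G p} (h : T ∈ Bp G p) (a : G) : RComm a T := by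
  have : Bp G p ≤ rcomm p a := by
    refine Subring.topologicalClosure_minimal _ (Subring.closure_le.2 ?_) (isClosed_rcomm a)
    rintro _ ⟨f, hf⟩
    exact hf.rcomm a
  exact this h

variable (A : Subgroup G) [Finite A] (hp : p ≠ ∞)

/-- The descended operator. -/
def piL : Op G p →ₗ[ℂ] Op (G ⧸ A) p where
  toFun T := (M A hp).comp (T.comp (J A hp))
  map_add' S T := by simp [ContinuousLinearMap.add_comp, ContinuousLinearMap.comp_add]
  map_smul' c T := by simp [ContinuousLinearMap.smul_comp]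

theorem piL_apply (T : Op G p) (ξ : Lq (G ⧸ A) p) (w : G ⧸ A) :
    piL A hp T ξ w = (Nat.card A : ℂ)⁻¹ * ∑ a : A, T (J A hp ξ) (w.out * a) := rfl

theorem norm_piL_le (T : Op G p) : ‖piL A hp T‖ ≤ ‖T‖ := by
  have h := cst_pos A (p := p)
  refine (ContinuousLinearMap.opNorm_comp_le _ _).trans ((mul_le_mul (norm_M A hp)
    ((ContinuousLinearMap.opNorm_comp_le _ _).trans (mul_le_mul_of_nonneg_left (norm_J A hp)
      (norm_nonneg _))) (norm_nonneg _) (by positivity)).trans (le_of_eq ?_))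
  field_simp

theorem piL_single (T : Op G p) (w w' : G ⧸ A) :
    piL A hp T (lp.single p w' 1) w = (Nat.card A : ℂ)⁻¹ *
      ∑ a : A, ∑ b : A, T (lp.single p (w'.out * b) 1) (w.out * a) := by
  rw [piL_apply]
  conv_lhs => rw [← QuotientGroup.out_eq' w', J_single, map_sum]
  simp only [lp.coeFn_sum, Finset.sum_apply]

variable {A}

theorem piL_mk {T : Op G p} (h : ∀ a ∈ A, RComm a T) (ξ : Lq (G ⧸ A) p) (g : G) :
    piL A hp T ξ (g : G ⧸ A) = T (J A hp ξ) g :=
  M_inv A hp (T (J A hp ξ)) (fun g a ha => (h a ha (J A hp ξ) (J A hp ξ) (fun x => by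
    rw [J_apply, J_apply, QuotientGroup.mk_mul_of_mem _ ha]) g).symm) g

theorem J_piL {T : Op G p} (h : ∀ a ∈ A, RComm a T) (ξ : Lq (G ⧸ A) p) :
    J A hp (piL A hp T ξ) = T (J A hp ξ) := lp.ext (funext fun g => piL_mk hp h ξ g)

theorem piL_single_mk {T : Op G p} (h : ∀ a ∈ A, RComm a T) (g g' : G) :
    piL A hp T (lp.single p (g' : G ⧸ A) 1) (g : G ⧸ A) =
      ∑ b : A, T (lp.single p (g' * b) 1) g := by
  rw [piL_mk hp h, J_single, map_sum]
  simp only [lp.coeFn_sum, Finset.sum_apply]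

theorem piL_mul (S : Op G p) {T : Op G p} (h : ∀ a ∈ A, RComm a T) :
    piL A hp (S * T) = piL A hp S * piL A hp T := by
  ext1 ξ
  change M A hp (S (T (J A hp ξ))) = M A hp (S (J A hp (piL A hp T ξ)))
  rw [J_piL hp h]

theorem piL_one : piL A hp 1 = 1 := by
  ext ξ w
  obtain ⟨g, rfl⟩ := QuotientGroup.mk_surjective w
  exact piL_mk hp (fun a _ => (rcomm p a).one_mem) ξ g

/-- The descended operator commutes with the involution induced by a right translation. -/
theorem piL_comm {T : Op G p} (h : ∀ a ∈ A, RComm a T) {ι : G} (hι : RComm ι T)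
    {io : G ⧸ A → G ⧸ A} (hio : ∀ g : G, io (g : G ⧸ A) = ((g * ι : G) : G ⧸ A))
    {W : Op (G ⧸ A) p} (hW : ∀ ξ w, W ξ w = ξ (io w)) : W * piL A hp T = piL A hp T * W := by
  ext ξ w
  obtain ⟨g, rfl⟩ := QuotientGroup.mk_surjective w
  change W (piL A hp T ξ) _ = piL A hp T (W ξ) _
  rw [hW, hio, piL_mk hp h, piL_mk hp h]
  exact (hι _ _ (fun x => by rw [J_apply, J_apply, hW, hio]) g).symm

theorem piL_conv {f : G →₀ ℂ} {T : Op G p} (h : IsConv f T) (ξ : Lq (G ⧸ A) p) (w : G ⧸ A) :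
    piL A hp T ξ w = f.sum fun y c => c * ξ (y⁻¹ • w) := by
  obtain ⟨g, rfl⟩ := QuotientGroup.mk_surjective w
  rw [piL_mk hp (fun a _ => h.rcomm a), h]
  rfl

theorem piL_kr {L : Type} [Group L] (ρ : L →* G) (y : MonoidAlgebra ℂ L) {T : Op G p}
    (h : IsConv (y.coeff.mapDomain ρ) T) (w w' : G ⧸ A) :
    piL A hp T (lp.single p w' 1) w = kr (actQ ρ A) y w w' := by
  rw [piL_conv hp h, Finsupp.sum_mapDomain_index (by simp) (by simp [add_mul])]
  refine Finset.sum_congr rfl fun f _ => ?_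
  have e0 : actQ ρ A f w' = ρ f • w' := rfl
  simp only [e0]
  by_cases e : ρ f • w' = w
  · subst e; simp
  · have : (ρ f)⁻¹ • w ≠ w' := fun e' => e (by rw [← e', smul_inv_smul])
    simp [lp.single_apply, e, this]

variable (A)

/-- The representation of `B^p_r(G)` on `ℓ^p(G ⧸ A)`. -/
def piQ : Bp G p →+* Op (G ⧸ A) p where
  toFun T := piL A hp T.1
  map_one' := piL_one hp
  map_mul' S T := piL_mul hp S.1 fun a _ => Bp_rcomm T.2 a
  map_zero' := map_zero _
  map_add' S T := map_add _ S.1 T.1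

theorem piQ_eq (T : Bp G p) : piQ A hp T = piL A hp T.1 := rfl

theorem norm_piQ_le (T : Bp G p) : ‖piQ A hp T‖ ≤ ‖T‖ := norm_piL_le A hp T.1

theorem continuous_piQ : Continuous (piQ A hp) :=
  (AddMonoidHomClass.lipschitz_of_bound (piQ A hp) 1 fun z => by
    rw [one_mul]; exact norm_piQ_le A hp z).continuous

variable {A} in
theorem piQ_comm (T : Bp G p) {ι : G} {io : G ⧸ A → G ⧸ A}
    (hio : ∀ g : G, io (g : G ⧸ A) = ((g * ι : G) : G ⧸ A)) {W : Op (G ⧸ A) p}
    (hW : ∀ ξ w, W ξ w = ξ (io w)) : W * piQ A hp T = piQ A hp T * W :=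
  piL_comm hp (fun a _ => Bp_rcomm T.2 a) (Bp_rcomm T.2 ι) hio hW

end Pool.Agent.P.MP_9167e9_an
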