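import Pool.Agent.P.MP_9167e9_an.Det.IndM

/-!
The trace ideal of finite rank operators on `ℓ^p(Z)`, `p ≠ ∞`, and the truncations `cutOp s`.
-/

noncomputable section
open scoped ENNReal Classical Topology
open Filter

namespace Pool.Agent.P.MP_9167e9_an

variable {Z : Type} {p : ℝ≥0∞} [Fact (1 ≤ p)]

namespace Conc

omit [Fact (1 ≤ p)] in
theorem single_eq (j : Z) (c : ℂ) : (lp.single p j c : Lq Z p) = c • lp.single p j (1 : ℂ) := by
  rw [← lp.single_smul, smul_eq_mul, mul_one]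

theorem hasSum_dual (hp : p ≠ ∞) (φ : Lq Z p →L[ℂ] ℂ) (u : Lq Z p) :
    HasSum (fun i => φ (lp.single p i 1) * u i) (φ u) := by
  have e : (fun i => φ (lp.single p i 1) * u i) = fun i => φ (lp.single p i (u i)) :=
    funext fun i => by rw [single_eq i (u i), map_smul, smul_eq_mul, mul_comm]
  rw [e]
  exact (lp.hasSum_single hp u).mapL φ

/-- An operator acts through its kernel. -/
theorem hasSum_ker (hp : p ≠ ∞) (T : Op Z p) (u : Lq Z p) (i : Z) :
    HasSum (fun j => T (lp.single p j 1) i * u j) (T u i) :=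
  hasSum_dual hp ((lp.evalCLM ℂ (fun _ : Z => ℂ) p i).comp T) u

theorem ext_ker (hp : p ≠ ∞) {S T : Op Z p}
    (h : ∀ i j, S (lp.single p j 1) i = T (lp.single p j 1) i) : S = T := by
  ext u i
  refine (hasSum_ker hp S u i).unique ?_
  simp only [h]
  exact hasSum_ker hp T u i

end Conc

variable (Z p) in
/-- The finite rank operators. -/
def FR : Submodule ℂ (Op Z p) :=
  Submodule.span ℂ {T | ∃ (φ : Lq Z p →L[ℂ] ℂ) (u : Lq Z p), T = φ.smulRight u}

theorem smulRight_mem_FR (φ : Lq Z p →L[ℂ] ℂ) (u : Lq Z p) : φ.smulRight u ∈ FR Z p :=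
  Submodule.subset_span ⟨φ, u, rfl⟩

theorem FR_ind {P : Op Z p → Prop} (h1 : ∀ (φ : Lq Z p →L[ℂ] ℂ) u, P (φ.smulRight u))
    (h0 : P 0) (h2 : ∀ S ∈ FR Z p, ∀ T ∈ FR Z p, P S → P T → P (S + T)) {T : Op Z p}
    (hT : T ∈ FR Z p) : P T := by
  have key : ∀ c : ℂ, P (c • T) := by
    induction hT using Submodule.span_induction with
    | mem x hx =>
      obtain ⟨φ, u, rfl⟩ := hx
      intro c
      have : c • φ.smulRight u = φ.smulRight (c • u) := by
        ext1 x
        simp only [smul_apply, ContinuousLinearMap.smulRight_apply]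
        rw [smul_comm]
      rw [this]
      exact h1 _ _
    | zero => intro c; rw [smul_zero]; exact h0
    | add x y hx hy ix iy =>
      intro c
      rw [smul_add]
      exact h2 _ ((FR Z p).smul_mem c hx) _ ((FR Z p).smul_mem c hy) (ix c) (iy c)
    | smul a x _ ix => intro c; rw [smul_smul]; exact ix _
  simpa using key 1

theorem mul_smulRight (S : Op Z p) (φ : Lq Z p →L[ℂ] ℂ) (u : Lq Z p) :
    S * φ.smulRight u = φ.smulRight (S u) := by
  ext1 x
  simp

theorem smulRight_mul (S : Op Z p) (φ : Lq Z p →L[ℂ] ℂ) (u : Lq Z p) :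
    φ.smulRight u * S = (φ.comp S).smulRight u := by
  ext1 x
  simp

theorem FR_mul_left (S : Op Z p) {T : Op Z p} (hT : T ∈ FR Z p) : S * T ∈ FR Z p :=
  FR_ind (P := fun T => S * T ∈ FR Z p)
    (fun φ u => by rw [mul_smulRight]; exact smulRight_mem_FR _ _)
    (by rw [mul_zero]; exact zero_mem _)
    (fun a _ b _ ha hb => by rw [mul_add]; exact add_mem ha hb) hT

theorem FR_mul_right (S : Op Z p) {T : Op Z p} (hT : T ∈ FR Z p) : T * S ∈ FR Z p :=
  FR_ind (P := fun T => T * S ∈ FR Z p)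
    (fun φ u => by rw [smulRight_mul]; exact smulRight_mem_FR _ _)
    (by rw [zero_mul]; exact zero_mem _)
    (fun a _ b _ ha hb => by rw [add_mul]; exact add_mem ha hb) hT

/-- The sum of the diagonal of the kernel. -/
def trOp (T : Op Z p) : ℂ := ∑' i, T (lp.single p i 1) i

theorem hasSum_smulRight (hp : p ≠ ∞) (φ : Lq Z p →L[ℂ] ℂ) (u : Lq Z p) :
    HasSum (fun i => (φ.smulRight u) (lp.single p i 1) i) (φ u) :=
  Conc.hasSum_dual hp φ u

theorem trOp_smulRight (hp : p ≠ ∞) (φ : Lq Z p →L[ℂ] ℂ) (u : Lq Z p) :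
    trOp (φ.smulRight u) = φ u := (hasSum_smulRight hp φ u).tsum_eq

theorem summable_FR (hp : p ≠ ∞) {T : Op Z p} (hT : T ∈ FR Z p) :
    Summable fun i => T (lp.single p i 1) i :=
  FR_ind (P := fun T => Summable fun i => T (lp.single p i 1) i)
    (fun φ u => (hasSum_smulRight hp φ u).summable) summable_zero
    (fun _ _ _ _ ha hb => ha.add hb) hT

theorem trOp_add (hp : p ≠ ∞) {S T : Op Z p} (hS : S ∈ FR Z p) (hT : T ∈ FR Z p) :
    trOp (S + T) = trOp S + trOp T :=
  (summable_FR hp hS).tsum_add (summable_FR hp hT)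

theorem trOp_smul (c : ℂ) (T : Op Z p) : trOp (c • T) = c * trOp T :=
  tsum_mul_left

theorem trOp_comm (hp : p ≠ ∞) {T : Op Z p} (hT : T ∈ FR Z p) (S : Op Z p) :
    trOp (T * S) = trOp (S * T) :=
  FR_ind (P := fun T => trOp (T * S) = trOp (S * T))
    (fun φ u => by rw [smulRight_mul, mul_smulRight, trOp_smulRight hp, trOp_smulRight hp]; rfl)
    (by rw [zero_mul, mul_zero])
    (fun a ha b hb e1 e2 => by
      rw [add_mul, mul_add, trOp_add hp (FR_mul_right S ha) (FR_mul_right S hb),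
        trOp_add hp (FR_mul_left S ha) (FR_mul_left S hb), e1, e2]) hT

variable (Z) in
/-- The finite rank operators on `ℓ^p(Z)` with their trace. -/
def opNT (p : ℝ≥0∞) [Fact (1 ≤ p)] (hp : p ≠ ∞) : NT (Op Z p) where
  F := TwoSidedIdeal.mk' (FR Z p) (zero_mem _) add_mem neg_mem (FR_mul_left _) (FR_mul_right _)
  τ := trOp
  τ_add _ ha _ hb := trOp_add hp ((TwoSidedIdeal.mem_mk' _ _ _ _ _ _ _).1 ha)
    ((TwoSidedIdeal.mem_mk' _ _ _ _ _ _ _).1 hb)
  τ_comm _ ha b := trOp_comm hp ((TwoSidedIdeal.mem_mk' _ _ _ _ _ _ _).1 ha) b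

variable {hp : p ≠ ∞}

theorem mem_opNT_F {T : Op Z p} : T ∈ (opNT Z p hp).F ↔ T ∈ FR Z p :=
  TwoSidedIdeal.mem_mk' (FR Z p : Set (Op Z p)) (zero_mem _) add_mem neg_mem (FR_mul_left _)
    (FR_mul_right _) T

theorem opNT_τ (T : Op Z p) : (opNT Z p hp).τ T = ∑' i, T (lp.single p i 1) i := rfl

theorem opNT_K : (opNT Z p hp).K = closure (FR Z p : Set (Op Z p)) :=
  congrArg closure (Set.ext fun _ => mem_opNT_F)

theorem opNT_F_smul (c : ℂ) {T : Op Z p} (h : T ∈ (opNT Z p hp).F) : c • T ∈ (opNT Z p hp).F :=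
  mem_opNT_F.2 ((FR Z p).smul_mem c (mem_opNT_F.1 h))

theorem opNT_K_smul (c : ℂ) {T : Op Z p} (h : T ∈ (opNT Z p hp).K) : c • T ∈ (opNT Z p hp).K :=
  map_mem_closure (continuous_const_smul c) h fun _ hx => opNT_F_smul c hx

theorem opNT_τ_smul (c : ℂ) (T : Op Z p) : (opNT Z p hp).τ (c • T) = c * (opNT Z p hp).τ T :=
  trOp_smul c T

variable (p) in
/-- Restriction to the finite set `s`. -/
def cutOp (s : Finset Z) : Op Z p :=
  ∑ i ∈ s, (lp.evalCLM ℂ (fun _ : Z => ℂ) p i).smulRight (lp.single p i 1)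

theorem cutOp_eq (s : Finset Z) (u : Lq Z p) : cutOp p s u = ∑ i ∈ s, lp.single p i (u i) := by
  rw [cutOp, sum_apply]
  exact Finset.sum_congr rfl fun i _ => (Conc.single_eq i (u i)).symm

theorem cutOp_apply (s : Finset Z) (u : Lq Z p) (i : Z) :
    cutOp p s u i = if i ∈ s then u i else 0 := by
  rw [cutOp_eq, lp.coeFn_sum, Finset.sum_apply]
  simp only [lp.single_apply, Pi.single_apply]
  rw [Finset.sum_ite_eq]

theorem cutOp_single (s : Finset Z) (j : Z) :
    cutOp p s (lp.single p j 1) = if j ∈ s then lp.single p j 1 else 0 := by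
  ext i
  rw [cutOp_apply]
  by_cases h : i = j
  · subst h
    split_ifs <;> simp
  · split_ifs <;> simp [h]

theorem cutOp_mem_FR (s : Finset Z) : cutOp p s ∈ FR Z p :=
  sum_mem fun _ _ => smulRight_mem_FR _ _

theorem cutOp_mem_F (s : Finset Z) : cutOp p s ∈ (opNT Z p hp).F := mem_opNT_F.2 (cutOp_mem_FR s)

theorem cutOp_mul_cutOp (s : Finset Z) : cutOp p s * cutOp p s = cutOp p s := by
  ext u i
  rw [mul_apply_eq_comp, cutOp_apply, cutOp_apply]
  split_ifs <;> rfl

theorem norm_le_of_le (hp : p ≠ ∞) {u v : Lq Z p} (h : ∀ i, ‖u i‖ ≤ ‖v i‖) : ‖u‖ ≤ ‖v‖ := by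
  have h0 : 0 < p.toReal := ENNReal.toReal_pos (zero_lt_one.trans_le Fact.out).ne' hp
  refine lp.norm_le_of_forall_sum_le h0 (norm_nonneg _) fun s => ?_
  exact (Finset.sum_le_sum fun i _ => Real.rpow_le_rpow (norm_nonneg _) (h i) h0.le).trans
    (lp.sum_rpow_le_norm_rpow h0 v s)

theorem norm_cutOp_le (hp : p ≠ ∞) (s : Finset Z) : ‖cutOp p s‖ ≤ 1 := by
  refine ContinuousLinearMap.opNorm_le_bound _ zero_le_one fun u => ?_
  rw [one_mul]
  refine norm_le_of_le hp fun i => ?_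
  rw [cutOp_apply]
  split_ifs <;> simp

theorem norm_one_sub_cutOp_le (hp : p ≠ ∞) (s : Finset Z) : ‖1 - cutOp p s‖ ≤ 1 := by
  refine ContinuousLinearMap.opNorm_le_bound _ zero_le_one fun u => ?_
  rw [one_mul]
  refine norm_le_of_le hp fun i => ?_
  rw [sub_apply, lp.coeFn_sub, Pi.sub_apply, cutOp_apply]
  split_ifs <;> simp

theorem tendsto_cutOp_FR (hp : p ≠ ∞) {T : Op Z p} (hT : T ∈ FR Z p) :
    Tendsto (fun s : Finset Z => cutOp p s * T) atTop (𝓝 T) := by
  refine FR_ind (P := fun T => Tendsto (fun s : Finset Z => cutOp p s * T) atTop (𝓝 T))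
    (fun φ u => ?_) (by simp) (fun a _ b _ ha hb => ?_) hT
  · simp only [mul_smulRight, cutOp_eq]
    exact ((ContinuousLinearMap.smulRightL ℂ (Lq Z p) (Lq Z p) φ).continuous.tendsto u).comp
      (lp.hasSum_single hp u)
  · simp only [mul_add]
    exact ha.add hb

/-- Left truncations of an element of `K` converge to it in norm. -/
theorem tendsto_cutOp {T : Op Z p} (hT : T ∈ (opNT Z p hp).K) :
    Tendsto (fun s : Finset Z => cutOp p s * T) atTop (𝓝 T) := by
  rw [Metric.tendsto_nhds]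
  intro ε hε
  obtain ⟨f, hf, h⟩ := NT.mem_K_iff.1 hT (ε / 2) (half_pos hε)
  filter_upwards [Metric.tendsto_nhds.1 (tendsto_cutOp_FR hp (mem_opNT_F.1 hf)) _ (half_pos hε)]
    with s hs
  rw [dist_eq_norm] at hs ⊢
  have e : cutOp p s * T - T = (cutOp p s * f - f) - (1 - cutOp p s) * (T - f) := by noncomm_ring
  have b : ‖(1 - cutOp p s) * (T - f)‖ ≤ ‖T - f‖ :=
    (norm_mul_le _ _).trans (mul_le_of_le_one_left (norm_nonneg _) (norm_one_sub_cutOp_le hp s))
  rw [e]
  linarith [norm_sub_le (cutOp p s * f - f) ((1 - cutOp p s) * (T - f))]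

/-- For `T` in `K` the part of `T` outside a large finite set of rows is small. -/
theorem exists_cutOp {T : Op Z p} (hT : T ∈ (opNT Z p hp).K) {ε : ℝ} (hε : 0 < ε) :
    ∃ s0 : Finset Z, ∀ s, s0 ⊆ s → ‖(1 - cutOp p s) * T‖ < ε := by
  obtain ⟨s0, h⟩ := eventually_atTop.1 (Metric.tendsto_nhds.1 (tendsto_cutOp hT) ε hε)
  refine ⟨s0, fun s hs => ?_⟩
  have := h s hs
  rwa [dist_comm, dist_eq_norm, ← one_sub_mul] at this

theorem τ_cutOp_mul (s : Finset Z) (T : Op Z p) :
    (opNT Z p hp).τ (cutOp p s * T) = ∑ i ∈ s, T (lp.single p i 1) i := by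
  rw [opNT_τ, tsum_eq_sum (s := s)]
  · exact Finset.sum_congr rfl fun i hi => by
      rw [mul_apply_eq_comp, cutOp_apply, if_pos hi]
  · intro i hi
    rw [mul_apply_eq_comp, cutOp_apply, if_neg hi]

theorem τ_mul_cutOp (s : Finset Z) (T : Op Z p) :
    (opNT Z p hp).τ (T * cutOp p s) = ∑ i ∈ s, T (lp.single p i 1) i := by
  rw [← (opNT Z p hp).τ_comm _ (cutOp_mem_F s), τ_cutOp_mul]

/-- Finitely many non-zero rows. -/
theorem mem_F_of_rows {T : Op Z p} (s : Finset Z)
    (h : ∀ i j, T (lp.single p j 1) i ≠ 0 → i ∈ s) : T ∈ (opNT Z p hp).F := by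
  have : T = cutOp p s * T := Conc.ext_ker hp fun i j => by
    rw [mul_apply_eq_comp, cutOp_apply]
    split_ifs with hi
    · rfl
    · by_contra hne
      exact hi (h i j hne)
  rw [this]
  exact (opNT Z p hp).F.mul_mem_right _ _ (cutOp_mem_F s)

/-- Finitely many non-zero columns. -/
theorem mem_F_of_cols {T : Op Z p} (s : Finset Z)
    (h : ∀ i j, T (lp.single p j 1) i ≠ 0 → j ∈ s) : T ∈ (opNT Z p hp).F := by
  have : T = T * cutOp p s := Conc.ext_ker hp fun i j => by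
    rw [mul_apply_eq_comp, cutOp_single]
    split_ifs with hj
    · rfl
    · rw [map_zero]
      by_contra hne
      exact hj (h i j hne)
  rw [this]
  exact (opNT Z p hp).F.mul_mem_left _ _ (cutOp_mem_F s)

/-- A finitely supported kernel. -/
theorem mem_F_of_finite {T : Op Z p}
    (h : {x : Z × Z | T (lp.single p x.2 1) x.1 ≠ 0}.Finite) : T ∈ (opNT Z p hp).F :=
  mem_F_of_rows (h.image Prod.fst).toFinset fun i j hne =>
    (Set.Finite.mem_toFinset _).2 ⟨(i, j), hne, rfl⟩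

theorem closure_finite_le_K :
    closure {T : Op Z p | {x : Z × Z | T (lp.single p x.2 1) x.1 ≠ 0}.Finite} ⊆
      (opNT Z p hp).K :=
  closure_mono fun _ h => mem_F_of_finite h

/-- A multiplication operator whose symbol tends to zero lies in `K`. -/
theorem mem_K_of_mul {T : Op Z p} {c : Z → ℂ} (hT : ∀ u i, T u i = c i * u i)
    (hc : Tendsto c cofinite (𝓝 0)) : T ∈ (opNT Z p hp).K := by
  refine NT.mem_K_iff.2 fun ε hε => ?_
  have hf := Metric.tendsto_nhds.1 hc (ε / 2) (half_pos hε)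
  rw [eventually_cofinite] at hf
  refine ⟨cutOp p hf.toFinset * T, (opNT Z p hp).F.mul_mem_right _ _ (cutOp_mem_F _), ?_⟩
  refine (ContinuousLinearMap.opNorm_le_bound _ (half_pos hε).le fun u => ?_).trans_lt
    (half_lt_self hε)
  have : ε / 2 * ‖u‖ = ‖((ε / 2 : ℝ) : ℂ) • u‖ := by
    rw [norm_smul, Complex.norm_real, Real.norm_of_nonneg (half_pos hε).le]
  rw [this]
  refine norm_le_of_le hp fun i => ?_
  rw [sub_apply, lp.coeFn_sub, Pi.sub_apply, mul_apply_eq_comp,
    cutOp_apply, hT, lp.coeFn_smul, Pi.smul_apply, norm_smul, Complex.norm_real,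
    Real.norm_of_nonneg (half_pos hε).le]
  split_ifs with hi
  · rw [sub_self, norm_zero]; positivity
  · rw [Set.Finite.mem_toFinset, Set.mem_ofPred_eq, not_not, dist_zero_right] at hi
    rw [sub_zero, norm_mul]
    exact mul_le_mul_of_nonneg_right hi.le (norm_nonneg _)

end Pool.Agent.P.MP_9167e9_an
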