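import Pool.Agent.P.MP_9167e9_an.Det.IndDef

/-!
Cutting and conjugating ring homomorphisms; transfer of the index through a pair algebra.
-/

noncomputable section

namespace Pool.Agent.P.MP_9167e9_an.Avg

section ring

variable {B A : Type} [Ring B] [Ring A]

/-- Cut a homomorphism by a commuting idempotent. -/
def cutH (φ : B →+* A) (ep : A) (hee : ep * ep = ep) (hc : ∀ b, ep * φ b = φ b * ep) :
    B →ₙ+* A where
  toFun b := φ b * ep
  map_mul' a b := by
    rw [map_mul, mul_assoc (φ a) ep, ← mul_assoc ep, hc, mul_assoc (φ b), hee, mul_assoc]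
  map_zero' := by simp
  map_add' a b := by simp [add_mul]

theorem cutH_apply (φ : B →+* A) (ep : A) (hee : ep * ep = ep) (hc : ∀ b, ep * φ b = φ b * ep)
    (b : B) : cutH φ ep hee hc b = φ b * ep := rfl

/-- Conjugate a homomorphism by an invertible element. -/
def cj (φ : B →+* A) (U V : A) (h1 : U * V = 1) (h2 : V * U = 1) : B →+* A where
  toFun b := U * φ b * V
  map_one' := by simp [h1]
  map_mul' a b := by
    rw [map_mul]
    calc U * (φ a * φ b) * V = U * φ a * (V * U) * φ b * V := by rw [h2]; noncomm_ring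
      _ = _ := by noncomm_ring
  map_zero' := by simp
  map_add' a b := by simp [add_mul, mul_add]

theorem cj_apply (φ : B →+* A) (U V : A) (h1 : U * V = 1) (h2 : V * U = 1) (b : B) :
    cj φ U V h1 h2 b = U * φ b * V := rfl

theorem comm_cj {J T U V : A} (hT : J * T = T * J) (hU : J * U = -(U * J))
    (hV : J * V = -(V * J)) : J * (U * T * V) = U * T * V * J := by
  calc J * (U * T * V) = (J * U) * T * V := by noncomm_ring
    _ = -(U * (J * T) * V) := by rw [hU]; noncomm_ring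
    _ = -(U * T * (J * V)) := by rw [hT]; noncomm_ring
    _ = _ := by rw [hV]; noncomm_ring

end ring

theorem transfer_abs {Bs PA A1 A2 : Type} [Ring Bs] [NormedRing PA] [CompleteSpace PA]
    [NormedRing A1] [CompleteSpace A1] [NormedRing A2] [CompleteSpace A2] (t : NT PA)
    (t1 : NT A1) (t2 : NT A2) (f1 : PA →ₙ+* A1) (f2 : PA →ₙ+* A2)
    (hF1 : ∀ a ∈ t.F, f1 a ∈ t1.F) (hτ1 : ∀ a ∈ t.F, t1.τ (f1 a) = t.τ a)
    (hF2 : ∀ a ∈ t.F, f2 a ∈ t2.F) (hτ2 : ∀ a ∈ t.F, t2.τ (f2 a) = t.τ a)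
    (q0 q1 : Bs →ₙ+* PA) (hK : ∀ z, q0 z - q1 z ∈ t.K) (a : Idem Bs) :
    t1.dM (a.e.map fun z => f1 (q0 z)) (a.e.map fun z => f1 (q1 z)) =
      t2.dM (a.e.map fun z => f2 (q0 z)) (a.e.map fun z => f2 (q1 z)) := by
  have h0 := NT.map_idem q0 a
  have h1 := NT.map_idem q1 a
  have e1 := t.dM_map t1 f1 hF1 hτ1 h0 h1 fun i j => hK _
  have e2 := t.dM_map t2 f2 hF2 hτ2 h0 h1 fun i j => hK _
  exact e1.trans e2.symm

end Pool.Agent.P.MP_9167e9_an.Avg
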