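import Pool.Agent.P.MP_9167e9_an.Det.Abs
import Pool.Agent.P.MP_9167e9_an.Det.Cut
import Pool.Agent.P.MP_9167e9_an.Det.Conc

/-!
The index of an idempotent close to a positive block operator does not vanish.
-/

noncomputable section
open scoped ENNReal Classical

namespace Pool.Agent.P.MP_9167e9_an.Avg

variable {Z : Type} {p : ℝ≥0∞} [Fact (1 ≤ p)]

/-- The even projection of an involution. -/
def epl (J : Op Z p) : Op Z p := (1 / 2 : ℂ) • (1 + J)

theorem epl_idem {J : Op Z p} (h : J * J = 1) : epl J * epl J = epl J := by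
  rw [epl, smul_mul_smul_comm, add_mul, mul_add, mul_add, h, one_mul, one_mul, mul_one,
    add_comm J 1, ← two_smul ℂ (1 + J), smul_smul]
  norm_num

theorem epl_comm {J T : Op Z p} (h : J * T = T * J) : epl J * T = T * epl J := by
  rw [epl, smul_mul_assoc, mul_smul_comm, add_mul, mul_add, h, one_mul, mul_one]

theorem norm_epl {J : Op Z p} (h : ‖J‖ ≤ 1) : ‖epl J‖ ≤ 1 := by
  rw [epl, norm_smul]
  have h1 : ‖(1 : Op Z p)‖ ≤ 1 := ContinuousLinearMap.norm_id_le
  have h2 := norm_add_le (1 : Op Z p) J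
  have h3 : ‖(1 / 2 : ℂ)‖ = 1 / 2 := by simp
  rw [h3]
  linarith

theorem norm_le_one_of_mul (hp : p ≠ ∞) {U : Op Z p} {u : Z → ℂ} (hu : ∀ w, ‖u w‖ ≤ 1)
    (hU : ∀ (ξ : Lq Z p) w, U ξ w = u w * ξ w) : ‖U‖ ≤ 1 := by
  refine ContinuousLinearMap.opNorm_le_bound _ zero_le_one fun ξ => ?_
  rw [one_mul]
  refine norm_le_of_le hp fun i => ?_
  rw [hU, norm_mul]
  exact mul_le_of_le_one_left (norm_nonneg _) (hu i)

theorem cutOp_comm (hp : p ≠ ∞) {T : Op Z p} {s : Finset Z}
    (h : ∀ i j, T (lp.single p j 1) i ≠ 0 → (i ∈ s ↔ j ∈ s)) : cutOp p s * T = T * cutOp p s := by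
  refine Conc.ext_ker hp fun i j => ?_
  rw [mul_apply_eq_comp, mul_apply_eq_comp, cutOp_apply, cutOp_single]
  by_cases h0 : T (lp.single p j 1) i = 0
  · split_ifs <;> simp [h0]
  · have := h i j h0
    by_cases hj : j ∈ s
    · rw [if_pos (this.2 hj), if_pos hj]
    · rw [if_neg (mt this.1 hj), if_neg hj]
      simp

theorem single_io {io : Z → Z} (hio : ∀ w, io (io w) = w) {J : Op Z p}
    (hJ : ∀ (ξ : Lq Z p) w, J ξ w = ξ (io w)) (j : Z) :
    J (lp.single p j 1) = lp.single p (io j) 1 := by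
  ext w
  rw [hJ]
  simp only [lp.single_apply, Pi.single_apply]
  by_cases h : w = io j
  · rw [if_pos h, if_pos (by rw [h, hio])]
  · rw [if_neg h, if_neg (fun h' => h (by rw [← h', hio]))]

theorem mul_single {U : Op Z p} {u : Z → ℂ} (hU : ∀ (ξ : Lq Z p) w, U ξ w = u w * ξ w) (j : Z) :
    U (lp.single p j 1) = u j • lp.single p j 1 := by
  ext w
  rw [hU, lp.coeFn_smul, Pi.smul_apply]
  simp only [lp.single_apply, Pi.single_apply]
  split_ifs with h
  · rw [h, smul_eq_mul]
  · simp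

theorem e_part (hp : p ≠ ∞) {io : Z → Z} (hio : ∀ w, io (io w) = w) {u : Z → ℂ}
    (hu : ∀ w, ‖u w‖ = 1) (huio : ∀ w, u (io w) = -u w) {J U V E e : Op Z p}
    (hJ : ∀ (ξ : Lq Z p) w, J ξ w = ξ (io w)) (nJ : ‖J‖ ≤ 1)
    (hU : ∀ (ξ : Lq Z p) w, U ξ w = u w * ξ w) (hV : ∀ (ξ : Lq Z p) w, V ξ w = (u w)⁻¹ * ξ w)
    (hE : E * E = E) (cE : J * E = E * J) (k : Z → Z → ℝ)
    (hk : ∀ i j, E (lp.single p j 1) i = k i j) (k0 : ∀ i j, 0 ≤ k i j) {w0 : Z}
    (kpos : 0 < k w0 (io w0))
    (sat : ∀ Z0 : Finset Z, ∃ Z1 : Finset Z, Z0 ⊆ Z1 ∧ (∀ w, io w ∈ Z1 ↔ w ∈ Z1) ∧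
      ∀ i j, k i j ≠ 0 → (i ∈ Z1 ↔ j ∈ Z1))
    (he : e * e = e) (ce : J * e = e * J) (ne : ‖e - E‖ ≤ 1 / 10)
    (hK : e - U * e * V ∈ (opNT Z p hp).K) :
    (opNT Z p hp).d (e * epl J) (U * e * V * epl J) ≠ 0 := by
  have un : ∀ w, u w ≠ 0 := fun w h => by simpa [h] using hu w
  have JJ : J * J = 1 := by
    ext ξ w
    rw [mul_apply_eq_comp, hJ, hJ, hio]
    rfl
  have VU : V * U = 1 := by
    ext ξ w
    rw [mul_apply_eq_comp, hV, hU, ← mul_assoc, inv_mul_cancel₀ (un w), one_mul]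
    rfl
  have JU : J * U = -(U * J) := by
    ext ξ w
    rw [mul_apply_eq_comp, hJ, hU, huio, neg_apply, lp.coeFn_neg,
      Pi.neg_apply, mul_apply_eq_comp, hU, hJ, neg_mul]
  have JV : J * V = -(V * J) := by
    ext ξ w
    rw [mul_apply_eq_comp, hJ, hV, huio, neg_apply, lp.coeFn_neg,
      Pi.neg_apply, mul_apply_eq_comp, hV, hJ, inv_neg, neg_mul]
  have nU : ‖U‖ ≤ 1 := norm_le_one_of_mul hp (fun w => (hu w).le) hU
  have nV : ‖V‖ ≤ 1 := norm_le_one_of_mul hp (fun w => by rw [norm_inv, hu, inv_one]) hV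
  have nP := norm_epl nJ
  have PP := epl_idem JJ
  have idem : ∀ T : Op Z p, T * T = T → J * T = T * J → T * epl J * (T * epl J) = T * epl J :=
    fun T h1 h2 => by
      rw [mul_assoc, ← mul_assoc (epl J), epl_comm h2, mul_assoc, PP, ← mul_assoc, h1]
  have cidem : ∀ T : Op Z p, T * T = T → U * T * V * (U * T * V) = U * T * V := fun T h => by
    calc _ = U * T * (V * U) * T * V := by noncomm_ring
      _ = U * (T * T) * V := by rw [VU]; noncomm_ring
      _ = _ := by rw [h]
  have nr : ∀ T : Op Z p, ‖T * epl J‖ ≤ ‖T‖ := fun T =>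
    (norm_mul_le _ _).trans (mul_le_of_le_one_right (norm_nonneg _) nP)
  have nc : ∀ T : Op Z p, ‖U * T * V‖ ≤ ‖T‖ := fun T =>
    (norm_mul_le _ _).trans ((mul_le_of_le_one_right (norm_nonneg _) nV).trans
      ((norm_mul_le _ _).trans (mul_le_of_le_one_left (norm_nonneg _) nU)))
  obtain ⟨s0, hs0⟩ := exists_cutOp hK (by norm_num : (0 : ℝ) < 1 / 10)
  obtain ⟨s, hs, sio, sk⟩ := sat (insert w0 s0)
  have hs1 := hs0 s ((Finset.subset_insert _ _).trans hs)
  have cE' : cutOp p s * E = E * cutOp p s :=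
    cutOp_comm hp fun i j h => sk i j fun h' => h (by rw [hk, h']; simp)
  have cJ : cutOp p s * J = J * cutOp p s := cutOp_comm hp fun i j h => by
    rw [single_io hio hJ] at h
    have : i = io j := by
      by_contra hne
      exact h (by simp [lp.single_apply, hne])
    rw [this, sio]
  have cM : ∀ {W : Op Z p} {v : Z → ℂ}, (∀ (ξ : Lq Z p) w, W ξ w = v w * ξ w) →
      cutOp p s * W = W * cutOp p s := fun hW => cutOp_comm hp fun i j h => by
    have : i = j := by
      by_contra hne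
      exact h (by simp [hW, lp.single_apply, hne])
    rw [this]
  have cP : cutOp p s * epl J = epl J * cutOp p s := (epl_comm cJ.symm).symm
  have c1 : cutOp p s * (E * epl J) = E * epl J * cutOp p s := by
    rw [← mul_assoc, cE', mul_assoc, cP, mul_assoc]
  have c2 : cutOp p s * (U * E * V * epl J) = U * E * V * epl J * cutOp p s :=
    (((Commute.mul_right (cM hU) cE').mul_right (cM hV)).mul_right cP).eq
  have hd : e * epl J - U * e * V * epl J ∈ (opNT Z p hp).K := by
    rw [← sub_mul]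
    exact NT.K_mul_right _ hK
  have n0 : ‖e * epl J - E * epl J‖ ≤ 1 / 10 := by
    rw [← sub_mul]
    exact (nr _).trans ne
  have n2 : ‖U * e * V * epl J - U * E * V * epl J‖ ≤ 1 / 10 := by
    have : U * e * V * epl J - U * E * V * epl J = U * (e - E) * V * epl J := by noncomm_ring
    rw [this]
    exact (nr _).trans ((nc _).trans ne)
  have n1 : ‖(E * epl J - U * E * V * epl J) * (1 - cutOp p s)‖ ≤ 3 / 10 := by
    have e1 : (E * epl J - U * E * V * epl J) * (1 - cutOp p s) =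
        (1 - cutOp p s) * (E * epl J - U * E * V * epl J) := by
      rw [mul_sub, mul_one, sub_mul (1 : Op Z p), one_mul, mul_sub (cutOp p s), c1, c2, sub_mul]
    have e2 : (1 - cutOp p s) * (E * epl J - U * E * V * epl J) =
        (1 - cutOp p s) * (e - U * e * V) * epl J + (1 - cutOp p s) *
          ((U * e * V * epl J - U * E * V * epl J) - (e * epl J - E * epl J)) := by noncomm_ring
    rw [e1, e2]
    have b1 := (nr ((1 - cutOp p s) * (e - U * e * V))).trans hs1.le
    have b2 := (norm_mul_le (1 - cutOp p s)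
      ((U * e * V * epl J - U * E * V * epl J) - (e * epl J - E * epl J))).trans
      (mul_le_of_le_one_left (norm_nonneg _) (norm_one_sub_cutOp_le hp s))
    have b3 := norm_sub_le (U * e * V * epl J - U * E * V * epl J) (e * epl J - E * epl J)
    linarith [norm_add_le ((1 - cutOp p s) * (e - U * e * V) * epl J) ((1 - cutOp p s) *
      ((U * e * V * epl J - U * E * V * epl J) - (e * epl J - E * epl J)))]
  rw [e_abs (opNT Z p hp) (idem e he ce) (idem _ (cidem e he) (comm_cj ce JU JV)) hd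
    (idem E hE cE) (idem _ (cidem E hE) (comm_cj cE JU JV)) (cutOp_mul_cutOp s) c1 c2
    ((opNT Z p hp).F.mul_mem_left _ _ (cutOp_mem_F s)) (by linarith) (by linarith), τ_mul_cutOp]
  have ev : ∀ i, (E * epl J - U * E * V * epl J) (lp.single p i 1) i = k i (io i) := fun i => by
    have a1 : epl J (lp.single p i 1) =
        (1 / 2 : ℂ) • (lp.single p i 1 + lp.single p (io i) 1 : Lq Z p) := by
      rw [epl, smul_apply, add_apply, single_io hio hJ]
      rfl
    rw [sub_apply, lp.coeFn_sub, Pi.sub_apply, mul_apply_eq_comp, mul_apply_eq_comp,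
      mul_apply_eq_comp, mul_apply_eq_comp, hU, a1, map_smul, map_smul, map_smul, map_add,
      map_add, mul_single hV, mul_single hV, map_add, map_smul, map_smul]
    simp only [lp.coeFn_smul, lp.coeFn_add, Pi.smul_apply, Pi.add_apply, hk, huio, smul_eq_mul]
    field_simp [un i]
    ring
  simp only [ev]
  rw [← Complex.ofReal_sum, Complex.ofReal_ne_zero]
  exact (Finset.sum_pos' (f := fun i => k i (io i)) (fun i _ => k0 _ _)
    ⟨w0, hs (Finset.mem_insert_self _ _), kpos⟩).ne'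

end Pool.Agent.P.MP_9167e9_an.Avg
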