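import Mathlib

/-!
The homotopy of almost idempotent matrices, in abstract form.
-/

noncomputable section
open Filter Topology

namespace Pool.Agent.P.MP_9167e9_an.Gau

theorem zero_abs {M B' : Type} [Ring M] [NormedRing B'] {B : ℕ → Type} [∀ n, NormedRing (B n)]
    (lam : M →+* B') (hd : DenseRange lam) (pr : ∀ n, B' →+* B n) (hpr : ∀ n z, ‖pr n z‖ ≤ ‖z‖)
    (T : ∀ n, ℝ → M →+ B n) (U V ep : ∀ n, B n) (hU : ∀ n, ‖U n‖ ≤ 1) (hV : ∀ n, ‖V n‖ ≤ 1)
    (hep : ∀ n, ‖ep n‖ ≤ 1) (hee : ∀ n, ep n * ep n = ep n)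
    (hc : ∀ n φ y, ep n * T n φ y = T n φ y * ep n)
    (h0 : ∀ n y, T n 0 y = pr n (lam y))
    (h1 : ∀ y, ∀ᶠ n in atTop, T n Real.pi y = U n * pr n (lam y) * V n)
    (hmul : ∀ y y', ∀ᶠ n in atTop, ∀ φ, T n φ (y * y') = T n φ y * T n φ y')
    (hpow : ∀ y ε, 0 < ε → ∀ᶠ n in atTop, ∀ φ, ‖T n φ y‖ ≤ ‖lam y‖ + ε)
    {k : ℕ} (b : Matrix (Fin k) (Fin k) B') (hb : b * b = b) :
    ∃ C : ℝ, ∀ ε : ℝ, 0 < ε → ∃ y : Matrix (Fin k) (Fin k) M, ∀ᶠ n in atTop,
      ∀ X : ℝ → Matrix (Fin k) (Fin k) (B n), (∀ φ i j, X φ i j = T n φ (y i j) * ep n) →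
        (∀ φ i j, ‖X φ i j‖ ≤ C) ∧ (∀ φ i j, ‖(X φ * X φ - X φ) i j‖ ≤ ε) ∧
        (∀ i j, ‖X 0 i j - pr n (b i j) * ep n‖ ≤ ε) ∧
        ∀ i j, ‖X Real.pi i j - U n * pr n (b i j) * V n * ep n‖ ≤ ε := by
  obtain ⟨C, hC⟩ := (Set.finite_range fun x : Fin k × Fin k => ‖b x.1 x.2‖).bddAbove
  have hC' : ∀ i j, ‖b i j‖ ≤ |C| := fun i j => (hC ⟨(i, j), rfl⟩).trans (le_abs_self C)
  set D := |C| with hD
  have hD0 : 0 ≤ D := abs_nonneg C
  refine ⟨D + 2, fun ε hε => ?_⟩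
  set N : ℝ := k * (2 * D + 1) + 1 with hN
  have hN1 : 1 ≤ N := by rw [hN]; nlinarith [Nat.cast_nonneg (α := ℝ) k]
  set δ := min 1 (ε / (2 * N)) with hδ
  have hδ0 : 0 < δ := lt_min one_pos (by positivity)
  have hδ1 : δ ≤ 1 := min_le_left _ _
  have hδ2 : δ * N ≤ ε / 2 := by
    have : δ ≤ ε / (2 * N) := min_le_right _ _
    rw [le_div_iff₀ (by positivity)] at this
    linarith
  have hδ3 : δ ≤ ε := by nlinarith
  choose y hy using fun i j => hd.exists_dist_lt (b i j) hδ0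
  have hy' : ∀ i j, ‖lam (y i j) - b i j‖ ≤ δ := fun i j => by
    rw [← dist_eq_norm, dist_comm]; exact (hy i j).le
  have hy2 : ∀ i j, ‖lam (y i j)‖ ≤ D + 1 := fun i j => by
    have : lam (y i j) = b i j + (lam (y i j) - b i j) := by simp
    rw [this]
    exact (norm_add_le _ _).trans (add_le_add (hC' i j) ((hy' i j).trans hδ1))
  have hq : ∀ i j, ‖lam (∑ l, y i l * y l j - y i j)‖ ≤ ε / 2 := fun i j => by
    have e : lam (∑ l, y i l * y l j - y i j) = ∑ l, ((lam (y i l) - b i l) * lam (y l j) +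
        b i l * (lam (y l j) - b l j)) - (lam (y i j) - b i j) := by
      have : b i j = ∑ l, b i l * b l j := by rw [← Matrix.mul_apply, hb]
      simp only [map_sub, map_sum, map_mul, sub_mul, mul_sub, Finset.sum_add_distrib,
        Finset.sum_sub_distrib, ← this]
      abel
    rw [e]
    refine (norm_sub_le _ _).trans ((add_le_add ((norm_sum_le _ _).trans
      (Finset.sum_le_card_nsmul _ _ (δ * (2 * D + 1)) fun l _ => ?_)) (hy' i j)).trans ?_)
    · refine (norm_add_le _ _).trans ?_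
      have a1 := (norm_mul_le _ _).trans (mul_le_mul (hy' i l) (hy2 l j) (norm_nonneg _) hδ0.le)
      have a2 := (norm_mul_le _ _).trans (mul_le_mul (hC' i l) (hy' l j) (norm_nonneg _) hD0)
      linarith
    · simp only [Finset.card_univ, Fintype.card_fin, nsmul_eq_mul]
      rw [hN] at hδ2
      linarith
  refine ⟨Matrix.of y, ?_⟩
  have E1 : ∀ᶠ n in atTop, ∀ i j, T n Real.pi (y i j) = U n * pr n (lam (y i j)) * V n :=
    eventually_all.2 fun i => eventually_all.2 fun j => h1 _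
  have E2 : ∀ᶠ n in atTop, ∀ i j l φ, T n φ (y i l * y l j) = T n φ (y i l) * T n φ (y l j) :=
    eventually_all.2 fun i => eventually_all.2 fun j => eventually_all.2 fun l => hmul _ _
  have E3 : ∀ᶠ n in atTop, ∀ i j φ, ‖T n φ (y i j)‖ ≤ ‖lam (y i j)‖ + 1 :=
    eventually_all.2 fun i => eventually_all.2 fun j => hpow _ _ one_pos
  have E4 : ∀ᶠ n in atTop, ∀ i j φ, ‖T n φ (∑ l, y i l * y l j - y i j)‖ ≤
      ‖lam (∑ l, y i l * y l j - y i j)‖ + ε / 2 :=
    eventually_all.2 fun i => eventually_all.2 fun j => hpow _ _ (half_pos hε)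
  filter_upwards [E1, E2, E3, E4] with n e1 e2 e3 e4 X hX
  have hr : ∀ x : B n, ‖x * ep n‖ ≤ ‖x‖ := fun x =>
    (norm_mul_le _ _).trans (mul_le_of_le_one_right (norm_nonneg _) (hep n))
  simp only [Matrix.of_apply] at hX
  refine ⟨fun φ i j => ?_, fun φ i j => ?_, fun i j => ?_, fun i j => ?_⟩
  · rw [hX]
    have := hr (T n φ (y i j))
    linarith [e3 i j φ, hy2 i j]
  · have e : (X φ * X φ - X φ) i j = T n φ (∑ l, y i l * y l j - y i j) * ep n := by
      rw [Matrix.sub_apply, Matrix.mul_apply, map_sub, map_sum, sub_mul, Finset.sum_mul, hX]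
      congr 1
      refine Finset.sum_congr rfl fun l _ => ?_
      rw [hX, hX, e2, mul_assoc, ← mul_assoc (ep n), hc, mul_assoc, hee, mul_assoc]
    rw [e]
    have := hr (T n φ (∑ l, y i l * y l j - y i j))
    linarith [e4 i j φ, hq i j]
  · rw [hX, h0, ← sub_mul, ← map_sub]
    exact (hr _).trans ((hpr _ _).trans ((hy' i j).trans hδ3))
  · rw [hX, e1, ← sub_mul, ← sub_mul, ← mul_sub, ← map_sub]
    refine (hr _).trans ((norm_mul_le _ _).trans ?_)
    refine (mul_le_of_le_one_right (norm_nonneg _) (hV n)).trans ((norm_mul_le _ _).trans ?_)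
    exact (mul_le_of_le_one_left (norm_nonneg _) (hU n)).trans
      ((hpr _ _).trans ((hy' i j).trans hδ3))

end Pool.Agent.P.MP_9167e9_an.Gau
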