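import Pool.Agent.P.MP_9167e9_an.Det.Power
import Pool.Agent.P.MP_9167e9_an.Det.ZeroAbs
import Pool.Agent.P.MP_9167e9_an.Det.Epart
import Pool.Agent.P.MP_9167e9_an.Det.Desc

/-!
On `ℓ²` the index of a fixed idempotent matrix vanishes at all late stages.
-/

noncomputable section
open scoped ENNReal Classical
open Filter Topology

namespace Pool.Agent.P.MP_9167e9_an.Gau

theorem zero_l2 (Gen : Type) [Fintype Gen] :
    ∃ Y : ℕ → ℕ → Finset (MonoidAlgebra ℂ (FreeGroup Gen)),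
    (∀ n r, (Y n r).card ≤ n + 1) ∧ (∀ n r, ∀ y ∈ Y n r, ∀ f ∈ y.coeff.support, nr f ≤ r) ∧
    ∀ (p : ℝ≥0∞) [Fact (1 ≤ p)] (x : MonoidAlgebra ℂ (FreeGroup Gen)) (G : Type) [Group G]
      (ρ : FreeGroup Gen →* G) (R : ℕ → ℕ)
      (S : ∀ n, Stage p ρ x (R n) (Y n (R n)) (Real.exp (R n / (n + 1) ^ 2))),
      Function.Surjective ρ → (∀ n, 4 * (n + 1) ≤ R n) →
      ∀ (pr : ∀ n, Bp G 2 →+* Op (G ⧸ (S n).A) 2) (J U V : ∀ n, Op (G ⧸ (S n).A) 2),
      (∀ n z, ‖pr n z‖ ≤ ‖z‖) →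
      (∀ n (z : Bp G 2) (f : G →₀ ℂ), IsConv f z.1 →
        ∀ ξ w, pr n z ξ w = f.sum fun g c => c * ξ (g⁻¹ • w)) →
      (∀ n ξ w, J n ξ w = ξ ((S n).io w)) → (∀ n ξ w, U n ξ w = uu (S n).loc w * ξ w) →
      (∀ n ξ w, V n ξ w = (uu (S n).loc w)⁻¹ * ξ w) →
      ∀ a : Idem (Bp G 2), ∀ᶠ n in atTop, (opNT (G ⧸ (S n).A) 2 two_ne).dM
        (a.e.map fun z => pr n z * Avg.epl (J n))
        (a.e.map fun z => U n * pr n z * V n * Avg.epl (J n)) = 0 := by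
  obtain ⟨Y, h1, h2, h3⟩ := power Gen
  refine ⟨Y, h1, h2, fun p _ x G _ ρ R S hρ hR pr J U V hpr hk hJ hU hV a => ?_⟩
  have htr := fun n => actQ_tr (ρ := ρ) (A := (S n).A) hρ
  have hio := fun n => actQ_io (ρ := ρ) (S n).io_mk
  have hii := fun n => io_io (S n).io_mk (S n).sq
  have h0 : ∀ n y, rep (actQ ρ (S n).A) y = pr n (lamB ρ y) := fun n y => by
    ext ξ w
    rw [rep_apply, hk n _ _ (rep_conv ρ y),
      Finsupp.sum_mapDomain_index (by simp) (fun _ _ _ => add_mul _ _ _)]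
    simp [Finsupp.sum, actQ]
  have hJJ : ∀ n, J n * J n = 1 := fun n => by
    ext ξ w
    rw [mul_apply_eq_comp, hJ, hJ, hii]; rfl
  have nJ : ∀ n, ‖J n‖ ≤ 1 := fun n =>
    norm_le_of_pt two_ne (Function.LeftInverse.injective (hii n)) zero_le_one fun ξ w => by
      rw [hJ, one_mul]
  have nU : ∀ n, ‖U n‖ ≤ 1 := fun n =>
    Avg.norm_le_one_of_mul two_ne (fun w => (norm_uu w).le) (hU n)
  have nV : ∀ n, ‖V n‖ ≤ 1 := fun n =>
    Avg.norm_le_one_of_mul two_ne (fun w => by rw [norm_inv, norm_uu, inv_one]) (hV n)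
  have hc : ∀ n φ y, J n * Tw (actQ ρ (S n).A) (om (S n).loc) φ y =
      Tw (actQ ρ (S n).A) (om (S n).loc) φ y * J n := fun n φ y =>
    Tw_comm φ (hio n) (om_io (hio n)) (hJ n) y
  have hbl : ∀ y : MonoidAlgebra ℂ (FreeGroup Gen), ∀ᶠ n in atTop, Bl (2 * R n) y := fun y => by
    obtain ⟨r, hr⟩ := exists_bl y
    filter_upwards [eventually_ge_atTop r] with n hn
    exact hr.mono (by have := hR n; omega)
  have hcont : ∀ n, Continuous (pr n) := fun n =>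
    (AddMonoidHomClass.lipschitz_of_bound (pr n) 1 fun z => by
      rw [one_mul]; exact hpr n z).continuous
  -- the involution commutes with the whole representation
  have hJp : ∀ n z, J n * pr n z = pr n z * J n := fun n z => by
    refine (lamB_dense hρ).induction_on z
      (isClosed_eq (by have := hcont n; fun_prop) (by have := hcont n; fun_prop)) fun y => ?_
    rw [← h0, rep_eq, ← Tw_zero (H := om (S n).loc)]
    exact hc n 0 y
  have hVU : ∀ n, V n * U n = 1 := fun n => by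
    ext ξ w
    rw [mul_apply_eq_comp, hV, hU, inv_mul_cancel_left₀ (uu_ne w)]; rfl
  have hUV : ∀ n, U n * V n = 1 := fun n => by
    ext ξ w
    rw [mul_apply_eq_comp, hU, hV, mul_inv_cancel_left₀ (uu_ne w)]; rfl
  have hJU : ∀ n, J n * U n = -(U n * J n) := fun n => by
    ext ξ w
    rw [neg_apply, lp.coeFn_neg, Pi.neg_apply, mul_apply_eq_comp, mul_apply_eq_comp, hJ, hU, hU,
      hJ, uu_io (hio n), neg_mul]
  have hJV : ∀ n, J n * V n = -(V n * J n) := fun n => by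
    ext ξ w
    rw [neg_apply, lp.coeFn_neg, Pi.neg_apply, mul_apply_eq_comp, mul_apply_eq_comp, hJ, hV, hV,
      hJ, uu_io (hio n), inv_neg, neg_mul]
  obtain ⟨C, hC⟩ := zero_abs (lamB ρ) (lamB_dense hρ) pr hpr
    (fun n φ => (Tw (actQ ρ (S n).A) (om (S n).loc) φ).toAddMonoidHom) U V
    (fun n => Avg.epl (J n)) nU nV (fun n => Avg.norm_epl (nJ n))
    (fun n => Avg.epl_idem (hJJ n)) (fun n φ y => Avg.epl_comm (hc n φ y))
    (fun n y => by rw [← h0]; exact Tw_zero y)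
    (fun y => (hbl y).mono fun n hn => by
      rw [← h0, rep_eq, ← Tw_zero (H := om (S n).loc)]
      exact Tw_conj Real.pi uu_ne (hU n) (hV n) fun f hf w => uu_eq (cl_app f (hn f hf) w))
    (fun y y' => ((hbl y).and (hbl y')).mono fun n hn φ => TwL_mul _ φ hn.1 hn.2)
    (h3 p x G ρ R S hR fun n y => by rw [h0]; exact hpr n _) a.e a.idem
  obtain ⟨ε, hε, hom⟩ := dM_hom a.n C
  obtain ⟨y, hy⟩ := hC ε hε
  filter_upwards [hy] with n hn
  obtain ⟨b1, b2, b3, b4⟩ := hn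
    (fun φ => Matrix.of fun i j => Tw (actQ ρ (S n).A) (om (S n).loc) φ (y i j) * Avg.epl (J n))
    fun _ _ _ => rfl
  obtain ⟨M, hM⟩ := om_bdd (loc := (S n).loc) (htr n)
  refine hom _ _ _ _ ?_ ?_ (fun i j => ?_) _ (fun i j => ?_) (fun φ _ i j => ?_)
    (fun φ _ => b1 φ) (fun φ _ => b2 φ) b3 b4
  · exact (map_mul_nu (Avg.cutH (pr n) _ (Avg.epl_idem (hJJ n))
      fun z => Avg.epl_comm (hJp n z)) a.e a.e).symm.trans (by rw [a.idem]; rfl)
  · exact (map_mul_nu (Avg.cutH (Avg.cj (pr n) _ _ (hUV n) (hVU n)) _ (Avg.epl_idem (hJJ n))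
      fun z => Avg.epl_comm (Avg.comm_cj (hJp n z) (hJU n) (hJV n))) a.e a.e).symm.trans
      (by rw [a.idem]; rfl)
  · rw [Matrix.map_apply, Matrix.map_apply, ← sub_mul]
    refine NT.K_mul_right _ (Avg.pi_K (pr n) (hcont n) (hk n) two_ne uu_ne (fun g => ?_)
      (hU n) (hV n) _)
    obtain ⟨f, rfl⟩ := hρ g
    exact uu_tendsto (htr n) f
  · exact ((Tw_cont hM (y i j)).mul continuous_const).continuousOn
  · rw [Matrix.of_apply, Matrix.of_apply, ← sub_mul]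
    exact NT.K_mul_right _ (Tw_K φ (fun f => exp_om_tendsto (htr n) f φ) _)

theorem zero (Gen : Type) [Fintype Gen] :
    ∃ Y : ℕ → ℕ → Finset (MonoidAlgebra ℂ (FreeGroup Gen)),
    (∀ n r, (Y n r).card ≤ n + 1) ∧ (∀ n r, ∀ y ∈ Y n r, ∀ f ∈ y.coeff.support, nr f ≤ r) ∧
    ∀ (p : ℝ≥0∞) [Fact (1 ≤ p)] (x : MonoidAlgebra ℂ (FreeGroup Gen)) (G : Type) [Group G]
      (ρ : FreeGroup Gen →* G) (R : ℕ → ℕ), Function.Surjective ρ → (∀ n, 4 * (n + 1) ≤ R n) →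
      ∀ (S : ∀ n, Stage p ρ x (R n) (Y n (R n)) (Real.exp (R n / (n + 1) ^ 2)))
        [∀ n, Finite (S n).A] (J U V : ∀ n, Op (G ⧸ (S n).A) 2),
      (∀ n ξ w, J n ξ w = ξ ((S n).io w)) → (∀ n ξ w, U n ξ w = uu (S n).loc w * ξ w) →
      (∀ n ξ w, V n ξ w = (uu (S n).loc w)⁻¹ * ξ w) →
      ∀ (k : ℕ) (b : Matrix (Fin k) (Fin k) (Bp G 2)), b * b = b →
      ∀ᶠ n in atTop, (opNT (G ⧸ (S n).A) 2 two_ne).dM
        (b.map fun z => piQ (S n).A two_ne z * Avg.epl (J n))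
        (b.map fun z => U n * piQ (S n).A two_ne z * V n * Avg.epl (J n)) = 0 := by
  obtain ⟨Y, h1, h2, h3⟩ := zero_l2 Gen
  exact ⟨Y, h1, h2, fun p _ x G _ ρ R hρ hR S _ J U V hJ hU hV k b hb =>
    h3 p x G ρ R S hρ hR (fun n => piQ (S n).A two_ne) J U V (fun n z => norm_piL_le _ _ _)
      (fun _ _ _ hf ξ w => piL_conv two_ne hf ξ w) hJ hU hV ⟨k, b, hb⟩⟩

end Pool.Agent.P.MP_9167e9_an.Gau
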