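import Pool.Agent.P.MP_9167e9_an.Det.Est
import Pool.Agent.P.MP_9167e9_an.Det.Zero

/-!
The detection argument.
-/

noncomputable section
open scoped ENNReal Classical
open Filter Topology

namespace Pool.Agent.P.MP_9167e9_an

theorem pDet : StDet := by
  intro Gen _ p _ x h2 hp hcon
  obtain ⟨Y, hY1, hY2, hY⟩ := Gau.zero Gen
  obtain ⟨G, _, ρ, R, hρ, hst⟩ := hcon Y hY1 hY2
  have S := fun n => (hst n).2.some
  have := fun n => (S n).finA
  choose J U V hJ nJ hU hV using fun n => Avg.exists_ops (S n) hp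
  choose J' U' V' hJ' _ hU' hV' using fun n => Avg.exists_ops (S n) Gau.two_ne
  choose p0 p1 e0 e1 hK using fun n => Avg.exists_hom (S n) hρ hp (hJ n) (hU n) (hV n)
  choose q0 q1 f0 f1 hK' using fun n => Avg.exists_hom (S n) hρ Gau.two_ne (hJ' n) (hU' n) (hV' n)
  obtain ⟨T, hT⟩ := Avg.exists_conv hp (x.coeff.mapDomain ρ)
  obtain ⟨e, he, ne⟩ := Avg.exists_e (S 0) hp hT
  refine ⟨G, _, p, _, h2, hp, Avg.det_abs (iota G p) (fun n => Op (G ⧸ (S n).A) p)
    (fun n => opNT _ p hp) p0 p1 hK e he (fun n => ?_) fun a => ?_⟩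
  · rw [e0, e1]
    exact Avg.e_stage (S n) hρ hp (hJ n) (nJ n) (hU n) (hV n) hT e he ne
  · filter_upwards [hY p x G ρ R hρ (fun n => (hst n).1) S J' U' V' hJ' hU' hV' _
      (a.map (lam2 h2)).e (a.map (lam2 h2)).idem] with n hn
    rw [Avg.transfer (S n) h2 hp (fun u v h i => by rw [hJ, hJ', h])
      (fun u v h i => by rw [hU, hU', h]) (fun u v h i => by rw [hV, hV', h]) (e0 n) (e1 n) (hK n)
      (f0 n) (f1 n) (hK' n) a, funext (f0 n), funext (f1 n)]
    exact hn

end Pool.Agent.P.MP_9167e9_an
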