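import Pool.Agent.P.MP_9167e9_an.Det.IndDef

/-!
The abstract form of the detection argument.
-/

noncomputable section
open Filter

namespace Pool.Agent.P.MP_9167e9_an.Avg

theorem det_abs {B Bs : Type} [Ring B] [Ring Bs] (ι : Bs →+* B) (A : ℕ → Type)
    [∀ n, NormedRing (A n)] [∀ n, CompleteSpace (A n)] (t : ∀ n, NT (A n))
    (p0 p1 : ∀ n, B →ₙ+* A n) (h : ∀ n b, p0 n b - p1 n b ∈ (t n).K) (e : B) (he : e * e = e)
    (hne : ∀ n, (t n).d (p0 n e) (p1 n e) ≠ 0)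
    (hz : ∀ a : Idem Bs, ∀ᶠ n in atTop,
      (t n).dM ((a.map ι).e.map (p0 n)) ((a.map ι).e.map (p1 n)) = 0) :
    ¬ Function.Surjective (K0.map ι) := by
  intro hs
  obtain ⟨z, hz'⟩ := hs (kcl (Idem.one e he))
  obtain ⟨S, hS⟩ := K0_fin z
  obtain ⟨n, hn⟩ := ((eventually_all_finset S).2 fun a _ => hz a).exists
  refine hne n ?_
  rw [← (t n).dK_one (p0 n) (p1 n) (h n) e he, ← hz']
  refine hS ℂ (((t n).dK (p0 n) (p1 n) (h n)).comp (K0.map ι)) fun a ha => ?_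
  rw [AddMonoidHom.comp_apply, K0_map_cls, NT.dK_cls]
  exact hn a ha

theorem e_abs {A : Type} [NormedRing A] [CompleteSpace A] (t : NT A) {P' Q' P Q c : A}
    (hP' : P' * P' = P') (hQ' : Q' * Q' = Q') (hK : P' - Q' ∈ t.K) (hP : P * P = P)
    (hQ : Q * Q = Q) (hc : c * c = c) (cP : c * P = P * c) (cQ : c * Q = Q * c)
    (hF : (P - Q) * c ∈ t.F) (n1 : ‖P' - P‖ + ‖(P - Q) * (1 - c)‖ < 1) (n2 : ‖Q' - Q‖ < 1) :
    t.d P' Q' = t.τ ((P - Q) * c) := by
  have e1 : P * c + Q * (1 - c) - Q = (P - Q) * c := by noncomm_ring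
  have h2 : (P * c + Q * (1 - c)) * (P * c + Q * (1 - c)) = P * c + Q * (1 - c) := by
    have a1 : P * c * (P * c) = P * c := by
      rw [mul_assoc, ← mul_assoc c, cP, mul_assoc, hc, ← mul_assoc, hP]
    have a2 : P * c * Q = P * Q * c := by rw [mul_assoc, cQ, mul_assoc]
    have a3 : Q * c * (P * c) = Q * (P * c) := by
      rw [mul_assoc, ← mul_assoc c, cP, mul_assoc, hc]
    have a4 : Q * c * Q = Q * c := by rw [mul_assoc, cQ, ← mul_assoc, hQ]
    have a5 : P * Q * c * c = P * Q * c := by rw [mul_assoc, hc]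
    have a6 : Q * c * c = Q * c := by rw [mul_assoc, hc]
    calc _ = P * c * (P * c) + (P * c * Q - P * c * Q * c) + (Q * (P * c) - Q * c * (P * c)) +
          (Q * Q - Q * Q * c - Q * c * Q + Q * c * Q * c) := by noncomm_ring
      _ = _ := by rw [a1, a2, a3, a4, a5, a6, hQ]; noncomm_ring
  have e2 : P' - (P * c + Q * (1 - c)) = (P' - P) + (P - Q) * (1 - c) := by noncomm_ring
  rw [NT.d_pert hP' hQ' h2 hQ hK (by rw [e1]; exact NT.F_le_K hF)
    (by rw [e2]; exact (norm_add_le _ _).trans_lt n1) n2, NT.d_fin h2 hQ (by rwa [e1]), e1]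

end Pool.Agent.P.MP_9167e9_an.Avg
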