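import Pool.Agent.P.MP_9167e9_an.StA

/-!
The averaging operator over the blocks of a block system is an idempotent contraction of `ℓ^p`.
-/

noncomputable section
open scoped ENNReal Classical

namespace Pool.Agent.P.MP_9167e9_an.Avg

variable {G : Type} {p : ℝ≥0∞} [Fact (1 ≤ p)]

theorem one_le_toReal (hp : p ≠ ∞) : 1 ≤ p.toReal := by
  have h := ENNReal.toReal_mono hp (Fact.out : 1 ≤ p)
  simpa using h

/-- The average of `ξ` over the block of `g`. -/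
def av (blk : G → Finset G) (ξ : G → ℂ) (g : G) : ℂ := (∑ g' ∈ blk g, ξ g') / (blk g).card

theorem av_pow (blk : G → Finset G) {r : ℝ} (hr : 1 ≤ r) (ξ : G → ℂ) (g : G) :
    ‖av blk ξ g‖ ^ r ≤ ∑ g' ∈ blk g, ‖ξ g'‖ ^ r / (blk g).card := by
  rcases (blk g).eq_empty_or_nonempty with h | h
  · have : r ≠ 0 := by linarith
    simp [av, h, Real.zero_rpow this]
  have hc : (0 : ℝ) < (blk g).card := by exact_mod_cast h.card_pos
  have h1 : ‖av blk ξ g‖ ≤ ∑ g' ∈ blk g, (1 / (blk g).card : ℝ) * ‖ξ g'‖ := by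
    rw [av, norm_div, ← Finset.mul_sum, Complex.norm_natCast, div_eq_inv_mul, one_div]
    exact mul_le_mul_of_nonneg_left (norm_sum_le _ _) (by positivity)
  have h2 := Real.rpow_arith_mean_le_arith_mean_rpow (blk g) (fun _ => (1 / (blk g).card : ℝ))
    (fun g' => ‖ξ g'‖) (fun _ _ => by positivity)
    (by rw [Finset.sum_const, nsmul_eq_mul]; field_simp) (fun _ _ => norm_nonneg _) hr
  refine (Real.rpow_le_rpow (norm_nonneg _) h1 (by linarith)).trans (h2.trans (le_of_eq ?_))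
  refine Finset.sum_congr rfl fun _ _ => ?_
  rw [one_div, div_eq_inv_mul]

variable {blk : G → Finset G} (h1 : ∀ g g', g' ∈ blk g → blk g' = blk g)
  (h2 : ∀ g g', g' ∈ blk g → g ∈ blk g)
include h1 h2

theorem av_sum {r : ℝ} (hr : 1 ≤ r) (ξ : G → ℂ) (F : Finset G) :
    ∑ g ∈ F, ‖av blk ξ g‖ ^ r ≤ ∑ g' ∈ F.biUnion blk, ‖ξ g'‖ ^ r := by
  refine (Finset.sum_le_sum fun g _ => av_pow blk hr ξ g).trans ?_
  have e : ∑ g ∈ F, ∑ g' ∈ blk g, ‖ξ g'‖ ^ r / ((blk g).card : ℝ) =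
      ∑ g' ∈ F.biUnion blk, ∑ g ∈ F.filter (fun g => g' ∈ blk g),
        ‖ξ g'‖ ^ r / ((blk g).card : ℝ) := by
    refine Finset.sum_comm' fun g g' => ?_
    simp only [Finset.mem_filter, Finset.mem_biUnion]
    constructor
    · rintro ⟨a, b⟩
      exact ⟨⟨a, b⟩, g, a, b⟩
    · rintro ⟨⟨a, b⟩, -⟩
      exact ⟨a, b⟩
  rw [e]
  refine Finset.sum_le_sum fun g' hg' => ?_
  obtain ⟨g0, -, hg0⟩ := Finset.mem_biUnion.1 hg'
  have hne : g' ∈ blk g' := by rw [h1 _ _ hg0]; exact hg0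
  have hc : (0 : ℝ) < (blk g').card := by exact_mod_cast Finset.card_pos.2 ⟨_, hne⟩
  have e2 : ∑ g ∈ F.filter (fun g => g' ∈ blk g), ‖ξ g'‖ ^ r / ((blk g).card : ℝ) =
      ∑ g ∈ F.filter (fun g => g' ∈ blk g), ‖ξ g'‖ ^ r / ((blk g').card : ℝ) :=
    Finset.sum_congr rfl fun g hg => by rw [h1 _ _ (Finset.mem_filter.1 hg).2]
  rw [e2, Finset.sum_const, nsmul_eq_mul]
  have hs : F.filter (fun g => g' ∈ blk g) ⊆ blk g' := fun g hg => by
    have := (Finset.mem_filter.1 hg).2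
    rw [h1 _ _ this]
    exact h2 _ _ this
  have hle : ((F.filter (fun g => g' ∈ blk g)).card : ℝ) ≤ (blk g').card := by
    exact_mod_cast Finset.card_le_card hs
  have h0 : 0 ≤ ‖ξ g'‖ ^ r := by positivity
  calc _ ≤ ((blk g').card : ℝ) * (‖ξ g'‖ ^ r / (blk g').card) :=
        mul_le_mul_of_nonneg_right hle (by positivity)
    _ = _ := by field_simp

theorem av_le (hp : p ≠ ∞) (ξ : Lq G p) (F : Finset G) :
    ∑ g ∈ F, ‖av blk ξ g‖ ^ p.toReal ≤ ‖ξ‖ ^ p.toReal :=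
  (av_sum h1 h2 (one_le_toReal hp) ξ F).trans
    (lp.sum_rpow_le_norm_rpow (by linarith [one_le_toReal hp]) ξ _)

theorem exists_avg (hp : p ≠ ∞) : ∃ E : Op G p, (∀ (ξ : Lq G p) (g : G),
    E ξ g = (∑ g' ∈ blk g, ξ g') / (blk g).card) ∧ ‖E‖ ≤ 1 ∧ E * E = E := by
  have hp0 : 0 < p.toReal := by linarith [one_le_toReal hp]
  let L : Lq G p →ₗ[ℂ] Lq G p :=
    { toFun := fun ξ => ⟨av blk ξ, memℓp_gen' (av_le h1 h2 hp ξ)⟩
      map_add' := fun ξ ζ => by
        ext g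
        simp [av, Finset.sum_add_distrib, add_div]
      map_smul' := fun a ξ => by
        ext g
        simp [av, ← Finset.mul_sum, mul_div_assoc] }
  have hL : ∀ ξ, ‖L ξ‖ ≤ 1 * ‖ξ‖ := fun ξ => by
    rw [one_mul]
    exact lp.norm_le_of_forall_sum_le hp0 (norm_nonneg _) (av_le h1 h2 hp ξ)
  refine ⟨L.mkContinuous 1 hL, fun _ _ => rfl, L.mkContinuous_norm_le zero_le_one hL, ?_⟩
  ext ξ g
  change av blk (av blk ξ) g = av blk ξ g
  rcases (blk g).eq_empty_or_nonempty with h | h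
  · simp [av, h]
  have hc : ((blk g).card : ℂ) ≠ 0 := by exact_mod_cast h.card_pos.ne'
  have e : ∑ g' ∈ blk g, av blk ξ g' = ∑ g' ∈ blk g, av blk ξ g :=
    Finset.sum_congr rfl fun g' hg' => by simp only [av, h1 _ _ hg']
  rw [av, e, Finset.sum_const, nsmul_eq_mul]
  field_simp

end Pool.Agent.P.MP_9167e9_an.Avg
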