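import Pool.Agent.P.MP_9167e9_an.Det.IndM

/-!
Homotopy invariance of the index along a path of almost idempotent elements.
-/

noncomputable section
open scoped Classical
open Filter Topology Set

namespace Pool.Agent.P.MP_9167e9_an

theorem TI.d_hom {A : Type} [NormedRing A] [CompleteSpace A] (t : TI A)
    (hK : IsClosed (t.K : Set A)) {C ε a b : ℝ} (hab : a ≤ b) (hε : ε ≤ 1 / 100)
    (hC : 2 * ε * (2 * C + 1) ≤ 1 / 4) {P0 P1 : A} (h0 : P0 * P0 = P0) (h1 : P1 * P1 = P1)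
    (h01 : P0 - P1 ∈ t.K) (X : ℝ → A) (hX : ContinuousOn X (Icc a b))
    (hXK : ∀ φ ∈ Icc a b, X φ - X a ∈ t.K) (hXC : ∀ φ ∈ Icc a b, ‖X φ‖ ≤ C)
    (hXe : ∀ φ ∈ Icc a b, ‖X φ * X φ - X φ‖ ≤ ε) (n0 : ‖X a - P0‖ ≤ ε) (n1 : ‖X b - P1‖ ≤ ε) :
    t.d P0 P1 = 0 := by
  have ha : a ∈ Icc a b := left_mem_Icc.2 hab
  have hb : b ∈ Icc a b := right_mem_Icc.2 hab
  have hε0 : 0 ≤ ε := (norm_nonneg _).trans n0
  have hi : ∀ φ ∈ Icc a b, chi (X φ) * chi (X φ) = chi (X φ) := fun φ h => chi_idem (hXe φ h) hε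
  have hn : ∀ φ ∈ Icc a b, ‖chi (X φ) - X φ‖ ≤ 1 / 4 := fun φ h =>
    (chi_near (hXe φ h) hε).trans (le_trans (by have := hXC φ h; gcongr) hC)
  have hc : ∀ φ ∈ Icc a b, ∀ ψ ∈ Icc a b, chi (X φ) - chi (X ψ) ∈ t.K := fun φ h ψ h' =>
    chi_cong (hXe φ h) (hXe ψ h') hε t.K hK (TI.K_trans (hXK φ h) (TI.K_symm (hXK ψ h')))
  have near : ∀ φ ∈ Icc a b, ∀ Y : A, ‖X φ - Y‖ ≤ 1 / 2 → ‖chi (X φ) - Y‖ < 1 := by
    intro φ h Y hY
    have := norm_add_le (chi (X φ) - X φ) (X φ - Y)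
    rw [sub_add_sub_cancel] at this
    linarith [hn φ h]
  have key : t.d (chi (X a)) (chi (X a)) = t.d (chi (X a)) (chi (X b)) := by
    refine isPreconnected_Icc.induction₂
      (fun φ ψ => t.d (chi (X a)) (chi (X φ)) = t.d (chi (X a)) (chi (X ψ))) (fun φ h => ?_)
      (fun _ _ _ _ _ _ h h' => h.trans h') (fun _ _ _ _ h => h.symm) ha hb
    have h2 : ∀ᶠ ψ in 𝓝[Icc a b] φ, dist (X ψ) (X φ) < 1 / 4 :=
      Metric.tendsto_nhds.1 (hX φ h) _ (by norm_num)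
    filter_upwards [h2, self_mem_nhdsWithin] with ψ h3 hψ
    rw [TI.d_cocycle (hi a ha) (hi φ h) (hi ψ hψ) (hc a ha φ h) (hc φ h ψ hψ),
      TI.d_unit (hi φ h) (hi ψ hψ) (isUnit_of_near (near φ h _ ?_)), add_zero]
    have := norm_add_le (X φ - X ψ) (X ψ - chi (X ψ))
    rw [sub_add_sub_cancel, norm_sub_rev (X φ) (X ψ), ← dist_eq_norm (X ψ) (X φ),
      norm_sub_rev (X ψ)] at this
    linarith [hn ψ hψ]
  rw [← TI.d_pertU (hi a ha) (hi b hb) h0 h1 (hc a ha b hb) h01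
    (isUnit_of_near (near a ha _ (by linarith))) (isUnit_of_near (near b hb _ (by linarith))),
    ← key, TI.d_self (hi a ha)]

section

attribute [local instance] Matrix.linftyOpNormedRing

/-- Homotopy invariance for matrices, with entrywise hypotheses. -/
theorem dM_hom' (n : ℕ) (C : ℝ) : ∃ ε > 0, ∀ (A : Type) [NormedRing A] [CompleteSpace A]
    (t : NT A) (a b : ℝ), a ≤ b → ∀ (P0 P1 : Matrix (Fin n) (Fin n) A), P0 * P0 = P0 →
    P1 * P1 = P1 → (∀ i j, P0 i j - P1 i j ∈ t.K) → ∀ X : ℝ → Matrix (Fin n) (Fin n) A,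
    (∀ i j, ContinuousOn (fun φ => X φ i j) (Icc a b)) →
    (∀ φ ∈ Icc a b, ∀ i j, X φ i j - X a i j ∈ t.K) →
    (∀ φ ∈ Icc a b, ∀ i j, ‖X φ i j‖ ≤ C) →
    (∀ φ ∈ Icc a b, ∀ i j, ‖(X φ * X φ - X φ) i j‖ ≤ ε) →
    (∀ i j, ‖(X a - P0) i j‖ ≤ ε) → (∀ i j, ‖(X b - P1) i j‖ ≤ ε) → t.dM P0 P1 = 0 := by
  set D : ℝ := n * |C| with hD
  have hD0 : 0 ≤ D := by positivity
  set η : ℝ := 1 / (100 * (2 * D + 1)) with hη
  have hη0 : 0 < η := by positivity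
  have hη1 : η * (2 * D + 1) = 1 / 100 := by rw [hη]; field_simp
  refine ⟨η / (n + 1), by positivity, ?_⟩
  intro A _ _ t a b hab P0 P1 h0 h1 h01 X hX hXK hXC hXe n0 n1
  have := mat_complete (A := A) (ι := Fin n)
  have hb : ∀ M : Matrix (Fin n) (Fin n) A, (∀ i j, ‖M i j‖ ≤ η / (n + 1)) → ‖M‖ ≤ η := by
    intro M hM
    refine (mat_norm_le M (by positivity) hM).trans ?_
    rw [Fintype.card_fin, ← mul_div_assoc, div_le_iff₀ (by positivity)]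
    nlinarith
  have hcl : IsClosed ((t.mat (Fin n)).K : Set (Matrix (Fin n) (Fin n) A)) := by
    have e : ((t.mat (Fin n)).K : Set (Matrix (Fin n) (Fin n) A)) =
        ⋂ i, ⋂ j, (fun M : Matrix (Fin n) (Fin n) A => M i j) ⁻¹' t.K := by
      ext M
      simp [t.mem_mat_K]
    rw [e]
    exact isClosed_iInter fun i => isClosed_iInter fun j =>
      t.isClosed_K.preimage (continuous_apply_apply i j)
  refine TI.d_hom (t.mat (Fin n)) hcl (C := D) (ε := η) hab (by nlinarith) (by nlinarith) h0 h1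
    (t.mem_mat_K.2 h01) X (continuousOn_pi.2 fun i => continuousOn_pi.2 fun j => hX i j)
    (fun φ h => t.mem_mat_K.2 (hXK φ h)) (fun φ h => ?_) (fun φ h => hb _ (hXe φ h)) (hb _ n0)
    (hb _ n1)
  have := mat_norm_le (X φ) (abs_nonneg C) fun i j => (hXC φ h i j).trans (le_abs_self C)
  rwa [Fintype.card_fin] at this

end

/-- Homotopy invariance on `[0, π]`. -/
theorem dM_hom (n : ℕ) (C : ℝ) : ∃ ε > 0, ∀ (A : Type) [NormedRing A] [CompleteSpace A]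
    (t : NT A) (P0 P1 : Matrix (Fin n) (Fin n) A), P0 * P0 = P0 →
    P1 * P1 = P1 → (∀ i j, P0 i j - P1 i j ∈ t.K) → ∀ X : ℝ → Matrix (Fin n) (Fin n) A,
    (∀ i j, ContinuousOn (fun φ => X φ i j) (Icc 0 Real.pi)) →
    (∀ φ ∈ Icc 0 Real.pi, ∀ i j, X φ i j - X 0 i j ∈ t.K) →
    (∀ φ ∈ Icc 0 Real.pi, ∀ i j, ‖X φ i j‖ ≤ C) →
    (∀ φ ∈ Icc 0 Real.pi, ∀ i j, ‖(X φ * X φ - X φ) i j‖ ≤ ε) →
    (∀ i j, ‖(X 0 - P0) i j‖ ≤ ε) → (∀ i j, ‖(X Real.pi - P1) i j‖ ≤ ε) → t.dM P0 P1 = 0 := by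
  obtain ⟨ε, hε, h⟩ := dM_hom' n C
  exact ⟨ε, hε, fun A _ _ t => h A t 0 Real.pi Real.pi_pos.le⟩

end Pool.Agent.P.MP_9167e9_an
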