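import Pool.Agent.P.MP_9167e9_an.Det.IndK
import Pool.Agent.P.MP_9167e9_an.Det.IndH
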