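import Pool.Agent.P.MP_9167e9_an.Det.Wc
import Pool.Agent.P.MP_9167e9_an.Det.Avg
import Pool.Agent.P.MP_9167e9_an.Det.IndDef

/-!
Representations of `B^p_r(G)` on `ℓ^p(Z)`: commutation with an equivariant involution, and
commutation up to compact operators with a slowly varying function.
-/

noncomputable section
open scoped ENNReal Classical
open Filter Topology

namespace Pool.Agent.P.MP_9167e9_an.Avg

variable {G Z : Type} [Group G] {p : ℝ≥0∞} [Fact (1 ≤ p)]

theorem isClosed_Bp : IsClosed (Bp G p : Set (Op G p)) := Subring.isClosed_topologicalClosure _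

theorem conv_mem {f : G →₀ ℂ} {T : Op G p} (h : IsConv f T) : T ∈ Bp G p :=
  Subring.le_topologicalClosure _ (Subring.subset_closure ⟨f, h⟩)

theorem Bp_ind (S : Subring (Bp G p)) (hS : IsClosed (S : Set (Bp G p)))
    (h : ∀ (z : Bp G p) f, IsConv f z.1 → z ∈ S) (z : Bp G p) : z ∈ S := by
  have hc : IsClosed (S.map (Bp G p).subtype : Set (Op G p)) :=
    (isClosed_Bp.isClosedEmbedding_subtypeVal).isClosedMap _ hS
  have hle : Bp G p ≤ S.map (Bp G p).subtype :=
    Subring.topologicalClosure_minimal _ (Subring.closure_le.2 fun T ⟨f, hf⟩ =>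
      ⟨⟨T, conv_mem hf⟩, h _ f hf, rfl⟩) hc
  obtain ⟨y, hy, e⟩ := hle z.2
  rwa [← Subtype.ext e]

variable [MulAction G Z]

theorem exists_shift (hp : p ≠ ∞) (g : G) :
    ∃ W : Op Z p, ∀ (ξ : Lq Z p) w, W ξ w = ξ (g⁻¹ • w) := by
  obtain ⟨W, hW, -⟩ := Gau.exists_wc hp (fun _ : Z => 1) (by simp) (fun w => g⁻¹ • w)
    (MulAction.injective _)
  exact ⟨W, fun ξ w => by rw [hW, one_mul]⟩

theorem exists_conv (hp : p ≠ ∞) (f : G →₀ ℂ) : ∃ T : Op G p, IsConv f T := by
  choose W hW using exists_shift (G := G) (Z := G) hp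
  refine ⟨∑ g ∈ f.support, f g • W g, fun ξ x => ?_⟩
  rw [sum_apply, lp.coeFn_sum, Finset.sum_apply, Finsupp.sum]
  refine Finset.sum_congr rfl fun g _ => ?_
  rw [smul_apply, lp.coeFn_smul, Pi.smul_apply, hW, smul_eq_mul, smul_eq_mul]

variable (π : Bp G p →+* Op Z p) (hc : Continuous π)
  (hπ : ∀ (z : Bp G p) (f : G →₀ ℂ), IsConv f z.1 →
    ∀ (ξ : Lq Z p) w, π z ξ w = f.sum fun g c => c * ξ (g⁻¹ • w))
include hc hπ

theorem pi_comm {io : Z → Z} (hio : ∀ (g : G) w, io (g • w) = g • io w) {J : Op Z p}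
    (hJ : ∀ (ξ : Lq Z p) w, J ξ w = ξ (io w)) (z : Bp G p) : J * π z = π z * J := by
  refine Bp_ind ((Subring.centralizer {J}).comap π) ?_ (fun z f hf => ?_) z J rfl
  · exact (Set.isClosed_centralizer _).preimage hc
  · rintro _ rfl
    ext ξ w
    rw [mul_apply_eq_comp, mul_apply_eq_comp, hJ, hπ z f hf, hπ z f hf]
    simp only [hJ, hio]

theorem pi_K (hp : p ≠ ∞) {u : Z → ℂ} (un : ∀ w, u w ≠ 0)
    (hu : ∀ g : G, Tendsto (fun w => u (g • w) * (u w)⁻¹) cofinite (𝓝 1)) {U V : Op Z p}
    (hU : ∀ (ξ : Lq Z p) w, U ξ w = u w * ξ w) (hV : ∀ (ξ : Lq Z p) w, V ξ w = (u w)⁻¹ * ξ w)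
    (z : Bp G p) : π z - U * π z * V ∈ (opNT Z p hp).K := by
  have VU : V * U = 1 := by
    ext ξ w
    rw [mul_apply_eq_comp, hV, hU, ← mul_assoc, inv_mul_cancel₀ (un w), one_mul]
    rfl
  have UV : U * V = 1 := by
    ext ξ w
    rw [mul_apply_eq_comp, hU, hV, ← mul_assoc, mul_inv_cancel₀ (un w), one_mul]
    rfl
  have K0 : (0 : Op Z p) ∈ (opNT Z p hp).K := NT.F_le_K (zero_mem _)
  let S : Subring (Bp G p) :=
    { carrier := {z | π z - U * π z * V ∈ (opNT Z p hp).K}
      mul_mem' := fun {a b} ha hb => by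
        have e : π (a * b) - U * π (a * b) * V =
            (π a - U * π a * V) * π b + U * π a * V * (π b - U * π b * V) := by
          rw [map_mul]
          calc _ = π a * π b - U * π a * (V * U) * π b * V := by rw [VU]; noncomm_ring
            _ = _ := by noncomm_ring
        rw [Set.mem_ofPred_eq, e]
        exact NT.K_add (NT.K_mul_right _ ha) (NT.K_mul_left _ hb)
      one_mem' := by simpa [UV] using K0
      add_mem' := fun {a b} ha hb => by
        have e : π (a + b) - U * π (a + b) * V =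
            (π a - U * π a * V) + (π b - U * π b * V) := by
          rw [map_add]; noncomm_ring
        rw [Set.mem_ofPred_eq, e]
        exact NT.K_add ha hb
      zero_mem' := by simpa using K0
      neg_mem' := fun {a} ha => by
        have e : π (-a) - U * π (-a) * V = (-1) * (π a - U * π a * V) := by
          rw [map_neg]; noncomm_ring
        rw [Set.mem_ofPred_eq, e]
        exact NT.K_mul_left _ ha }
  refine Bp_ind S ((opNT Z p hp).isClosed_K.preimage (f := fun z => π z - U * π z * V)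
    (by fun_prop)) (fun z f hf => ?_) z
  choose W hW using exists_shift (G := G) (Z := Z) hp
  have e : π z - U * π z * V = ∑ g ∈ f.support, f g • (W g - U * W g * V) := by
    have e1 : π z = ∑ g ∈ f.support, f g • W g := by
      ext ξ w
      rw [hπ z f hf, sum_apply, lp.coeFn_sum, Finset.sum_apply, Finsupp.sum]
      refine Finset.sum_congr rfl fun g _ => ?_
      rw [smul_apply, lp.coeFn_smul, Pi.smul_apply, hW, smul_eq_mul]
    rw [e1, Finset.mul_sum, Finset.sum_mul, ← Finset.sum_sub_distrib]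
    refine Finset.sum_congr rfl fun g _ => ?_
    rw [smul_sub, mul_smul_comm, smul_mul_assoc]
  change π z - U * π z * V ∈ (opNT Z p hp).K
  rw [e]
  refine NT.K_sum _ _ _ fun g _ => opNT_K_smul _ ?_
  have e2 : W g - U * W g * V = (1 - U * W g * V * W g⁻¹) * W g := by
    ext ξ w
    simp [hW, hU, hV]
  rw [e2]
  refine NT.K_mul_right _ (mem_K_of_mul (c := fun w => 1 - u w * (u (g⁻¹ • w))⁻¹) ?_ ?_)
  · intro ξ w
    simp [hW, hU, hV, sub_mul, mul_assoc]
  · have := ((hu g).comp (MulAction.injective g⁻¹).tendsto_cofinite).const_sub 1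
    simpa [Function.comp_def] using this

end Pool.Agent.P.MP_9167e9_an.Avg
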