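import Pool.Agent.P.MP_9167e9_an.Det.Gauge

/-!
Finite subsets of `G ⧸ A` saturated for the blocks and the involution; invariance of the blocks.
-/

noncomputable section
open scoped ENNReal Classical

namespace Pool.Agent.P.MP_9167e9_an.Avg

variable {Gen G : Type} [Group G] {p : ℝ≥0∞} [Fact (1 ≤ p)] {ρ : FreeGroup Gen →* G}
  {x : MonoidAlgebra ℂ (FreeGroup Gen)} {R : ℕ}
  {Y : Finset (MonoidAlgebra ℂ (FreeGroup Gen))} {Cn : ℝ} (S : Stage p ρ x R Y Cn)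

theorem io_io' (w : G ⧸ S.A) : S.io (S.io w) = w := by
  obtain ⟨g, rfl⟩ := QuotientGroup.mk_surjective w
  rw [S.io_mk, S.io_mk, QuotientGroup.eq]
  have := S.A.inv_mem S.sq
  simpa [mul_assoc] using this

theorem blk_symm {g g' : G} (h : g' ∈ S.blk g) : g ∈ S.blk g' := by
  rw [S.blk_eq _ _ h]
  exact S.blk_self _ _ h

theorem blk_A_iff {a : G} (ha : a ∈ S.A) (g g' : G) :
    g' * a ∈ S.blk (g * a) ↔ g' ∈ S.blk g := by
  refine ⟨fun h => ?_, S.blk_A a ha g g'⟩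
  simpa using S.blk_A a⁻¹ (S.A.inv_mem ha) _ _ h

theorem blk_ι_iff (g g' : G) : g' * S.ι ∈ S.blk (g * S.ι) ↔ g' ∈ S.blk g := by
  refine ⟨fun h => ?_, S.blk_ι g g'⟩
  have := S.blk_ι _ _ h
  rw [mul_assoc, mul_assoc] at this
  exact (blk_A_iff S S.sq g g').1 this

theorem blk_map {a : G} (h : ∀ g g', g' * a ∈ S.blk (g * a) ↔ g' ∈ S.blk g) (g : G) :
    S.blk (g * a) = (S.blk g).map (Equiv.mulRight a).toEmbedding := by
  ext g'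
  rw [Finset.mem_map_equiv, ← h g]
  simp

/-- The class of a point. -/
def cl (w : G ⧸ S.A) : Set (G ⧸ S.A) :=
  {w} ∪ {w' | ∃ g g' : G, (g : G ⧸ S.A) = w ∧ g' ∈ S.blk g ∧ (g' : G ⧸ S.A) = w'}

theorem cl_finite (w : G ⧸ S.A) : (cl S w).Finite := by
  obtain ⟨g0, rfl⟩ := QuotientGroup.mk_surjective w
  refine (Set.finite_singleton _).union (Set.Finite.subset
    ((S.blk g0).finite_toSet.image (fun g : G => (g : G ⧸ S.A))) ?_)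
  rintro w' ⟨g, g', h1, h2, rfl⟩
  have ha : g⁻¹ * g0 ∈ S.A := QuotientGroup.eq.1 h1
  refine ⟨g' * (g⁻¹ * g0), ?_, ?_⟩
  · have := S.blk_A _ ha _ _ h2
    simpa using this
  · exact QuotientGroup.mk_mul_of_mem _ ha

theorem cl_blk {w : G ⧸ S.A} {g g' : G} (h : g' ∈ S.blk g) (hw : (g : G ⧸ S.A) ∈ cl S w) :
    (g' : G ⧸ S.A) ∈ cl S w := by
  rcases hw with hw | ⟨g1, g2, h1, h2, h3⟩
  · exact Or.inr ⟨g, g', hw, h, rfl⟩
  · have ha : g2⁻¹ * g ∈ S.A := QuotientGroup.eq.1 h3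
    have h4 := S.blk_A _ ha _ _ h2
    rw [mul_inv_cancel_left] at h4
    refine Or.inr ⟨g1 * (g2⁻¹ * g), g', ?_, ?_, rfl⟩
    · rw [QuotientGroup.mk_mul_of_mem _ ha, h1]
    · rw [← S.blk_eq _ _ h4]
      exact h

theorem cl_io {w w' : G ⧸ S.A} (h : w' ∈ cl S w) : S.io w' ∈ cl S (S.io w) := by
  rcases h with h | ⟨g1, g2, h1, h2, h3⟩
  · exact Or.inl (by rw [Set.mem_singleton_iff.1 h]; rfl)
  · exact Or.inr ⟨g1 * S.ι, g2 * S.ι, by rw [← h1, S.io_mk], S.blk_ι _ _ h2,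
      by rw [← h3, S.io_mk]⟩

theorem exists_sat (Z0 : Finset (G ⧸ S.A)) : ∃ Z1 : Finset (G ⧸ S.A), Z0 ⊆ Z1 ∧
    (∀ w, S.io w ∈ Z1 ↔ w ∈ Z1) ∧
    ∀ g g' : G, g' ∈ S.blk g → ((g : G ⧸ S.A) ∈ Z1 ↔ (g' : G ⧸ S.A) ∈ Z1) := by
  have hf : (⋃ w ∈ Z0, (cl S w ∪ cl S (S.io w))).Finite :=
    Z0.finite_toSet.biUnion fun w _ => (cl_finite S w).union (cl_finite S _)
  have hm : ∀ w', w' ∈ hf.toFinset ↔ ∃ w ∈ Z0, w' ∈ cl S w ∨ w' ∈ cl S (S.io w) := fun w' => by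
    simp
  have hio : ∀ w, w ∈ hf.toFinset → S.io w ∈ hf.toFinset := fun w' h => by
    obtain ⟨w, hw, h | h⟩ := (hm _).1 h
    · exact (hm _).2 ⟨w, hw, Or.inr (cl_io S h)⟩
    · have := cl_io S h
      rw [io_io'] at this
      exact (hm _).2 ⟨w, hw, Or.inl this⟩
  have hb : ∀ g g' : G, g' ∈ S.blk g → (g : G ⧸ S.A) ∈ hf.toFinset →
      (g' : G ⧸ S.A) ∈ hf.toFinset := fun g g' h h' => by
    obtain ⟨w, hw, h' | h'⟩ := (hm _).1 h'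
    · exact (hm _).2 ⟨w, hw, Or.inl (cl_blk S h h')⟩
    · exact (hm _).2 ⟨w, hw, Or.inr (cl_blk S h h')⟩
  refine ⟨hf.toFinset, fun w hw => (hm _).2 ⟨w, hw, Or.inl (Or.inl rfl)⟩, fun w => ⟨fun h => ?_,
    hio w⟩, fun g g' h => ⟨hb g g' h, hb g' g (blk_symm S h)⟩⟩
  have := hio _ h
  rwa [io_io'] at this

end Pool.Agent.P.MP_9167e9_an.Avg
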