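import Pool.Agent.P.MP_9167e9_an.Det.Lam2A

/-!
The contractive homomorphism `B^{p,*}_r(G) → B^2_r(G)`.
-/

noncomputable section
open scoped ENNReal Classical InnerProductSpace
open Filter Topology

namespace Pool.Agent.P.MP_9167e9_an

variable {G : Type} [Group G] {p : ℝ≥0∞} [Fact (1 ≤ p)]

namespace L2

theorem ag_conv {f : G →₀ ℂ} {T : Op G p} {S : Op G 2} (h : IsConv f T) (h' : IsConv f S) :
    Ag T S := fun ξ η e x => by
  rw [h, h']
  simp only [e]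

theorem exists_shift (g : G) : ∃ S : Op G 2, ∀ (η : Lq G 2) (x : G), S η x = η (g⁻¹ * x) := by
  have h2 : (0 : ℝ) < (2 : ℝ≥0∞).toReal := by norm_num
  have hs : ∀ η : Lq G 2, HasSum (fun x => ‖η (g⁻¹ * x)‖ ^ (2 : ℝ≥0∞).toReal)
      (‖η‖ ^ (2 : ℝ≥0∞).toReal) := fun η =>
    (Equiv.mulLeft g⁻¹).hasSum_iff.2 (lp.hasSum_norm h2 η)
  let L : Lq G 2 →ₗ[ℂ] Lq G 2 :=
    { toFun := fun η => ⟨fun x => η (g⁻¹ * x), memℓp_gen (hs η).summable⟩
      map_add' := fun _ _ => rfl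
      map_smul' := fun _ _ => rfl }
  refine ⟨L.mkContinuous 1 fun η => ?_, fun _ _ => rfl⟩
  rw [one_mul]
  exact lp.norm_le_of_tsum_le h2 (norm_nonneg _) (hs η).tsum_eq.le

theorem exists_conv (f : G →₀ ℂ) : ∃ S : Op G 2, IsConv f S := by
  choose L hL using exists_shift (G := G)
  refine ⟨∑ g ∈ f.support, f g • L g, fun η x => ?_⟩
  rw [sum_apply, lp.coeFn_sum, Finset.sum_apply]
  exact Finset.sum_congr rfl fun g _ => by
    rw [smul_apply, lp.coeFn_smul, Pi.smul_apply, hL, smul_eq_mul]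

theorem conv_star {f : G →₀ ℂ} {S : Op G 2} (h : IsConv f S) : IsConv (invol f) (star S) := by
  intro η x
  have e1 : S (lp.single 2 x 1) = ∑ g ∈ f.support, lp.single 2 (g * x) (f g) := by
    ext y
    rw [h, lp.coeFn_sum, Finset.sum_apply]
    refine Finset.sum_congr rfl fun g _ => ?_
    by_cases hy : y = g * x
    · subst hy; simp
    · have : g⁻¹ * y ≠ x := fun h' => hy (by rw [← h']; simp)
      simp [lp.single_apply, hy, this]
  have e2 : (star S) η x = ⟪lp.single 2 x (1 : ℂ), (star S) η⟫_ℂ := by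
    rw [lp.inner_single_left]; simp
  rw [e2, ContinuousLinearMap.star_eq_adjoint, ContinuousLinearMap.adjoint_inner_right, e1,
    sum_inner, invol, Finsupp.sum_equivMapDomain, Finsupp.sum_mapRange_index (by simp)]
  refine Finset.sum_congr rfl fun g _ => ?_
  rw [lp.inner_single_left]
  simp [mul_comm]

/-- `S` is the operator on `ℓ²` attached to the pair `z`. -/
def Rel (z : Op G p × (Op G p)ᵐᵒᵖ) (S : Op G 2) : Prop :=
  S ∈ Bp G 2 ∧ Ag z.1 S ∧ Ag z.2.unop (star S)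

theorem Rel.norm_le {z : Op G p × (Op G p)ᵐᵒᵖ} {S : Op G 2} (h : Rel z S) : ‖S‖ ≤ ‖z‖ :=
  h.2.1.norm_le h.2.2

theorem rel_one : Rel (1 : Op G p × (Op G p)ᵐᵒᵖ) 1 :=
  ⟨one_mem _, ag_one, by rw [star_one]; exact ag_one⟩

theorem rel_zero : Rel (0 : Op G p × (Op G p)ᵐᵒᵖ) 0 :=
  ⟨zero_mem _, ag_zero, by rw [star_zero]; exact ag_zero⟩

theorem Rel.mul {z w : Op G p × (Op G p)ᵐᵒᵖ} {S S' : Op G 2} (h : Rel z S) (h' : Rel w S') :
    Rel (z * w) (S * S') :=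
  ⟨mul_mem h.1 h'.1, h.2.1.mul h'.2.1, by rw [star_mul]; exact h'.2.2.mul h.2.2⟩

theorem Rel.add {z w : Op G p × (Op G p)ᵐᵒᵖ} {S S' : Op G 2} (h : Rel z S) (h' : Rel w S') :
    Rel (z + w) (S + S') :=
  ⟨add_mem h.1 h'.1, h.2.1.add h'.2.1, by rw [star_add]; exact h.2.2.add h'.2.2⟩

theorem Rel.neg {z : Op G p × (Op G p)ᵐᵒᵖ} {S : Op G 2} (h : Rel z S) : Rel (-z) (-S) :=
  ⟨neg_mem h.1, h.2.1.neg, by rw [star_neg]; exact h.2.2.neg⟩

theorem Rel.sub {z w : Op G p × (Op G p)ᵐᵒᵖ} {S S' : Op G 2} (h : Rel z S) (h' : Rel w S') :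
    Rel (z - w) (S - S') := by
  rw [sub_eq_add_neg, sub_eq_add_neg]; exact h.add h'.neg

variable (G p) in
/-- The pairs that have an operator on `ℓ²` attached. -/
def R1 : Subring (Op G p × (Op G p)ᵐᵒᵖ) where
  carrier := {z | ∃ S, Rel z S}
  one_mem' := ⟨_, rel_one⟩
  zero_mem' := ⟨_, rel_zero⟩
  mul_mem' := fun ⟨_, h⟩ ⟨_, h'⟩ => ⟨_, h.mul h'⟩
  add_mem' := fun ⟨_, h⟩ ⟨_, h'⟩ => ⟨_, h.add h'⟩
  neg_mem' := fun ⟨_, h⟩ => ⟨_, h.neg⟩

theorem isClosed_R1 : IsClosed (R1 G p : Set (Op G p × (Op G p)ᵐᵒᵖ)) := by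
  refine IsSeqClosed.isClosed fun z z0 hz hlim => ?_
  choose S hS using hz
  have hc : CauchySeq S := by
    refine Metric.cauchySeq_iff.2 fun ε hε => ?_
    obtain ⟨N, hN⟩ := Metric.cauchySeq_iff.1 hlim.cauchySeq ε hε
    refine ⟨N, fun m hm n hn => lt_of_le_of_lt ?_ (hN m hm n hn)⟩
    rw [dist_eq_norm, dist_eq_norm]
    exact ((hS m).sub (hS n)).norm_le
  obtain ⟨S0, h0⟩ := cauchySeq_tendsto_of_complete hc
  refine ⟨S0, (Subring.isClosed_topologicalClosure _).mem_of_tendsto h0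
    (Eventually.of_forall fun n => (hS n).1),
    ag_lim (fun n => (hS n).2.1) ((continuous_fst.tendsto z0).comp hlim) h0,
    ag_lim (fun n => (hS n).2.2)
      (((MulOpposite.continuous_unop.comp continuous_snd).tendsto z0).comp hlim)
      ((continuous_star.tendsto S0).comp h0)⟩

theorem exists_rel (z : BpStar G p) : ∃ S, Rel z.1 S := by
  have h : BpStar G p ≤ R1 G p := by
    refine Subring.topologicalClosure_minimal _ (Subring.closure_le.2 ?_) isClosed_R1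
    rintro w ⟨f, h1, h2⟩
    obtain ⟨S, hS⟩ := exists_conv f
    exact ⟨S, Subring.le_topologicalClosure _ (Subring.subset_closure ⟨f, hS⟩), ag_conv h1 hS,
      ag_conv h2 (conv_star hS)⟩
  exact h z.2

/-- The operator on `ℓ²` attached to an element of the involutive algebra. -/
def op2 (z : BpStar G p) : Bp G 2 := ⟨(exists_rel z).choose, (exists_rel z).choose_spec.1⟩

theorem rel_op2 (z : BpStar G p) : Rel z.1 (op2 z : Op G 2) := (exists_rel z).choose_spec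

end L2

open L2

/-- `‖λ₂(f)‖ ≤ max (‖λ_p(f)‖, ‖λ_p(f^*)‖)`. -/
theorem norm_two_le {f : G →₀ ℂ} {T T' : Op G p} {T2 : Op G 2} (h : IsConv f T)
    (h' : IsConv (invol f) T') (h2 : IsConv f T2) : ‖T2‖ ≤ max ‖T‖ ‖T'‖ :=
  (ag_conv h h2).norm_le (ag_conv h' (conv_star h2))

/-- The homomorphism to the reduced algebra on `ℓ²`. -/
def lam2 (h2 : 2 ≤ p) : BpStar G p →+* Bp G 2 where
  toFun := op2
  map_one' := Subtype.ext ((rel_op2 1).2.1.unique h2 ag_one)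
  map_zero' := Subtype.ext ((rel_op2 0).2.1.unique h2 ag_zero)
  map_mul' z w := Subtype.ext
    ((rel_op2 (z * w)).2.1.unique h2 ((rel_op2 z).2.1.mul (rel_op2 w).2.1))
  map_add' z w := Subtype.ext
    ((rel_op2 (z + w)).2.1.unique h2 ((rel_op2 z).2.1.add (rel_op2 w).2.1))

theorem lam2_ag (h2 : 2 ≤ p) (z : BpStar G p) : Ag z.1.1 (lam2 h2 z : Op G 2) := (rel_op2 z).2.1

theorem lam2_ag_star (h2 : 2 ≤ p) (z : BpStar G p) :
    Ag z.1.2.unop (star (lam2 h2 z : Op G 2)) := (rel_op2 z).2.2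

theorem norm_lam2_le (h2 : 2 ≤ p) (z : BpStar G p) : ‖lam2 h2 z‖ ≤ ‖z‖ := (rel_op2 z).norm_le

theorem lam2_single (h2 : 2 ≤ p) (z : BpStar G p) (i j : G) :
    (lam2 h2 z : Op G 2) (lp.single 2 j 1) i = z.1.1 (lp.single p j 1) i :=
  (lam2_ag h2 z).single i j

theorem lam2_eq (h2 : 2 ≤ p) {z : BpStar G p} {f : G →₀ ℂ} (h : IsConv f z.1.1) {S : Op G 2}
    (hS : IsConv f S) : (lam2 h2 z : Op G 2) = S :=
  (lam2_ag h2 z).unique h2 (ag_conv h hS)

theorem lam2_conv (h2 : 2 ≤ p) {z : BpStar G p} {f : G →₀ ℂ} (h : IsConv f z.1.1) :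
    IsConv f (lam2 h2 z : Op G 2) := by
  obtain ⟨S, hS⟩ := exists_conv f
  rwa [lam2_eq h2 h hS]

theorem continuous_lam2 (h2 : 2 ≤ p) : Continuous (lam2 (G := G) h2) :=
  (AddMonoidHomClass.lipschitz_of_bound (lam2 (G := G) h2) 1 fun z => by
    rw [one_mul]; exact norm_lam2_le h2 z).continuous

end Pool.Agent.P.MP_9167e9_an
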