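import Pool.Agent.P.MP_9167e9_an.Det.IndDef
import Pool.Agent.P.MP_9167e9_an.Det.Conc

/-!
The algebra of pairs of operators on `ℓ^p(Z)` and `ℓ^q(Z)` with the same kernel. The index of a pair
of idempotent matrices is the same in both factors.
-/

noncomputable section
open scoped ENNReal Classical Topology
open Filter

namespace Pool.Agent.P.MP_9167e9_an

variable (Z : Type) (p q : ℝ≥0∞) [Fact (1 ≤ p)] [Fact (1 ≤ q)]

/-- Pairs of operators that agree on all common vectors. -/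
def PairAlg : Subring (Op Z p × Op Z q) where
  carrier := {z | ∀ (u : Lq Z p) (v : Lq Z q), (∀ i, u i = v i) → ∀ i, z.1 u i = z.2 v i}
  mul_mem' ha hb u v h := ha _ _ (hb u v h)
  one_mem' _ _ h := h
  add_mem' {a b} ha hb u v h i := by
    change a.1 u i + b.1 u i = a.2 v i + b.2 v i
    rw [ha u v h i, hb u v h i]
  zero_mem' _ _ _ _ := rfl
  neg_mem' {a} ha u v h i := by
    change -(a.1 u i) = -(a.2 v i)
    rw [ha u v h i]

variable {Z p q}

theorem PairAlg.ker_eq {z : Op Z p × Op Z q} (hz : z ∈ PairAlg Z p q) (i j : Z) :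
    z.1 (lp.single p j 1) i = z.2 (lp.single q j 1) i :=
  hz _ _ (fun _ => rfl) i

theorem mem_PairAlg (hp : p ≠ ∞) (hq : q ≠ ∞) {z : Op Z p × Op Z q} :
    z ∈ PairAlg Z p q ↔ ∀ i j, z.1 (lp.single p j 1) i = z.2 (lp.single q j 1) i := by
  refine ⟨PairAlg.ker_eq, fun h u v huv i => (Conc.hasSum_ker hp z.1 u i).unique ?_⟩
  simp only [h, huv]
  exact Conc.hasSum_ker hq z.2 v i

theorem continuous_op_apply (u : Lq Z p) (i : Z) : Continuous fun T : Op Z p => T u i :=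
  (lp.evalCLM ℂ (fun _ : Z => ℂ) p i).continuous.comp
    (ContinuousLinearMap.apply ℂ (Lq Z p) u).continuous

theorem isClosed_PairAlg : IsClosed (PairAlg Z p q : Set (Op Z p × Op Z q)) := by
  have : (PairAlg Z p q : Set (Op Z p × Op Z q)) = ⋂ (u : Lq Z p) (v : Lq Z q)
      (_ : ∀ i, u i = v i) (i : Z), {z | z.1 u i = z.2 v i} := by
    ext z
    simp only [Set.mem_iInter]
    rfl
  rw [this]
  exact isClosed_iInter fun u => isClosed_iInter fun v => isClosed_iInter fun _ =>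
    isClosed_iInter fun i => isClosed_eq ((continuous_op_apply u i).comp continuous_fst)
      ((continuous_op_apply v i).comp continuous_snd)

instance : CompleteSpace (PairAlg Z p q) := isClosed_PairAlg.completeSpace_coe

theorem PairAlg.smul_mem (c : ℂ) {z : Op Z p × Op Z q} (hz : z ∈ PairAlg Z p q) :
    c • z ∈ PairAlg Z p q := fun u v h i => by
  change c • z.1 u i = c • z.2 v i
  rw [hz u v h i]

theorem cutOp_mem_PairAlg (s : Finset Z) : (cutOp p s, cutOp q s) ∈ PairAlg Z p q := fun u v h i => by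
  rw [cutOp_apply, cutOp_apply, h]

variable (Z p q)

/-- The first projection. -/
def pairFst : PairAlg Z p q →ₙ+* Op Z p where
  toFun z := z.1.1
  map_mul' _ _ := rfl
  map_zero' := rfl
  map_add' _ _ := rfl

/-- The second projection. -/
def pairSnd : PairAlg Z p q →ₙ+* Op Z q where
  toFun z := z.1.2
  map_mul' _ _ := rfl
  map_zero' := rfl
  map_add' _ _ := rfl

variable {p q}

/-- Pairs of finite rank operators. -/
def pairF (hp : p ≠ ∞) (hq : q ≠ ∞) : TwoSidedIdeal (PairAlg Z p q) :=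
  TwoSidedIdeal.mk' {z | z.1.1 ∈ (opNT Z p hp).F ∧ z.1.2 ∈ (opNT Z q hq).F}
    ⟨zero_mem _, zero_mem _⟩ (fun a b => ⟨add_mem a.1 b.1, add_mem a.2 b.2⟩)
    (fun a => ⟨neg_mem a.1, neg_mem a.2⟩)
    (fun a => ⟨TwoSidedIdeal.mul_mem_left _ _ _ a.1, TwoSidedIdeal.mul_mem_left _ _ _ a.2⟩)
    (fun a => ⟨TwoSidedIdeal.mul_mem_right _ _ _ a.1, TwoSidedIdeal.mul_mem_right _ _ _ a.2⟩)

variable {Z} in
theorem mem_pairF {hp : p ≠ ∞} {hq : q ≠ ∞} {z : PairAlg Z p q} :
    z ∈ pairF Z hp hq ↔ z.1.1 ∈ (opNT Z p hp).F ∧ z.1.2 ∈ (opNT Z q hq).F := by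
  rw [pairF, TwoSidedIdeal.mem_mk']
  rfl

/-- The trace ideal of the pair algebra. -/
def pairNT (hp : p ≠ ∞) (hq : q ≠ ∞) : NT (PairAlg Z p q) where
  F := pairF Z hp hq
  τ z := (opNT Z q hq).τ z.1.2
  τ_add _ ha _ hb := (opNT Z q hq).τ_add _ (mem_pairF.1 ha).2 _ (mem_pairF.1 hb).2
  τ_comm _ ha b := (opNT Z q hq).τ_comm _ (mem_pairF.1 ha).2 b.1.2

variable {Z} {hp : p ≠ ∞} {hq : q ≠ ∞}

theorem mem_pairNT_F {z : PairAlg Z p q} :
    z ∈ (pairNT Z hp hq).F ↔ z.1.1 ∈ (opNT Z p hp).F ∧ z.1.2 ∈ (opNT Z q hq).F := mem_pairF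

theorem pairFst_F : ∀ a ∈ (pairNT Z hp hq).F, pairFst Z p q a ∈ (opNT Z p hp).F :=
  fun _ h => (mem_pairF.1 h).1

theorem pairSnd_F : ∀ a ∈ (pairNT Z hp hq).F, pairSnd Z p q a ∈ (opNT Z q hq).F :=
  fun _ h => (mem_pairF.1 h).2

theorem pairFst_τ (a : PairAlg Z p q) :
    (opNT Z p hp).τ (pairFst Z p q a) = (pairNT Z hp hq).τ a :=
  tsum_congr fun i => PairAlg.ker_eq a.2 i i

theorem pairSnd_τ (a : PairAlg Z p q) :
    (opNT Z q hq).τ (pairSnd Z p q a) = (pairNT Z hp hq).τ a := rfl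

/-- A pair lies in `K` as soon as both components do. -/
theorem mem_pairNT_K {z : PairAlg Z p q} (h1 : z.1.1 ∈ (opNT Z p hp).K)
    (h2 : z.1.2 ∈ (opNT Z q hq).K) : z ∈ (pairNT Z hp hq).K := by
  refine mem_closure_of_tendsto (b := atTop)
    (f := fun s : Finset Z => (⟨_, cutOp_mem_PairAlg s⟩ : PairAlg Z p q) * z) ?_
    (Eventually.of_forall fun s => mem_pairF.2
      ⟨TwoSidedIdeal.mul_mem_right _ _ _ (cutOp_mem_F s),
        TwoSidedIdeal.mul_mem_right _ _ _ (cutOp_mem_F s)⟩)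
  exact tendsto_subtype_rng.2 ((tendsto_cutOp h1).prodMk_nhds (tendsto_cutOp h2))

/-- Transfer: the index of two idempotent matrices on `ℓ^p` equals the index of the idempotent
matrices on `ℓ^q` with the same kernels. -/
theorem dM_transfer {n : ℕ} (P Q : Matrix (Fin n) (Fin n) (Op Z p))
    (P' Q' : Matrix (Fin n) (Fin n) (Op Z q)) (hP : P * P = P) (hQ : Q * Q = Q)
    (hP' : P' * P' = P') (hQ' : Q' * Q' = Q')
    (kP : ∀ a b, (P a b, P' a b) ∈ PairAlg Z p q) (kQ : ∀ a b, (Q a b, Q' a b) ∈ PairAlg Z p q)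
    (hK : ∀ a b, P a b - Q a b ∈ (opNT Z p hp).K)
    (hK' : ∀ a b, P' a b - Q' a b ∈ (opNT Z q hq).K) :
    (opNT Z p hp).dM P Q = (opNT Z q hq).dM P' Q' := by
  have idem : ∀ (X : Matrix (Fin n) (Fin n) (PairAlg Z p q)),
      X.map (pairFst Z p q) * X.map (pairFst Z p q) = X.map (pairFst Z p q) →
      X.map (pairSnd Z p q) * X.map (pairSnd Z p q) = X.map (pairSnd Z p q) → X * X = X := by
    intro X h1 h2
    rw [← map_mul_nu] at h1 h2
    ext a b : 1
    exact Subtype.ext (Prod.ext (congrFun (congrFun h1 a) b) (congrFun (congrFun h2 a) b))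
  let X : Matrix (Fin n) (Fin n) (PairAlg Z p q) := Matrix.of fun a b => ⟨_, kP a b⟩
  let Y : Matrix (Fin n) (Fin n) (PairAlg Z p q) := Matrix.of fun a b => ⟨_, kQ a b⟩
  have hX : X * X = X := idem X hP hP'
  have hY : Y * Y = Y := idem Y hQ hQ'
  have hXY : ∀ a b, X a b - Y a b ∈ (pairNT Z hp hq).K := fun a b =>
    mem_pairNT_K (hK a b) (hK' a b)
  exact ((pairNT Z hp hq).dM_map (opNT Z p hp) (pairFst Z p q) pairFst_F
    (fun a _ => pairFst_τ a) hX hY hXY).trans ((pairNT Z hp hq).dM_map (opNT Z q hq)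
      (pairSnd Z p q) pairSnd_F (fun a _ => pairSnd_τ a) hX hY hXY).symm

end Pool.Agent.P.MP_9167e9_an
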