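import Pool.Agent.P.MP_9167e9_an.Det.Desc
import Pool.Agent.P.MP_9167e9_an.Det.Lam2
import Pool.Agent.P.MP_9167e9_an.Det.Pair

/-!
The representations of the involutive algebra on `ℓ^p(G ⧸ A)` and `ℓ²(G ⧸ A)` have equal kernels.
-/

noncomputable section
open scoped ENNReal Classical

namespace Pool.Agent.P.MP_9167e9_an

variable {G : Type} [Group G] {p q : ℝ≥0∞} [Fact (1 ≤ p)] [Fact (1 ≤ q)]
  (A : Subgroup G) [Finite A]

theorem piL_pair (hp : p ≠ ∞) (hq : q ≠ ∞) {T : Op G p} {S : Op G q}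
    (h : (T, S) ∈ PairAlg G p q) : (piL A hp T, piL A hq S) ∈ PairAlg (G ⧸ A) p q :=
  fun u v e w => by
    change piL A hp T u w = piL A hq S v w
    rw [piL_apply, piL_apply]
    congr 1
    exact Finset.sum_congr rfl fun a _ => h (Desc.J A hp u) (Desc.J A hq v) (fun g => e _) _

theorem lam2_pair (h2 : 2 ≤ p) (z : BpStar G p) :
    ((iota G p z : Op G p), (lam2 h2 z : Op G 2)) ∈ PairAlg G p 2 := lam2_ag h2 z

theorem piQ_pair (h2 : 2 ≤ p) (hp : p ≠ ∞) (z : BpStar G p) :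
    (piQ A hp (iota G p z), piQ A ENNReal.ofNat_ne_top (lam2 h2 z)) ∈ PairAlg (G ⧸ A) p 2 :=
  piL_pair A hp _ (lam2_pair h2 z)

/-- The pair of representations as a homomorphism to the pair algebra. -/
def pairHom (h2 : 2 ≤ p) (hp : p ≠ ∞) : BpStar G p →+* PairAlg (G ⧸ A) p 2 :=
  (((piQ A hp).comp (iota G p)).prod ((piQ A ENNReal.ofNat_ne_top).comp (lam2 h2))).codRestrict
    (PairAlg (G ⧸ A) p 2) (piQ_pair A h2 hp)

theorem pairHom_fst (h2 : 2 ≤ p) (hp : p ≠ ∞) (z : BpStar G p) :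
    (pairHom A h2 hp z).1.1 = piQ A hp (iota G p z) := rfl

theorem pairHom_snd (h2 : 2 ≤ p) (hp : p ≠ ∞) (z : BpStar G p) :
    (pairHom A h2 hp z).1.2 = piQ A ENNReal.ofNat_ne_top (lam2 h2 z) := rfl

end Pool.Agent.P.MP_9167e9_an
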