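import Pool.Agent.P.MP_9167e9_an.Det.Epart
import Pool.Agent.P.MP_9167e9_an.Det.Hom
import Pool.Agent.P.MP_9167e9_an.Det.Sat
import Pool.Agent.P.MP_9167e9_an.Det.Transfer

/-!
The index at one stage: it does not vanish on the idempotent close to the block averages, and it
can be computed on `ℓ²` for idempotents over the involutive algebra.
-/

noncomputable section
open scoped ENNReal Classical
open Filter Topology

namespace Pool.Agent.P.MP_9167e9_an.Avg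

variable {Gen G : Type} [Group G] {p : ℝ≥0∞} [Fact (1 ≤ p)] {ρ : FreeGroup Gen →* G}
  {x : MonoidAlgebra ℂ (FreeGroup Gen)} {R : ℕ}
  {Y : Finset (MonoidAlgebra ℂ (FreeGroup Gen))} {Cn : ℝ} (S : Stage p ρ x R Y Cn)

include S in
theorem exists_e (hp : p ≠ ∞) {T : Op G p} (hT : IsConv (x.coeff.mapDomain ρ) T) :
    ∃ e : Bp G p, e * e = e ∧ ‖e.1 - T‖ ≤ 1 / 100 := by
  obtain ⟨E, hE, nE, EE⟩ := exists_avg S.blk_eq S.blk_self hp
  have h1 := S.close T E hT hE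
  have nT : ‖T‖ ≤ 2 := by
    have := norm_sub_norm_le T E
    linarith
  have h2 : ‖T * T - T‖ ≤ 1 / 10 ^ 4 := by
    have e : T * T - T = T * (T - E) + (T - E) * E - (T - E) := by
      calc _ = T * T - E * E - (T - E) := by rw [EE]; abel
        _ = _ := by noncomm_ring
    have a1 := (norm_mul_le T (T - E)).trans (mul_le_mul nT h1 (norm_nonneg _) zero_le_two)
    have a2 := (norm_mul_le (T - E) E).trans (mul_le_of_le_one_right (norm_nonneg _) nE)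
    rw [e]
    linarith [norm_sub_le (T * (T - E) + (T - E) * E) (T - E),
      norm_add_le (T * (T - E)) ((T - E) * E)]
  obtain ⟨P, PP, nP, hP⟩ := exists_idem h2 (by norm_num)
  exact ⟨⟨P, hP _ isClosed_Bp (conv_mem hT)⟩, Subtype.ext PP, by
    change ‖P - T‖ ≤ _
    linarith⟩

theorem io_smul (g : G) (w : G ⧸ S.A) : S.io (g • w) = g • S.io w := by
  obtain ⟨g', rfl⟩ := QuotientGroup.mk_surjective w
  rw [MulAction.Quotient.smul_mk, S.io_mk, S.io_mk, MulAction.Quotient.smul_mk, smul_eq_mul,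
    smul_eq_mul, mul_assoc]

variable [Finite S.A]

theorem stage_K (hρ : Function.Surjective ρ) {q : ℝ≥0∞} [Fact (1 ≤ q)] (hq : q ≠ ∞)
    {U V : Op (G ⧸ S.A) q} (hU : ∀ (ξ : Lq _ q) w, U ξ w = Gau.uu S.loc w * ξ w)
    (hV : ∀ (ξ : Lq _ q) w, V ξ w = (Gau.uu S.loc w)⁻¹ * ξ w) (z : Bp G q) :
    piQ S.A hq z - U * piQ S.A hq z * V ∈ (opNT _ q hq).K := by
  refine pi_K (piQ S.A hq) (continuous_piQ _ hq) (fun z f hf ξ w => piL_conv hq hf ξ w) hq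
    Gau.uu_ne (fun g => ?_) hU hV z
  obtain ⟨f, rfl⟩ := hρ g
  exact Gau.uu_tendsto (Gau.actQ_tr hρ) f

theorem e_stage (hρ : Function.Surjective ρ) (hp : p ≠ ∞) {J U V : Op (G ⧸ S.A) p}
    (hJ : ∀ (ξ : Lq _ p) w, J ξ w = ξ (S.io w)) (nJ : ‖J‖ ≤ 1)
    (hU : ∀ (ξ : Lq _ p) w, U ξ w = Gau.uu S.loc w * ξ w)
    (hV : ∀ (ξ : Lq _ p) w, V ξ w = (Gau.uu S.loc w)⁻¹ * ξ w)
    {T : Op G p} (hT : IsConv (x.coeff.mapDomain ρ) T) (e : Bp G p) (he : e * e = e)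
    (ne : ‖e.1 - T‖ ≤ 1 / 100) :
    (opNT _ p hp).d (piQ S.A hp e * epl J) (U * piQ S.A hp e * V * epl J) ≠ 0 := by
  obtain ⟨E, hE, nE, EE⟩ := exists_avg S.blk_eq S.blk_self hp
  have h1 := S.close T E hT hE
  have rc : ∀ a : G, (∀ g g', g' * a ∈ S.blk (g * a) ↔ g' ∈ S.blk g) → RComm a E :=
    fun a h ξ η hη g => by
      rw [hE, hE, blk_map S h, Finset.sum_map, Finset.card_map]
      simp only [hη]
      rfl
  have rA : ∀ a ∈ S.A, RComm a E := fun a ha => rc a (blk_A_iff S ha)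
  have hk : ∀ (g : G) (j : G ⧸ S.A), piL S.A hp E (lp.single p j 1) (g : G ⧸ S.A) =
      ((((S.blk g).filter fun g' : G => (g' : G ⧸ S.A) = j).card / (S.blk g).card : ℝ) : ℂ) :=
    fun g j => by
      rw [piL_mk hp rA, hE]
      simp only [Desc.J_apply, lp.single_apply, Pi.single_apply]
      rw [Finset.sum_boole]
      push_cast
      rfl
  have hk' : ∀ i j : G ⧸ S.A, piL S.A hp E (lp.single p j 1) i =
      ((((S.blk i.out).filter fun g' : G => (g' : G ⧸ S.A) = j).card /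
        (S.blk i.out).card : ℝ) : ℂ) := fun i j => by
    rw [← hk, QuotientGroup.out_eq']
  refine e_part hp (io_io' S) Gau.norm_uu (Gau.uu_io (Gau.actQ_io S.io_mk)) hJ nJ hU hV
    (E := piL S.A hp E) (by rw [← piL_mul hp E rA, EE])
    (piL_comm hp rA (rc _ (blk_ι_iff S)) S.io_mk hJ)
    (fun i j => ((S.blk i.out).filter fun g' : G => (g' : G ⧸ S.A) = j).card / (S.blk i.out).card)
    (fun i j => (congrArg (fun d : DecidableEq (G ⧸ S.A) =>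
      piL S.A hp E (@lp.single _ _ _ d p j 1) i) (Subsingleton.elim _ _)).trans (hk' i j))
    (fun i j => by positivity)
    (w0 := ((1 : G) : G ⧸ S.A)) ?_ (fun Z0 => ?_) (by rw [← map_mul, he])
    (piQ_comm hp e S.io_mk hJ) ?_ (stage_K S hρ hp hU hV e)
  · have h2 := (hk' ((1 : G) : G ⧸ S.A) (S.io ((1 : G) : G ⧸ S.A))).symm.trans (hk 1 _)
    rw [Complex.ofReal_inj] at h2
    rw [h2]
    refine div_pos ?_ ?_
    · exact_mod_cast Finset.card_pos.2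
        ⟨S.ι, Finset.mem_filter.2 ⟨S.blk_one, by rw [S.io_mk, one_mul]⟩⟩
    · exact_mod_cast Finset.card_pos.2 ⟨S.ι, S.blk_one⟩
  · obtain ⟨Z1, a1, a2, a3⟩ := exists_sat S Z0
    refine ⟨Z1, a1, a2, fun i j h => ?_⟩
    have h3 : ((S.blk i.out).filter fun g' : G => (g' : G ⧸ S.A) = j).Nonempty := by
      rw [Finset.nonempty_iff_ne_empty]
      intro h0
      exact h (by rw [h0]; simp)
    obtain ⟨g', hg'⟩ := h3
    obtain ⟨b1, rfl⟩ := Finset.mem_filter.1 hg'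
    rw [← a3 _ _ b1, QuotientGroup.out_eq']
  · rw [piQ_eq, ← map_sub]
    refine (norm_piL_le _ hp _).trans ?_
    linarith [norm_sub_le_norm_sub_add_norm_sub e.1 T E]

theorem uv_one {Z : Type} {q : ℝ≥0∞} [Fact (1 ≤ q)] {u v : Z → ℂ} (h : ∀ w, u w * v w = 1)
    {U V : Op Z q} (hU : ∀ (ξ : Lq Z q) w, U ξ w = u w * ξ w)
    (hV : ∀ (ξ : Lq Z q) w, V ξ w = v w * ξ w) : U * V = 1 := by
  ext ξ w
  rw [mul_apply_eq_comp, hU, hV, ← mul_assoc, h, one_mul]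
  rfl

theorem anti {Z : Type} {q : ℝ≥0∞} [Fact (1 ≤ q)] {u : Z → ℂ} {io : Z → Z}
    (h : ∀ w, u (io w) = -u w) {J U : Op Z q} (hJ : ∀ (ξ : Lq Z q) w, J ξ w = ξ (io w))
    (hU : ∀ (ξ : Lq Z q) w, U ξ w = u w * ξ w) : J * U = -(U * J) := by
  ext ξ w
  rw [mul_apply_eq_comp, hJ, hU, h, neg_apply, lp.coeFn_neg, Pi.neg_apply, mul_apply_eq_comp, hU,
    hJ, neg_mul]

/-- The two representations of one stage. -/
theorem exists_hom (hρ : Function.Surjective ρ) {q : ℝ≥0∞} [Fact (1 ≤ q)] (hq : q ≠ ∞)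
    {J U V : Op (G ⧸ S.A) q} (hJ : ∀ (ξ : Lq _ q) w, J ξ w = ξ (S.io w))
    (hU : ∀ (ξ : Lq _ q) w, U ξ w = Gau.uu S.loc w * ξ w)
    (hV : ∀ (ξ : Lq _ q) w, V ξ w = (Gau.uu S.loc w)⁻¹ * ξ w) :
    ∃ p0 p1 : Bp G q →ₙ+* Op (G ⧸ S.A) q, (∀ z, p0 z = piQ S.A hq z * epl J) ∧
      (∀ z, p1 z = U * piQ S.A hq z * V * epl J) ∧ ∀ z, p0 z - p1 z ∈ (opNT _ q hq).K := by
  have JJ : J * J = 1 := by
    ext ξ w
    rw [mul_apply_eq_comp, hJ, hJ, io_io']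
    rfl
  have ui := Gau.uu_io (loc := S.loc) (Gau.actQ_io S.io_mk)
  have c := fun z => piQ_comm hq z S.io_mk hJ
  refine ⟨cutH (piQ S.A hq) (epl J) (epl_idem JJ) fun z => epl_comm (c z),
    cutH (cj (piQ S.A hq) U V (uv_one (fun w => mul_inv_cancel₀ (Gau.uu_ne w)) hU hV)
      (uv_one (fun w => inv_mul_cancel₀ (Gau.uu_ne w)) hV hU)) (epl J) (epl_idem JJ)
      fun z => epl_comm (comm_cj (c z) (anti ui hJ hU)
        (anti (fun w => by rw [ui, inv_neg]) hJ hV)), fun _ => rfl, fun _ => rfl, fun z => ?_⟩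
  rw [cutH_apply, cutH_apply, ← sub_mul]
  exact NT.K_mul_right _ (stage_K S hρ hq hU hV z)

theorem transfer_gen {Z B B1 B2 : Type} [Ring B] [Ring B1] [Ring B2] {q : ℝ≥0∞} [Fact (1 ≤ q)]
    (hp : p ≠ ∞) (hq : q ≠ ∞) (ι1 : B →+* B1) (ι2 : B →+* B2) {p0 p1 : B1 →ₙ+* Op Z p}
    {q0 q1 : B2 →ₙ+* Op Z q} (k0 : ∀ z, (p0 (ι1 z), q0 (ι2 z)) ∈ PairAlg Z p q)
    (k1 : ∀ z, (p1 (ι1 z), q1 (ι2 z)) ∈ PairAlg Z p q) (hK : ∀ z, p0 z - p1 z ∈ (opNT Z p hp).K)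
    (hK' : ∀ z, q0 z - q1 z ∈ (opNT Z q hq).K) (a : Idem B) :
    (opNT Z p hp).dM ((a.map ι1).e.map p0) ((a.map ι1).e.map p1) =
      (opNT Z q hq).dM ((a.map ι2).e.map q0) ((a.map ι2).e.map q1) :=
  dM_transfer (n := a.n) _ _ _ _ (NT.map_idem p0 (a.map ι1)) (NT.map_idem p1 (a.map ι1))
    (NT.map_idem q0 (a.map ι2)) (NT.map_idem q1 (a.map ι2)) (fun i j => k0 (a.e i j))
    (fun i j => k1 (a.e i j)) (fun i j => hK (ι1 (a.e i j))) fun i j => hK' (ι2 (a.e i j))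

theorem transfer (h2 : 2 ≤ p) (hp : p ≠ ∞) {J U V : Op (G ⧸ S.A) p} {J' U' V' : Op (G ⧸ S.A) 2}
    (hJ : (J, J') ∈ PairAlg _ p 2) (hU : (U, U') ∈ PairAlg _ p 2) (hV : (V, V') ∈ PairAlg _ p 2)
    {p0 p1 : Bp G p →ₙ+* Op (G ⧸ S.A) p} (e0 : ∀ z, p0 z = piQ S.A hp z * epl J)
    (e1 : ∀ z, p1 z = U * piQ S.A hp z * V * epl J) (hK : ∀ z, p0 z - p1 z ∈ (opNT _ p hp).K)
    {q0 q1 : Bp G 2 →ₙ+* Op (G ⧸ S.A) 2} (f0 : ∀ z, q0 z = piQ S.A Gau.two_ne z * epl J')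
    (f1 : ∀ z, q1 z = U' * piQ S.A Gau.two_ne z * V' * epl J')
    (hK' : ∀ z, q0 z - q1 z ∈ (opNT _ 2 Gau.two_ne).K) (a : Idem (BpStar G p)) :
    (opNT _ p hp).dM ((a.map (iota G p)).e.map p0) ((a.map (iota G p)).e.map p1) =
      (opNT _ 2 Gau.two_ne).dM ((a.map (lam2 h2)).e.map q0) ((a.map (lam2 h2)).e.map q1) := by
  have mm : ∀ {a b : Op (G ⧸ S.A) p} {a' b' : Op (G ⧸ S.A) 2}, (a, a') ∈ PairAlg _ p 2 →
      (b, b') ∈ PairAlg _ p 2 → (a * b, a' * b') ∈ PairAlg _ p 2 :=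
    fun h h' u v e => h _ _ (h' u v e)
  have hP : (epl J, epl J') ∈ PairAlg (G ⧸ S.A) p 2 :=
    PairAlg.smul_mem (1 / 2 : ℂ) ((PairAlg (G ⧸ S.A) p 2).add_mem (one_mem _) hJ)
  have k0 : ∀ z, (p0 (iota G p z), q0 (lam2 h2 z)) ∈ PairAlg (G ⧸ S.A) p 2 := fun z => by
    rw [e0, f0]
    exact mm (piQ_pair S.A h2 hp z) hP
  have k1 : ∀ z, (p1 (iota G p z), q1 (lam2 h2 z)) ∈ PairAlg (G ⧸ S.A) p 2 := fun z => by
    rw [e1, f1]
    exact mm (mm (mm hU (piQ_pair S.A h2 hp z)) hV) hP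
  exact transfer_gen hp Gau.two_ne (iota G p) (lam2 h2) k0 k1 hK hK' a

omit [Finite S.A] in
theorem exists_ops {q : ℝ≥0∞} [Fact (1 ≤ q)] (hq : q ≠ ∞) : ∃ J U V : Op (G ⧸ S.A) q,
    (∀ (ξ : Lq _ q) w, J ξ w = ξ (S.io w)) ∧ ‖J‖ ≤ 1 ∧
    (∀ (ξ : Lq _ q) w, U ξ w = Gau.uu S.loc w * ξ w) ∧
    ∀ (ξ : Lq _ q) w, V ξ w = (Gau.uu S.loc w)⁻¹ * ξ w := by
  obtain ⟨J, hJ, nJ⟩ := Gau.exists_wc hq (fun _ => 1) (by simp) S.io
    (Function.Involutive.injective (io_io' S))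
  obtain ⟨U, hU, -⟩ := Gau.exists_wc hq (Gau.uu S.loc) (fun w => (Gau.norm_uu w).le) id
    Function.injective_id
  obtain ⟨V, hV, -⟩ := Gau.exists_wc hq (fun w => (Gau.uu S.loc w)⁻¹)
    (fun w => by rw [norm_inv, Gau.norm_uu, inv_one]) id Function.injective_id
  exact ⟨J, U, V, fun ξ w => by rw [hJ, one_mul], nJ, hU, hV⟩

end Pool.Agent.P.MP_9167e9_an.Avg
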