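import Pool.Agent.P.MP_9167e9_an.StA

/-!
GAUGE: from location data to a real cocycle `om` tending to zero and a unit gauge `uu`.
-/

noncomputable section
open scoped Classical
open Filter Topology

namespace Pool.Agent.P.MP_9167e9_an.Gau

/-! ### Word length -/

section nr
variable {A : Type}

theorem nr_one : nr (1 : FreeGroup A) = 0 := by simp [nr]

theorem nr_mul (f g : FreeGroup A) : nr (f * g) ≤ nr f + nr g :=
  @FreeGroup.norm_mul_le A (Classical.decEq A) f g

theorem nr_inv (f : FreeGroup A) : nr f⁻¹ = nr f :=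
  @FreeGroup.norm_inv_eq A (Classical.decEq A) f

end nr

variable {Gen Z : Type} {α : FreeGroup Gen →* Equiv.Perm Z}

theorem cl_refl (r : ℕ) (w : Z) : Cl α r w w := ⟨1, by simp [nr_one], by simp⟩

theorem cl_mono {r s : ℕ} (h : r ≤ s) {w w' : Z} (c : Cl α r w w') : Cl α s w w' :=
  let ⟨f, hf, e⟩ := c; ⟨f, hf.trans h, e⟩

theorem cl_symm {r : ℕ} {w w' : Z} (c : Cl α r w w') : Cl α r w' w := by
  obtain ⟨f, hf, rfl⟩ := c
  exact ⟨f⁻¹, by rwa [nr_inv], by simp⟩

theorem cl_trans {r s : ℕ} {w w' w'' : Z} (c : Cl α r w w') (c' : Cl α s w' w'') :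
    Cl α (r + s) w w'' := by
  obtain ⟨f, hf, rfl⟩ := c
  obtain ⟨g, hg, rfl⟩ := c'
  exact ⟨g * f, (nr_mul g f).trans (by omega), by simp⟩

theorem cl_app (f : FreeGroup Gen) {r : ℕ} (h : nr f ≤ r) (w : Z) : Cl α r w (α f w) := ⟨f, h, rfl⟩

variable {io : Z → Z} {R : ℕ} (loc : Loc α io R)

theorem Ht_self (a : loc.C) : loc.Ht a a = 0 := by
  have := loc.Ht_add a a a (by simp [loc.d_self]) (by simp [loc.d_self])
  omega

/-- The depth of `w` in the set of points located within `θ` of `y`. -/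
def dep (y : loc.C) (w : Z) : ℕ := sInf {r | ∃ w', Cl α r w w' ∧ loc.θ < loc.dC (loc.p w') y}

variable {loc}

theorem dep_ne (htr : ∀ w w', ∃ f, α f w = w') (y : loc.C) (w : Z) :
    {r | ∃ w', Cl α r w w' ∧ loc.θ < loc.dC (loc.p w') y}.Nonempty := by
  obtain ⟨w', h⟩ := loc.far y
  obtain ⟨f, e⟩ := htr w w'
  exact ⟨nr f, w', ⟨f, le_rfl, e⟩, h⟩

theorem dep_le {y : loc.C} {w w' : Z} {r : ℕ} (c : Cl α r w w')
    (h : loc.θ < loc.dC (loc.p w') y) : dep loc y w ≤ r := Nat.sInf_le ⟨w', c, h⟩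

theorem dep_lip (htr : ∀ w w', ∃ f, α f w = w') (y : loc.C) {w w' : Z} {l : ℕ}
    (c : Cl α l w w') : dep loc y w ≤ dep loc y w' + l := by
  obtain ⟨w'', c', h⟩ := Nat.sInf_mem (dep_ne htr y w')
  have := dep_le (loc := loc) (cl_trans c c') h
  unfold dep at *
  omega

theorem near_of_dep {y : loc.C} {w : Z} (h : dep loc y w ≠ 0) : loc.dC (loc.p w) y ≤ loc.θ := by
  by_contra hc
  exact h (Nat.le_zero.1 (dep_le (cl_refl 0 w) (not_le.1 hc)))

theorem dep_big (htr : ∀ w w', ∃ f, α f w = w') {w : Z} {r : ℕ}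
    (h : ∀ w', Cl α r w w' → loc.dC (loc.p w) (loc.p w') ≤ loc.θ) : r < dep loc (loc.p w) w := by
  by_contra hc
  obtain ⟨w', c, h'⟩ := Nat.sInf_mem (dep_ne htr (loc.p w) w)
  have := h w' (cl_mono (not_lt.1 hc) c)
  rw [loc.d_symm] at this
  omega

theorem dep_pos (htr : ∀ w w', ∃ f, α f w = w') (w : Z) : 0 < dep loc (loc.p w) w := by
  refine dep_big htr fun w' ⟨f, hf, e⟩ => ?_
  have : f = 1 := by
    have h0 : nr f = 0 := Nat.le_zero.1 hf
    exact (@FreeGroup.norm_eq_zero Gen (Classical.decEq Gen) f).1 h0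
  subst this
  have : w = w' := by simpa using e
  subst this
  simp [loc.d_self]

theorem dep_io (hio : ∀ f w, io (α f w) = α f (io w)) (y : loc.C) (w : Z) :
    dep loc (loc.ic y) (io w) = dep loc y w := by
  unfold dep
  congr 1
  ext r
  constructor
  · rintro ⟨w', ⟨f, hf, rfl⟩, h⟩
    refine ⟨α f w, ⟨f, hf, rfl⟩, ?_⟩
    rwa [← hio, loc.p_io, loc.d_ic] at h
  · rintro ⟨w', ⟨f, hf, rfl⟩, h⟩
    refine ⟨α f (io w), ⟨f, hf, rfl⟩, ?_⟩
    rwa [← hio, loc.p_io, loc.d_ic]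

variable (loc)

instance : Fintype loc.C := @Fintype.ofFinite _ loc.fin

/-- Total depth. -/
def tot (w : Z) : ℝ := ∑ y : loc.C, (dep loc y w : ℝ)

/-- The potential. -/
def beta (w : Z) : ℝ := (∑ y : loc.C, (dep loc y w : ℝ) * loc.Ht (loc.p w) y) / tot loc w

/-- The corrected height cocycle. -/
def om (w w' : Z) : ℝ := loc.Ht (loc.p w) (loc.p w') + beta loc w' - beta loc w

/-- The gauge. -/
def uu (w : Z) : ℂ :=
  Complex.exp ((Real.pi * ((loc.par (loc.p w)).val + beta loc w) : ℝ) * Complex.I)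

variable {loc}

theorem dep_le_tot (y : loc.C) (w : Z) : (dep loc y w : ℝ) ≤ tot loc w :=
  Finset.single_le_sum (f := fun y => (dep loc y w : ℝ)) (fun _ _ => Nat.cast_nonneg _)
    (Finset.mem_univ y)

theorem tot_pos (htr : ∀ w w', ∃ f, α f w = w') (w : Z) : 0 < tot loc w :=
  lt_of_lt_of_le (by exact_mod_cast dep_pos htr w) (dep_le_tot (loc.p w) w)

/-- The involution of the location set as an equivalence. -/
def icE : loc.C ≃ loc.C := ⟨loc.ic, loc.ic, loc.ic_ic, loc.ic_ic⟩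

theorem tot_io (hio : ∀ f w, io (α f w) = α f (io w)) (w : Z) : tot loc (io w) = tot loc w := by
  unfold tot
  rw [← (icE (loc := loc)).sum_comp]
  exact Finset.sum_congr rfl fun y _ => by rw [← dep_io hio y w]; rfl

theorem beta_io (hio : ∀ f w, io (α f w) = α f (io w)) (w : Z) :
    beta loc (io w) = beta loc w := by
  unfold beta
  rw [tot_io hio, ← (icE (loc := loc)).sum_comp]
  congr 1
  refine Finset.sum_congr rfl fun y _ => ?_
  rw [← dep_io hio y w, ← loc.Ht_ic (loc.p w) y, ← loc.p_io]; rfl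

theorem om_self (w : Z) : om loc w w = 0 := by simp [om, Ht_self]

theorem om_add' {w₁ w₂ w₃ : Z} (h : loc.dC (loc.p w₁) (loc.p w₂) ≤ loc.θ)
    (h' : loc.dC (loc.p w₂) (loc.p w₃) ≤ loc.θ) :
    om loc w₁ w₂ + om loc w₂ w₃ = om loc w₁ w₃ := by
  have := loc.Ht_add _ _ _ (h.trans (by omega)) (h'.trans (by omega))
  unfold om
  rw [← this]; push_cast; ring

theorem om_add {w₁ w₂ w₃ : Z} (h : Cl α (2 * R) w₁ w₂) (h' : Cl α (2 * R) w₂ w₃) :
    om loc w₁ w₂ + om loc w₂ w₃ = om loc w₁ w₃ := om_add' (loc.lip _ _ h) (loc.lip _ _ h')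

theorem om_neg {w w' : Z} (h : Cl α (2 * R) w w') : om loc w' w = -om loc w w' := by
  have := om_add (loc := loc) h (cl_symm h)
  rw [om_self] at this
  linarith

theorem om_io (hio : ∀ f w, io (α f w) = α f (io w)) (w w' : Z) :
    om loc (io w) (io w') = om loc w w' := by
  simp [om, beta_io hio, loc.p_io, loc.Ht_ic]

theorem norm_uu (w : Z) : ‖uu loc w‖ = 1 := Complex.norm_exp_ofReal_mul_I _

theorem uu_ne (w : Z) : uu loc w ≠ 0 := Complex.exp_ne_zero _

theorem exp_par (a b : ℤ) (h : (a : ZMod 2) = b) :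
    Complex.exp ((Real.pi * a : ℝ) * Complex.I) = Complex.exp ((Real.pi * b : ℝ) * Complex.I) := by
  obtain ⟨k, hk⟩ := (ZMod.intCast_eq_intCast_iff_dvd_sub a b 2).1 h
  have : (b : ℂ) = a + 2 * k := by
    have : b = a + 2 * k := by push_cast at hk; omega
    exact_mod_cast this
  rw [Complex.exp_eq_exp_iff_exists_int]
  refine ⟨-k, ?_⟩
  push_cast
  rw [this]; ring

theorem uu_eq' {w w' : Z} (h : loc.dC (loc.p w) (loc.p w') ≤ loc.θ) :
    uu loc w' = uu loc w * Complex.exp ((Real.pi * om loc w w' : ℝ) * Complex.I) := by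
  have h1 := loc.Ht_par _ _ (h.trans (by omega : loc.θ ≤ 4 * loc.θ))
  have h2 := exp_par ((loc.par (loc.p w')).val : ℤ)
    (((loc.par (loc.p w)).val : ℤ) + loc.Ht (loc.p w) (loc.p w')) (by
      push_cast; rw [h1]; simp)
  unfold uu om
  rw [← Complex.exp_add]
  have e1 : (((Real.pi * ((loc.par (loc.p w')).val + beta loc w') : ℝ) : ℂ)) * Complex.I =
      ((Real.pi * (((loc.par (loc.p w')).val : ℤ) : ℝ) : ℝ) : ℂ) * Complex.I +
        ((Real.pi * beta loc w' : ℝ) : ℂ) * Complex.I := by push_cast; ring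
  rw [e1, Complex.exp_add, h2, ← Complex.exp_add]
  congr 1
  push_cast; ring

theorem uu_eq {w w' : Z} (h : Cl α (2 * R) w w') :
    uu loc w' = uu loc w * Complex.exp ((Real.pi * om loc w w' : ℝ) * Complex.I) :=
  uu_eq' (loc.lip _ _ h)

theorem uu_io (hio : ∀ f w, io (α f w) = α f (io w)) (w : Z) : uu loc (io w) = -uu loc w := by
  have h2 := exp_par ((loc.par (loc.p (io w))).val : ℤ) (((loc.par (loc.p w)).val : ℤ) + 1) (by
    push_cast; rw [loc.p_io, loc.par_ic]; simp)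
  unfold uu
  rw [beta_io hio]
  have e1 : (((Real.pi * ((loc.par (loc.p (io w))).val + beta loc w) : ℝ) : ℂ)) * Complex.I =
      ((Real.pi * (((loc.par (loc.p (io w))).val : ℤ) : ℝ) : ℝ) : ℂ) * Complex.I +
        ((Real.pi * beta loc w : ℝ) : ℂ) * Complex.I := by push_cast; ring
  rw [e1, Complex.exp_add, h2, ← Complex.exp_add, ← neg_one_mul, ← Complex.exp_pi_mul_I,
    ← Complex.exp_add]
  congr 1
  push_cast; ring

/-! ### The cocycle tends to zero -/

theorem om_bound (htr : ∀ w w', ∃ f, α f w = w') {M : ℝ}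
    (hM : ∀ a b, |(loc.Ht a b : ℝ)| ≤ M) {w w' : Z} {l : ℕ} (c : Cl α l w w')
    (h : loc.dC (loc.p w) (loc.p w') ≤ loc.θ) :
    |om loc w w'| * tot loc w ≤ 2 * M * Fintype.card loc.C * l := by
  have hS := tot_pos (loc := loc) htr w
  have hS' := tot_pos (loc := loc) htr w'
  set S := tot loc w with hSd
  set S' := tot loc w' with hSd'
  have hM0 : 0 ≤ M := (abs_nonneg _).trans (hM (loc.p w) (loc.p w))
  have hd : ∀ y, |(dep loc y w' : ℝ) - dep loc y w| ≤ l := fun y => by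
    have h1 : (dep loc y w : ℝ) ≤ dep loc y w' + l := by exact_mod_cast dep_lip htr y c
    have h2 : (dep loc y w' : ℝ) ≤ dep loc y w + l := by
      exact_mod_cast dep_lip htr y (cl_symm c)
    rw [abs_le]; constructor <;> linarith
  -- first rewrite with a common base point
  have e1 : (loc.Ht (loc.p w) (loc.p w') : ℝ) + beta loc w' =
      (∑ y : loc.C, (dep loc y w' : ℝ) * loc.Ht (loc.p w) y) / S' := by
    unfold beta
    rw [← hSd', eq_div_iff hS'.ne', add_mul, div_mul_cancel₀ _ hS'.ne', hSd']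
    unfold tot
    rw [Finset.mul_sum, ← Finset.sum_add_distrib]
    refine Finset.sum_congr rfl fun y _ => ?_
    by_cases h0 : dep loc y w' = 0
    · simp [h0]
    · have := loc.Ht_add _ _ _ (h.trans (by omega : loc.θ ≤ 4 * loc.θ))
        ((near_of_dep h0).trans (by omega : loc.θ ≤ 4 * loc.θ))
      rw [← this]; push_cast; ring
  set N := ∑ y : loc.C, (dep loc y w : ℝ) * loc.Ht (loc.p w) y with hN
  set N' := ∑ y : loc.C, (dep loc y w' : ℝ) * loc.Ht (loc.p w) y with hN'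
  have e2 : om loc w w' * S = (N' - N) + N' / S' * (S - S') := by
    unfold om
    rw [e1]; unfold beta; rw [← hN, ← hSd]
    field_simp; ring
  have b1 : |N' - N| ≤ M * Fintype.card loc.C * l := by
    rw [hN, hN', ← Finset.sum_sub_distrib]
    refine (Finset.abs_sum_le_sum_abs _ _).trans ?_
    refine (Finset.sum_le_card_nsmul _ _ (l * M) fun y _ => ?_).trans (by
      simp only [Finset.card_univ, nsmul_eq_mul]; nlinarith)
    rw [← sub_mul, abs_mul]
    exact mul_le_mul (hd y) (hM _ _) (abs_nonneg _) (Nat.cast_nonneg _)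
  have b2 : |N' / S'| ≤ M := by
    rw [abs_div, abs_of_pos hS', div_le_iff₀ hS', hN', hSd']
    refine (Finset.abs_sum_le_sum_abs _ _).trans ?_
    unfold tot
    rw [Finset.mul_sum]
    refine Finset.sum_le_sum fun y _ => ?_
    rw [abs_mul, Nat.abs_cast, mul_comm]
    exact mul_le_mul_of_nonneg_right (hM _ _) (Nat.cast_nonneg _)
  have b3 : |S - S'| ≤ Fintype.card loc.C * l := by
    rw [hSd, hSd']
    unfold tot
    rw [← Finset.sum_sub_distrib]
    refine (Finset.abs_sum_le_sum_abs _ _).trans ?_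
    refine (Finset.sum_le_card_nsmul _ _ (l : ℝ) fun y _ => ?_).trans (by simp)
    rw [abs_sub_comm]; exact hd y
  calc |om loc w w'| * S = |om loc w w' * S| := by rw [abs_mul, abs_of_pos hS]
    _ ≤ |N' - N| + |N' / S'| * |S - S'| := by
      rw [e2, ← abs_mul]; exact abs_add_le _ _
    _ ≤ M * Fintype.card loc.C * l + M * (Fintype.card loc.C * l) :=
      add_le_add b1 (mul_le_mul b2 b3 (abs_nonneg _) hM0)
    _ = _ := by ring

theorem near_ev (r : ℕ) :
    ∀ᶠ w in cofinite, ∀ w', Cl α r w w' → loc.dC (loc.p w) (loc.p w') ≤ loc.θ := by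
  refine (loc.contr r).subset fun w hw => ?_
  simp only [Set.mem_compl_iff, Set.mem_ofPred_eq, not_forall, not_le] at hw
  obtain ⟨w', c, h⟩ := hw
  exact ⟨w', c, h⟩

theorem tot_tendsto (htr : ∀ w w', ∃ f, α f w = w') : Tendsto (tot loc) cofinite atTop := by
  refine tendsto_atTop.2 fun b => ?_
  obtain ⟨r, hr⟩ := exists_nat_ge b
  filter_upwards [near_ev (loc := loc) r] with w hw
  have h1 : (r : ℝ) ≤ dep loc (loc.p w) w := by exact_mod_cast (dep_big htr hw).le
  exact hr.trans (h1.trans (dep_le_tot _ _))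

theorem om_tendsto (htr : ∀ w w', ∃ f, α f w = w') (f : FreeGroup Gen) :
    Tendsto (fun w => om loc w (α f w)) cofinite (𝓝 0) := by
  obtain ⟨M, hM⟩ := (Set.finite_range fun x : loc.C × loc.C => |(loc.Ht x.1 x.2 : ℝ)|).bddAbove
  have hM' : ∀ a b, |(loc.Ht a b : ℝ)| ≤ M := fun a b => hM ⟨(a, b), rfl⟩
  have ht := (tot_tendsto (loc := loc) htr).const_div_atTop
    (2 * M * Fintype.card loc.C * (nr f : ℝ))
  refine squeeze_zero_norm' ?_ ht
  filter_upwards [near_ev (loc := loc) (nr f)] with w hw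
  rw [Real.norm_eq_abs, le_div_iff₀ (tot_pos htr w)]
  exact om_bound htr hM' (cl_app f le_rfl w) (hw _ (cl_app f le_rfl w))

theorem exp_om_tendsto (htr : ∀ w w', ∃ f, α f w = w') (f : FreeGroup Gen) (φ : ℝ) :
    Tendsto (fun w => Complex.exp ((φ * om loc w (α f w) : ℝ) * Complex.I)) cofinite (𝓝 1) := by
  have hc : Continuous fun t : ℝ => Complex.exp ((φ * t : ℝ) * Complex.I) := by fun_prop
  have := (hc.tendsto 0).comp (om_tendsto (loc := loc) htr f)
  simpa [Function.comp_def] using this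

theorem uu_tendsto (htr : ∀ w w', ∃ f, α f w = w') (f : FreeGroup Gen) :
    Tendsto (fun w => uu loc (α f w) * (uu loc w)⁻¹) cofinite (𝓝 1) := by
  refine (exp_om_tendsto (loc := loc) htr f Real.pi).congr' ?_
  filter_upwards [near_ev (loc := loc) (nr f)] with w hw
  rw [uu_eq' (hw _ (cl_app f le_rfl w)), mul_comm (uu loc w), mul_assoc,
    mul_inv_cancel₀ (uu_ne w), mul_one]

/-- `om` is bounded. -/
theorem om_bdd (htr : ∀ w w', ∃ f, α f w = w') : ∃ M : ℝ, ∀ w w', |om loc w w'| ≤ M := by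
  obtain ⟨M, hM⟩ := (Set.finite_range fun x : loc.C × loc.C => |(loc.Ht x.1 x.2 : ℝ)|).bddAbove
  have hM' : ∀ a b, |(loc.Ht a b : ℝ)| ≤ M := fun a b => hM ⟨(a, b), rfl⟩
  have hb : ∀ w, |beta loc w| ≤ M := fun w => by
    have hS := tot_pos (loc := loc) htr w
    unfold beta
    rw [abs_div, abs_of_pos hS, div_le_iff₀ hS]
    refine (Finset.abs_sum_le_sum_abs _ _).trans ?_
    unfold tot
    rw [Finset.mul_sum]
    refine Finset.sum_le_sum fun y _ => ?_
    rw [abs_mul, Nat.abs_cast, mul_comm]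
    exact mul_le_mul_of_nonneg_right (hM' _ _) (Nat.cast_nonneg _)
  refine ⟨3 * M, fun w w' => ?_⟩
  have h1 := abs_le.1 (hM' (loc.p w) (loc.p w'))
  have h2 := abs_le.1 (hb w)
  have h3 := abs_le.1 (hb w')
  unfold om
  rw [abs_le]; constructor <;> linarith [h1.1, h1.2, h2.1, h2.2, h3.1, h3.2]

/-! ### The quotient action -/

section Q
variable {G : Type} [Group G] {ρ : FreeGroup Gen →* G} {A : Subgroup G}

theorem actQ_mk (f : FreeGroup Gen) (g : G) :
    actQ ρ A f (g : G ⧸ A) = ((ρ f * g : G) : G ⧸ A) := rfl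

theorem actQ_tr (h : Function.Surjective ρ) (w w' : G ⧸ A) : ∃ f, actQ ρ A f w = w' := by
  obtain ⟨g, rfl⟩ := QuotientGroup.mk_surjective w
  obtain ⟨g', rfl⟩ := QuotientGroup.mk_surjective w'
  obtain ⟨f, hf⟩ := h (g' * g⁻¹)
  exact ⟨f, by rw [actQ_mk, hf]; simp⟩

theorem actQ_io {io : G ⧸ A → G ⧸ A} {ι : G}
    (h : ∀ g : G, io (g : G ⧸ A) = ((g * ι : G) : G ⧸ A)) (f : FreeGroup Gen) (w : G ⧸ A) :
    io (actQ ρ A f w) = actQ ρ A f (io w) := by
  obtain ⟨g, rfl⟩ := QuotientGroup.mk_surjective w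
  rw [actQ_mk, h, h, actQ_mk, mul_assoc]

theorem io_io {io : G ⧸ A → G ⧸ A} {ι : G}
    (h : ∀ g : G, io (g : G ⧸ A) = ((g * ι : G) : G ⧸ A)) (hs : ι * ι ∈ A) (w : G ⧸ A) :
    io (io w) = w := by
  obtain ⟨g, rfl⟩ := QuotientGroup.mk_surjective w
  rw [h, h, QuotientGroup.eq]
  simpa [mul_assoc] using A.inv_mem hs

end Q

end Pool.Agent.P.MP_9167e9_an.Gau
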