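import Mathlib

/-!
Abstract index: a ring with two ideals `F ≤ K` and a trace on `F`.
The index of `T : P → Q` is `τ (P - G T) - τ (Q - T G)` for a parametrix `G` modulo `F`.
-/

noncomputable section
open scoped Classical

namespace Pool.Agent.P.MP_9167e9_an

/-- A trace ideal `F` inside an ideal `K`, such that `1 + K` consists of units modulo `F`. -/
structure TI (A : Type) [Ring A] where
  F : TwoSidedIdeal A
  K : TwoSidedIdeal A
  τ : A → ℂ
  le : F ≤ K
  τ_add : ∀ a ∈ F, ∀ b ∈ F, τ (a + b) = τ a + τ b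
  τ_comm : ∀ a ∈ F, ∀ b, τ (a * b) = τ (b * a)
  unit : ∀ k ∈ K, ∃ f ∈ F, IsUnit (1 + k - f)

namespace TI

variable {A : Type} [Ring A] (t : TI A)

theorem τ_zero : t.τ 0 = 0 := by
  have h := t.τ_add 0 t.F.zero_mem 0 t.F.zero_mem
  rw [add_zero] at h
  exact left_eq_add.mp h

theorem τ_neg {a : A} (ha : a ∈ t.F) : t.τ (-a) = -t.τ a := by
  have h := t.τ_add a ha (-a) (t.F.neg_mem ha)
  rw [add_neg_cancel, t.τ_zero] at h
  exact (neg_eq_of_add_eq_zero_right h.symm).symm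

theorem τ_sub {a b : A} (ha : a ∈ t.F) (hb : b ∈ t.F) : t.τ (a - b) = t.τ a - t.τ b := by
  rw [sub_eq_add_neg, t.τ_add a ha _ (t.F.neg_mem hb), t.τ_neg hb, sub_eq_add_neg]

/-- `G` is a parametrix of `T : P → Q` modulo `F`. -/
structure Par (P Q T G : A) : Prop where
  l : P * G = G
  r : G * Q = G
  gl : P - G * T ∈ t.F
  gr : Q - T * G ∈ t.F

/-- The value of the index computed with the parametrix `G`. -/
def val (P Q T G : A) : ℂ := t.τ (P - G * T) - t.τ (Q - T * G)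

/-- The index. -/
def ind (P Q T : A) : ℂ := if h : ∃ G, t.Par P Q T G then t.val P Q T h.choose else 0

variable {t}

theorem val_eq {P Q T G G' : A} (h : t.Par P Q T G) (h' : t.Par P Q T G') :
    t.val P Q T G = t.val P Q T G' := by
  have hd : G' - G ∈ t.F := by
    have e : G' - G = G' * (Q - T * G) - (P - G' * T) * G := by
      rw [mul_sub, sub_mul, h'.r, h.l, mul_assoc]; abel
    rw [e]
    exact t.F.sub_mem (t.F.mul_mem_left _ _ h.gr) (t.F.mul_mem_right _ _ h'.gl)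
  have e1 : P - G * T = (P - G' * T) + (G' - G) * T := by noncomm_ring
  have e2 : Q - T * G = (Q - T * G') + T * (G' - G) := by noncomm_ring
  unfold val
  rw [e1, e2, t.τ_add _ h'.gl _ (t.F.mul_mem_right _ _ hd),
    t.τ_add _ h'.gr _ (t.F.mul_mem_left _ _ hd), t.τ_comm _ hd T]
  ring

theorem ind_eq {P Q T G : A} (h : t.Par P Q T G) : t.ind P Q T = t.val P Q T G := by
  have h0 : ∃ G, t.Par P Q T G := ⟨G, h⟩
  unfold ind
  rw [dif_pos h0]
  exact val_eq h0.choose_spec h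

theorem Par.comp {P Q R T S G H : A} (h : t.Par P Q T G) (h' : t.Par Q R S H) :
    t.Par P R (S * T) (G * H) := by
  refine ⟨by rw [← mul_assoc, h.l], by rw [mul_assoc, h'.r], ?_, ?_⟩
  · have e : P - G * H * (S * T) = (P - G * T) + G * (Q - H * S) * T := by
      rw [mul_sub, h.r]; noncomm_ring
    rw [e]
    exact t.F.add_mem h.gl (t.F.mul_mem_right _ _ (t.F.mul_mem_left _ _ h'.gl))
  · have e : R - S * T * (G * H) = (R - S * H) + S * ((Q - T * G) * H) := by
      rw [sub_mul, h'.l]; noncomm_ring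
    rw [e]
    exact t.F.add_mem h'.gr (t.F.mul_mem_left _ _ (t.F.mul_mem_right _ _ h.gr))

theorem ind_comp {P Q R T S G H : A} (hQ : Q * Q = Q) (h : t.Par P Q T G) (h' : t.Par Q R S H) :
    t.ind P R (S * T) = t.ind P Q T + t.ind Q R S := by
  rw [ind_eq (h.comp h'), ind_eq h, ind_eq h']
  have e1 : P - G * H * (S * T) = (P - G * T) + G * (Q - H * S) * T := by
    rw [mul_sub, h.r]; noncomm_ring
  have e2 : R - S * T * (G * H) = (R - S * H) + S * ((Q - T * G) * H) := by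
    rw [sub_mul, h'.l]; noncomm_ring
  have m1 : G * (Q - H * S) ∈ t.F := t.F.mul_mem_left _ _ h'.gl
  have m2 : (Q - T * G) * H ∈ t.F := t.F.mul_mem_right _ _ h.gr
  have a1 : (Q - T * G) * (Q - H * S) = (Q - H * S) - T * (G * (Q - H * S)) := by
    rw [sub_mul, mul_sub Q, hQ, ← mul_assoc Q, h'.l, mul_assoc T G]
  have a2 : (Q - T * G) * (Q - H * S) = (Q - T * G) - (Q - T * G) * H * S := by
    rw [mul_sub, sub_mul Q, hQ, mul_assoc T G Q, h.r, mul_assoc]
  have b := a1.symm.trans a2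
  have c := congrArg t.τ b
  rw [t.τ_sub h'.gl (t.F.mul_mem_left _ _ m1), t.τ_sub h.gr (t.F.mul_mem_right _ _ m2)] at c
  unfold val
  rw [e1, e2, t.τ_add _ h.gl _ (t.F.mul_mem_right _ _ m1),
    t.τ_add _ h'.gr _ (t.F.mul_mem_left _ _ m2), t.τ_comm _ m1 T, ← t.τ_comm _ m2 S]
  linear_combination -c

theorem par_of_inv {P Q T G : A} (hl : P * G = G) (hr : G * Q = G) (h1 : G * T = P)
    (h2 : T * G = Q) : t.Par P Q T G :=
  ⟨hl, hr, by rw [h1, sub_self]; exact t.F.zero_mem, by rw [h2, sub_self]; exact t.F.zero_mem⟩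

theorem ind_inv {P Q T G : A} (hl : P * G = G) (hr : G * Q = G) (h1 : G * T = P)
    (h2 : T * G = Q) : t.ind P Q T = 0 := by
  rw [ind_eq (par_of_inv hl hr h1 h2)]
  unfold val
  rw [h1, h2, sub_self, sub_self, sub_self]

theorem Par.pertF {P Q T T' G : A} (h : t.Par P Q T G) (hT : T - T' ∈ t.F) :
    t.Par P Q T' G := by
  refine ⟨h.l, h.r, ?_, ?_⟩
  · have e : P - G * T' = (P - G * T) + G * (T - T') := by noncomm_ring
    rw [e]; exact t.F.add_mem h.gl (t.F.mul_mem_left _ _ hT)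
  · have e : Q - T' * G = (Q - T * G) + (T - T') * G := by noncomm_ring
    rw [e]; exact t.F.add_mem h.gr (t.F.mul_mem_right _ _ hT)

theorem ind_pertF {P Q T T' G : A} (h : t.Par P Q T G) (hT : T - T' ∈ t.F) :
    t.ind P Q T' = t.ind P Q T := by
  rw [ind_eq (h.pertF hT), ind_eq h]
  have e1 : P - G * T' = (P - G * T) + G * (T - T') := by noncomm_ring
  have e2 : Q - T' * G = (Q - T * G) + (T - T') * G := by noncomm_ring
  unfold val
  rw [e1, e2, t.τ_add _ h.gl _ (t.F.mul_mem_left _ _ hT),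
    t.τ_add _ h.gr _ (t.F.mul_mem_right _ _ hT), t.τ_comm _ hT G]
  ring

/-- Sum of two operators living in orthogonal corners. -/
theorem ind_orth {P Q T G P' Q' T' G' : A} (h : t.Par P Q T G) (h' : t.Par P' Q' T' G')
    (hT1 : Q * T = T) (hT2 : T * P = T) (hT1' : Q' * T' = T') (hT2' : T' * P' = T')
    (p1 : P * P' = 0) (p2 : P' * P = 0) (q1 : Q * Q' = 0) (q2 : Q' * Q = 0) :
    t.Par (P + P') (Q + Q') (T + T') (G + G') ∧
      t.ind (P + P') (Q + Q') (T + T') = t.ind P Q T + t.ind P' Q' T' := by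
  have a1 : P * G' = 0 := by rw [← h'.l, ← mul_assoc, p1, zero_mul]
  have a2 : P' * G = 0 := by rw [← h.l, ← mul_assoc, p2, zero_mul]
  have a3 : G * Q' = 0 := by rw [← h.r, mul_assoc, q1, mul_zero]
  have a4 : G' * Q = 0 := by rw [← h'.r, mul_assoc, q2, mul_zero]
  have b1 : G * T' = 0 := by rw [← hT1', ← mul_assoc, a3, zero_mul]
  have b2 : G' * T = 0 := by rw [← hT1, ← mul_assoc, a4, zero_mul]
  have b3 : T * G' = 0 := by rw [← hT2, mul_assoc, a1, mul_zero]
  have b4 : T' * G = 0 := by rw [← hT2', mul_assoc, a2, mul_zero]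
  have e1 : P + P' - (G + G') * (T + T') = (P - G * T) + (P' - G' * T') := by
    rw [add_mul, mul_add, mul_add, b1, b2]; abel
  have e2 : Q + Q' - (T + T') * (G + G') = (Q - T * G) + (Q' - T' * G') := by
    rw [add_mul, mul_add, mul_add, b3, b4]; abel
  have hp : t.Par (P + P') (Q + Q') (T + T') (G + G') := by
    refine ⟨?_, ?_, e1 ▸ t.F.add_mem h.gl h'.gl, e2 ▸ t.F.add_mem h.gr h'.gr⟩
    · rw [add_mul, mul_add, mul_add, a1, a2, h.l, h'.l]; abel
    · rw [add_mul, mul_add, mul_add, a3, a4, h.r, h'.r]; abel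
  refine ⟨hp, ?_⟩
  rw [ind_eq hp, ind_eq h, ind_eq h']
  unfold val
  rw [e1, e2, t.τ_add _ h.gl _ h'.gl, t.τ_add _ h.gr _ h'.gr]
  ring

/-- `Q + k` with `k` in the corner of `K` has index zero. -/
theorem ind_one_add {Q k : A} (hQ : Q * Q = Q) (hk : k ∈ t.K) (h1 : Q * k = k) (h2 : k * Q = k) :
    (∃ G, t.Par Q Q (Q + k) G) ∧ t.ind Q Q (Q + k) = 0 := by
  obtain ⟨f, hf, U, hU⟩ := t.unit k hk
  have u1 : (U⁻¹ : Aˣ) * (1 + k) = 1 + (U⁻¹ : Aˣ) * f := by
    have : (1 : A) + k = U + f := by rw [hU]; abel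
    rw [this, mul_add, Units.inv_mul]
  have u2 : (1 + k) * (U⁻¹ : Aˣ) = 1 + f * (U⁻¹ : Aˣ) := by
    have : (1 : A) + k = U + f := by rw [hU]; abel
    rw [this, add_mul, Units.mul_inv]
  set V : A := ((U⁻¹ : Aˣ) : A) with hV
  have hp : t.Par Q Q (Q + k) (Q * V * Q) := by
    refine ⟨by rw [← mul_assoc, ← mul_assoc, hQ], by rw [mul_assoc, hQ], ?_, ?_⟩
    · have e : Q * V * Q * (Q + k) = Q * (V * (1 + k)) * Q := by
        rw [mul_assoc (Q * V), mul_add, hQ, h1, ← mul_assoc Q V, mul_assoc (Q * V), add_mul,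
          one_mul, h2]
      rw [e, u1, mul_add, add_mul, mul_one, hQ, sub_add_cancel_left]
      exact t.F.neg_mem (t.F.mul_mem_right _ _ (t.F.mul_mem_left _ _ (t.F.mul_mem_left _ _ hf)))
    · have e : (Q + k) * (Q * V * Q) = Q * ((1 + k) * V) * Q := by
        rw [← mul_assoc, ← mul_assoc, add_mul, hQ, h2, ← mul_assoc Q, mul_add, mul_one, h1]
      rw [e, u2, mul_add, add_mul, mul_one, hQ, sub_add_cancel_left]
      exact t.F.neg_mem (t.F.mul_mem_right _ _ (t.F.mul_mem_left _ _ (t.F.mul_mem_right _ _ hf)))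
  refine ⟨⟨_, hp⟩, ?_⟩
  have hR : (1 - Q) * (1 - Q) = 1 - Q := by
    rw [mul_sub, sub_mul, sub_mul, hQ]; simp
  have o1 : Q * (1 - Q) = 0 := by rw [mul_sub, hQ]; simp
  have o2 : (1 - Q) * Q = 0 := by rw [sub_mul, hQ]; simp
  have hq : t.Par (1 - Q) (1 - Q) (1 - Q) (1 - Q) := par_of_inv hR hR hR hR
  have ho := (ind_orth hp hq (by rw [mul_add, hQ, h1]) (by rw [add_mul, hQ, h2]) hR hR
    o1 o2 o1 o2).2
  rw [ind_inv hR hR hR hR, add_zero] at ho
  rw [← ho]
  have e1 : Q + (1 - Q) = 1 := by abel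
  have e2 : Q + k + (1 - Q) = 1 + k := by abel
  rw [e1, e2]
  have hu : t.Par 1 1 (U : A) V :=
    par_of_inv (one_mul _) (mul_one _) (Units.inv_mul U) (Units.mul_inv U)
  have hF : (U : A) - (1 + k) ∈ t.F := by
    rw [hU]
    have : 1 + k - f - (1 + k) = -f := by abel
    rw [this]; exact t.F.neg_mem hf
  rw [ind_pertF hu hF]
  exact ind_inv (one_mul _) (mul_one _) (Units.inv_mul U) (Units.mul_inv U)

/-- Invariance under perturbations in `K`. -/
theorem ind_pertK {P Q T T' G : A} (hQ : Q * Q = Q) (h : t.Par P Q T G)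
    (h1 : Q * T = T) (h2 : T * P = T) (h1' : Q * T' = T') (h2' : T' * P = T')
    (hT : T' - T ∈ t.K) : (∃ G', t.Par P Q T' G') ∧ t.ind P Q T' = t.ind P Q T := by
  have hk : (T' - T) * G ∈ t.K := t.K.mul_mem_right _ _ hT
  obtain ⟨⟨H, hH⟩, h0⟩ := ind_one_add hQ hk (by rw [← mul_assoc, mul_sub, h1, h1'])
    (by rw [mul_assoc, h.r])
  have hc := h.comp hH
  have hF : (Q + (T' - T) * G) * T - T' ∈ t.F := by
    have e : (Q + (T' - T) * G) * T - T' = -((T' - T) * (P - G * T)) := by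
      rw [mul_sub (T' - T), sub_mul T' T P, h2, h2', add_mul, h1]; noncomm_ring
    rw [e]
    exact t.F.neg_mem (t.F.mul_mem_left _ _ h.gl)
  refine ⟨⟨_, hc.pertF hF⟩, ?_⟩
  rw [ind_pertF hc hF, ind_comp hQ h hH, h0, add_zero]

/-- A parametrix modulo `K` can be improved to a parametrix modulo `F`. -/
theorem exists_par {P Q T G : A} (hP : P * P = P) (hQ : Q * Q = Q)
    (h1 : Q * T = T) (h2 : T * P = T) (hl : P * G = G) (hr : G * Q = G)
    (gl : P - G * T ∈ t.K) (gr : Q - T * G ∈ t.K) : ∃ G', t.Par P Q T G' := by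
  obtain ⟨⟨H, hH⟩, -⟩ := ind_one_add hP (t.K.neg_mem gl)
    (by rw [mul_neg, mul_sub, hP, ← mul_assoc, hl]) (by rw [neg_mul, sub_mul, hP, mul_assoc, h2])
  obtain ⟨⟨H', hH'⟩, -⟩ := ind_one_add hQ (t.K.neg_mem gr)
    (by rw [mul_neg, mul_sub, hQ, ← mul_assoc, h1]) (by rw [neg_mul, sub_mul, hQ, mul_assoc, hr])
  have e1 : P + -(P - G * T) = G * T := by abel
  have e2 : Q + -(Q - T * G) = T * G := by abel
  rw [e1] at hH
  rw [e2] at hH'
  have a1 : P - H * G * T ∈ t.F := by rw [mul_assoc]; exact hH.gl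
  have a2 : Q - T * (G * H') ∈ t.F := by rw [← mul_assoc]; exact hH'.gr
  refine ⟨H * G, by rw [← mul_assoc, hH.l], by rw [mul_assoc, hr], a1, ?_⟩
  have e : Q - T * (H * G) = (Q - T * (G * H')) +
      T * ((P - H * G * T) * (G * H') - H * G * (Q - T * (G * H'))) := by
    rw [sub_mul P, ← mul_assoc P G, hl, mul_sub (H * G), mul_assoc H G Q, hr]; noncomm_ring
  rw [e]
  exact t.F.add_mem a2 (t.F.mul_mem_left _ _
    (t.F.sub_mem (t.F.mul_mem_right _ _ a1) (t.F.mul_mem_left _ _ a2)))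

/-- Functoriality under non-unital homomorphisms that preserve the trace. -/
theorem ind_map {B : Type} [Ring B] (s : TI B) (ψ : A →ₙ+* B) (hF : ∀ a ∈ t.F, ψ a ∈ s.F)
    (hτ : ∀ a ∈ t.F, s.τ (ψ a) = t.τ a) {P Q T G : A} (h : t.Par P Q T G) :
    s.ind (ψ P) (ψ Q) (ψ T) = t.ind P Q T := by
  have hp : s.Par (ψ P) (ψ Q) (ψ T) (ψ G) := by
    refine ⟨by rw [← map_mul, h.l], by rw [← map_mul, h.r], ?_, ?_⟩
    · rw [← map_mul, ← map_sub]; exact hF _ h.gl
    · rw [← map_mul, ← map_sub]; exact hF _ h.gr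
  rw [ind_eq hp, ind_eq h]
  unfold val
  rw [← map_mul, ← map_mul, ← map_sub, ← map_sub, hτ _ h.gl, hτ _ h.gr]

end TI

end Pool.Agent.P.MP_9167e9_an
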