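import Pool.Agent.P.MP_9167e9_an.Det.IndA

/-!
The relative index `d P Q` of two idempotents whose difference lies in `K`.
-/

noncomputable section
open scoped Classical

namespace Pool.Agent.P.MP_9167e9_an

namespace TI

variable {A : Type} [Ring A] (t : TI A)

/-- The relative index of two idempotents. -/
def d (P Q : A) : ℂ := t.ind P Q (Q * P)

variable {t}

theorem K_symm {P Q : A} (h : P - Q ∈ t.K) : Q - P ∈ t.K := by
  rw [← neg_sub]; exact t.K.neg_mem h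

theorem K_trans {P Q R : A} (h : P - Q ∈ t.K) (h' : Q - R ∈ t.K) : P - R ∈ t.K := by
  have e : P - R = (P - Q) + (Q - R) := by abel
  rw [e]; exact t.K.add_mem h h'

theorem ex_par {P Q : A} (hP : P * P = P) (hQ : Q * Q = Q) (h : P - Q ∈ t.K) :
    ∃ G, t.Par P Q (Q * P) G := by
  refine exists_par (G := P * Q) hP hQ (by rw [← mul_assoc, hQ]) (by rw [mul_assoc, hP])
    (by rw [← mul_assoc, hP]) (by rw [mul_assoc, hQ]) ?_ ?_
  · have e : P - P * Q * (Q * P) = P * (P - Q) * P := by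
      rw [mul_assoc P Q, ← mul_assoc Q Q, hQ, mul_sub, sub_mul, hP, hP, mul_assoc]
    rw [e]; exact t.K.mul_mem_right _ _ (t.K.mul_mem_left _ _ h)
  · have e : Q - Q * P * (P * Q) = Q * (Q - P) * Q := by
      rw [mul_assoc Q P, ← mul_assoc P P, hP, mul_sub, sub_mul, hQ, hQ, mul_assoc]
    rw [e]; exact t.K.mul_mem_right _ _ (t.K.mul_mem_left _ _ (K_symm h))

/-- If `1 - (P - Q)^2` is a unit then `Q P` is invertible from the corner of `P` to that of `Q`. -/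
theorem inv_of_unit {P Q : A} (hP : P * P = P) (hQ : Q * Q = Q)
    (hu : IsUnit (1 - (P - Q) * (P - Q))) :
    ∃ G, P * G = G ∧ G * Q = G ∧ G * (Q * P) = P ∧ Q * P * G = Q := by
  obtain ⟨U, hU⟩ := hu
  have e0 : (U : A) = 1 - P - Q + P * Q + Q * P := by
    rw [hU, mul_sub, sub_mul, sub_mul, hP, hQ]; abel
  have p1 : P * U = P * Q * P := by
    rw [e0, mul_add, mul_add, mul_sub, mul_sub, ← mul_assoc, ← mul_assoc, hP, mul_one]; abel
  have p2 : U * P = P * Q * P := by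
    rw [e0, add_mul, add_mul, sub_mul, sub_mul, mul_assoc Q P P, hP, one_mul]; abel
  have q1 : Q * U = Q * P * Q := by
    rw [e0, mul_add, mul_add, mul_sub, mul_sub, ← mul_assoc, ← mul_assoc, hQ, mul_one]; abel
  have q2 : U * Q = Q * P * Q := by
    rw [e0, add_mul, add_mul, sub_mul, sub_mul, mul_assoc P Q Q, hQ, one_mul]; abel
  have cP : Commute P (U : A) := p1.trans p2.symm
  have cQ : Commute Q (U : A) := q1.trans q2.symm
  have cP' := cP.units_inv_right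
  have cQ' := cQ.units_inv_right
  refine ⟨(U⁻¹ : Aˣ) * (P * Q), ?_, by rw [mul_assoc, mul_assoc, hQ], ?_, ?_⟩
  · rw [← mul_assoc, cP'.eq, mul_assoc, ← mul_assoc P P, hP]
  · rw [mul_assoc, mul_assoc P Q, ← mul_assoc Q Q, hQ, ← mul_assoc P, ← p2, ← mul_assoc,
      Units.inv_mul, one_mul]
  · rw [← mul_assoc, (cQ'.mul_left cP').eq, mul_assoc, mul_assoc Q P, ← mul_assoc P P, hP,
      ← mul_assoc Q, ← q2, ← mul_assoc, Units.inv_mul, one_mul]

theorem d_unit {P Q : A} (hP : P * P = P) (hQ : Q * Q = Q)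
    (hu : IsUnit (1 - (P - Q) * (P - Q))) : t.d P Q = 0 := by
  obtain ⟨G, h1, h2, h3, h4⟩ := inv_of_unit hP hQ hu
  exact ind_inv h1 h2 h3 h4

theorem d_self {P : A} (hP : P * P = P) : t.d P P = 0 :=
  d_unit hP hP (by simp)

theorem d_cocycle {P Q R : A} (hP : P * P = P) (hQ : Q * Q = Q) (hR : R * R = R)
    (h : P - Q ∈ t.K) (h' : Q - R ∈ t.K) : t.d P R = t.d P Q + t.d Q R := by
  obtain ⟨G, hG⟩ := ex_par hP hQ h
  obtain ⟨H, hH⟩ := ex_par hQ hR h'
  unfold d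
  rw [← ind_comp hQ hG hH]
  refine (ind_pertK hR (hG.comp hH) (by rw [← mul_assoc R, ← mul_assoc R R, hR])
    (by rw [mul_assoc, mul_assoc Q, hP]) (by rw [← mul_assoc, hR]) (by rw [mul_assoc, hP]) ?_).2
  have e : R * P - R * Q * (Q * P) = R * (P - Q) * P := by
    rw [mul_assoc R Q, ← mul_assoc Q Q, hQ, mul_sub, sub_mul, mul_assoc R P P, hP, mul_assoc]
  rw [e]; exact t.K.mul_mem_right _ _ (t.K.mul_mem_left _ _ h)

theorem d_symm {P Q : A} (hP : P * P = P) (hQ : Q * Q = Q) (h : P - Q ∈ t.K) :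
    t.d Q P = -t.d P Q := by
  have := d_cocycle hP hQ hP h (K_symm h)
  rw [d_self hP] at this
  linear_combination -this

/-- Two pairs related by invertible morphisms `x, y` that agree modulo `K` have the same index. -/
theorem d_iso {P Q P' Q' y x z w : A} (hP : P * P = P) (hQ : Q * Q = Q) (hP' : P' * P' = P')
    (hQ' : Q' * Q' = Q') (h : P - Q ∈ t.K) (h' : P' - Q' ∈ t.K)
    (y1 : P' * y = y) (y2 : y * P = y) (x1 : P * x = x) (x2 : x * P' = x)
    (xy : x * y = P) (yx : y * x = P')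
    (z1 : Q' * z = z) (w1 : Q * w = w) (w2 : w * Q' = w)
    (wz : w * z = Q) (zw : z * w = Q') (hK : Q' * y * P - z * Q * P ∈ t.K) :
    t.d P Q = t.d P' Q' := by
  obtain ⟨G, hG⟩ := ex_par hP hQ h
  obtain ⟨H, hH⟩ := ex_par hP' hQ' h'
  have py : t.Par P P' y x := par_of_inv x1 x2 xy yx
  have pz : t.Par Q Q' z w := par_of_inv w1 w2 wz zw
  have c1 := ind_comp hP' py hH
  have c2 := ind_comp hQ hG pz
  rw [ind_inv x1 x2 xy yx, zero_add] at c1
  rw [ind_inv w1 w2 wz zw, add_zero] at c2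
  unfold d
  rw [← c1, ← c2]
  refine ((ind_pertK hQ' (hG.comp pz) (by rw [← mul_assoc, z1])
    (by rw [mul_assoc, mul_assoc Q, hP]) (by rw [← mul_assoc, ← mul_assoc, hQ'])
    (by rw [mul_assoc, y2]) ?_).2).symm
  rw [mul_assoc Q' P', y1, ← mul_assoc z]
  rw [mul_assoc Q' y, y2] at hK
  exact hK

theorem d_pertU {P Q P' Q' : A} (hP : P * P = P) (hQ : Q * Q = Q) (hP' : P' * P' = P')
    (hQ' : Q' * Q' = Q') (h : P - Q ∈ t.K) (h' : P' - Q' ∈ t.K)
    (u1 : IsUnit (1 - (P - P') * (P - P'))) (u2 : IsUnit (1 - (Q - Q') * (Q - Q'))) :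
    t.d P Q = t.d P' Q' := by
  obtain ⟨x, x1, x2, xy, yx⟩ := inv_of_unit hP hP' u1
  obtain ⟨w, w1, w2, wz, zw⟩ := inv_of_unit hQ hQ' u2
  refine d_iso hP hQ hP' hQ' h h' (by rw [← mul_assoc, hP']) (by rw [mul_assoc, hP]) x1 x2 xy yx
    (by rw [← mul_assoc, hQ']) w1 w2 wz zw ?_
  have e : Q' * (P' * P) * P - Q' * Q * Q * P = Q' * (P' - Q') * P + Q' * (P - Q) * P := by
    rw [mul_assoc Q' (P' * P), mul_assoc P' P P, hP, mul_assoc Q' Q Q, hQ, mul_sub, mul_sub,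
      sub_mul, sub_mul, hQ', mul_assoc Q' P P, hP, mul_assoc Q' P' P]
    abel
  rw [e]
  exact t.K.add_mem (t.K.mul_mem_right _ _ (t.K.mul_mem_left _ _ h'))
    (t.K.mul_mem_right _ _ (t.K.mul_mem_left _ _ h))

/-- Invariance under algebraic equivalence. -/
theorem d_eqv {P Q P' Q' x y w z : A} (hP : P * P = P) (hQ : Q * Q = Q) (hP' : P' * P' = P')
    (hQ' : Q' * Q' = Q') (h : P - Q ∈ t.K) (h' : P' - Q' ∈ t.K)
    (xy : x * y = P) (yx : y * x = P') (wz : w * z = Q) (zw : z * w = Q') (hK : y - z ∈ t.K) :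
    t.d P Q = t.d P' Q' := by
  have a1 : P' * y = y * P := by rw [← yx, ← xy, mul_assoc]
  have a2 : x * P' = P * x := by rw [← yx, ← xy, mul_assoc]
  have b1 : Q' * z = z * Q := by rw [← zw, ← wz, mul_assoc]
  have b2 : w * Q' = Q * w := by rw [← zw, ← wz, mul_assoc]
  refine d_iso (y := y * P) (x := P * x) (z := z * Q) (w := Q * w) hP hQ hP' hQ' h h'
    (by rw [← mul_assoc, a1, mul_assoc, hP]) (by rw [mul_assoc, hP]) (by rw [← mul_assoc, hP])
    (by rw [mul_assoc, a2, ← mul_assoc, hP]) ?_ ?_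
    (by rw [← mul_assoc, b1, mul_assoc, hQ]) (by rw [← mul_assoc, hQ])
    (by rw [mul_assoc, b2, ← mul_assoc, hQ]) ?_ ?_ ?_
  · rw [mul_assoc, ← mul_assoc x, xy, hP, hP]
  · rw [mul_assoc, ← mul_assoc P, hP, ← a2, ← mul_assoc, yx, hP']
  · rw [mul_assoc, ← mul_assoc w, wz, hQ, hQ]
  · rw [mul_assoc, ← mul_assoc Q, hQ, ← b2, ← mul_assoc, zw, hQ']
  · have e : Q' * (y * P) * P - z * Q * Q * P = Q' * (y - z) * P := by
      rw [mul_assoc Q' (y * P), mul_assoc y P P, hP, mul_assoc z Q Q, hQ, mul_sub, sub_mul, b1,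
        mul_assoc Q' y P]
    rw [e]; exact t.K.mul_mem_right _ _ (t.K.mul_mem_left _ _ hK)

theorem d_orth {P Q P' Q' : A} (hP : P * P = P) (hQ : Q * Q = Q) (hP' : P' * P' = P')
    (hQ' : Q' * Q' = Q') (h : P - Q ∈ t.K) (h' : P' - Q' ∈ t.K)
    (p1 : P * P' = 0) (p2 : P' * P = 0) (q1 : Q * Q' = 0) (q2 : Q' * Q = 0)
    (r1 : Q * P' = 0) (r2 : Q' * P = 0) :
    t.d (P + P') (Q + Q') = t.d P Q + t.d P' Q' := by
  obtain ⟨G, hG⟩ := ex_par hP hQ h
  obtain ⟨H, hH⟩ := ex_par hP' hQ' h'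
  unfold d
  have e : (Q + Q') * (P + P') = Q * P + Q' * P' := by
    rw [add_mul, mul_add, mul_add, r1, r2]; abel
  rw [e]
  exact (ind_orth hG hH (by rw [← mul_assoc, hQ]) (by rw [mul_assoc, hP])
    (by rw [← mul_assoc, hQ']) (by rw [mul_assoc, hP']) p1 p2 q1 q2).2

theorem d_fin {P Q : A} (hP : P * P = P) (hQ : Q * Q = Q) (h : P - Q ∈ t.F) :
    t.d P Q = t.τ (P - Q) := by
  have e1 : P - P * Q * (Q * P) = P * (P - Q) * P := by
    rw [mul_assoc P Q, ← mul_assoc Q Q, hQ, mul_sub, sub_mul, hP, hP, mul_assoc]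
  have e2 : Q - Q * P * (P * Q) = -(Q * ((P - Q) * Q)) := by
    rw [mul_assoc Q P, ← mul_assoc P P, hP, sub_mul, mul_sub, hQ, hQ, neg_sub]
  have m1 : P * (P - Q) ∈ t.F := t.F.mul_mem_left _ _ h
  have m2 : (P - Q) * Q ∈ t.F := t.F.mul_mem_right _ _ h
  have hp : t.Par P Q (Q * P) (P * Q) := by
    refine ⟨by rw [← mul_assoc, hP], by rw [mul_assoc, hQ], ?_, ?_⟩
    · rw [e1]; exact t.F.mul_mem_right _ _ m1
    · rw [e2]; exact t.F.neg_mem (t.F.mul_mem_left _ _ m2)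
  unfold d
  rw [ind_eq hp]
  unfold val
  rw [e1, e2, t.τ_neg (t.F.mul_mem_left _ _ m2), t.τ_comm _ m1 P, ← t.τ_comm _ m2 Q,
    ← mul_assoc, hP, mul_assoc, hQ, sub_neg_eq_add, ← t.τ_add _ m1 _ m2]
  congr 1
  rw [mul_sub, sub_mul, hP, hQ]; abel

theorem d_map {B : Type} [Ring B] (s : TI B) (ψ : A →ₙ+* B) (hF : ∀ a ∈ t.F, ψ a ∈ s.F)
    (hτ : ∀ a ∈ t.F, s.τ (ψ a) = t.τ a) {P Q : A} (hP : P * P = P) (hQ : Q * Q = Q)
    (h : P - Q ∈ t.K) : s.d (ψ P) (ψ Q) = t.d P Q := by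
  obtain ⟨G, hG⟩ := ex_par hP hQ h
  unfold d
  rw [← map_mul]
  exact ind_map s ψ hF hτ hG

theorem τ_sum {ι : Type} (S : Finset ι) (f : ι → A) (hf : ∀ i ∈ S, f i ∈ t.F) :
    t.τ (∑ i ∈ S, f i) = ∑ i ∈ S, t.τ (f i) := by
  induction S using Finset.induction_on with
  | empty => simp [t.τ_zero]
  | insert a S ha ih =>
    rw [Finset.sum_insert ha, Finset.sum_insert ha, t.τ_add _ (hf a (Finset.mem_insert_self _ _)) _
      (sum_mem fun i hi => hf i (Finset.mem_insert_of_mem hi)),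
      ih fun i hi => hf i (Finset.mem_insert_of_mem hi)]

end TI

end Pool.Agent.P.MP_9167e9_an
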