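import Pool.Agent.P.MP_9167e9_an.Det.IndM

/-!
The homomorphism `K_0(B) → ℂ` defined by two representations that agree modulo `K`.
-/

noncomputable section
open scoped Classical

namespace Pool.Agent.P.MP_9167e9_an

section kcl

variable {B C : Type} [Ring B] [Ring C]

/-- The class of an idempotent matrix in `K_0`. -/
def kcl (a : Idem B) : K0 B := QuotientAddGroup.mk (FreeAbelianGroup.of a)

/-- An idempotent element as an idempotent matrix of size one. -/
def Idem.one (e : B) (he : e * e = e) : Idem B :=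
  ⟨1, oneHom e, by rw [← map_mul, he]⟩

theorem K0_map_cls (φ : B →+* C) (a : Idem B) : K0.map φ (kcl a) = kcl (a.map φ) := by
  simp [K0.map, kcl]

/-- Every element of `K_0` involves only finitely many idempotents. -/
theorem K0_fin (z : K0 B) : ∃ S : Finset (Idem B), ∀ (M : Type) [AddCommGroup M] (D : K0 B →+ M),
    (∀ a ∈ S, D (kcl a) = 0) → D z = 0 := by
  obtain ⟨w, rfl⟩ := QuotientAddGroup.mk_surjective z
  induction w using FreeAbelianGroup.induction_on with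
  | zero => exact ⟨∅, fun _ _ D _ => by simp⟩
  | of a => exact ⟨{a}, fun _ _ D h => h a (Finset.mem_singleton_self a)⟩
  | neg a ih =>
    obtain ⟨S, hS⟩ := ih
    exact ⟨S, fun M _ D h => by rw [QuotientAddGroup.mk_neg, map_neg, hS M D h, neg_zero]⟩
  | add x y hx hy =>
    obtain ⟨S, hS⟩ := hx
    obtain ⟨T, hT⟩ := hy
    refine ⟨S ∪ T, fun M _ D h => ?_⟩
    rw [QuotientAddGroup.mk_add, map_add, hS M D fun a ha => h a (Finset.mem_union_left _ ha),
      hT M D fun a ha => h a (Finset.mem_union_right _ ha), add_zero]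

end kcl

namespace NT

variable {A : Type} [NormedRing A] [CompleteSpace A] {t : NT A}

theorem dM_map {A2 : Type} [NormedRing A2] [CompleteSpace A2] (t2 : NT A2) (ψ : A →ₙ+* A2)
    (hF : ∀ a ∈ t.F, ψ a ∈ t2.F) (hτ : ∀ a ∈ t.F, t2.τ (ψ a) = t.τ a) {n : ℕ}
    {P Q : Matrix (Fin n) (Fin n) A} (hP : P * P = P) (hQ : Q * Q = Q)
    (h : ∀ i j, P i j - Q i j ∈ t.K) : t2.dM (P.map ψ) (Q.map ψ) = t.dM P Q :=
  TI.d_map (t := t.mat (Fin n)) (t2.mat (Fin n)) (matHom ψ) (fun _ ha i j => hF _ (ha i j))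
    (fun a ha => show ∑ i, t2.τ (ψ (a i i)) = ∑ i, t.τ (a i i) from
      Finset.sum_congr rfl fun i _ => hτ _ (ha i i)) hP hQ (t.mem_mat_K.2 h)

section

variable {ι κ : Type} [Fintype ι] [Fintype κ] [DecidableEq ι] [DecidableEq κ]

theorem d_cor1 {P Q : Matrix ι ι A} (hP : P * P = P) (hQ : Q * Q = Q) (h : P - Q ∈ (t.mat ι).K) :
    (t.mat (ι ⊕ κ)).d (cor1 κ P) (cor1 κ Q) = (t.mat ι).d P Q := by
  refine TI.d_map _ _ (fun a ha => ?_) (fun a _ => ?_) hP hQ h
  · rintro (i | i) (j | j)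
    · exact ha i j
    all_goals exact t.F.zero_mem
  · change ∑ i, t.τ (Matrix.fromBlocks a 0 0 0 i i) = ∑ i, t.τ (a i i)
    simp [Fintype.sum_sum_type, t.τ_zero]

theorem d_cor2 {P Q : Matrix κ κ A} (hP : P * P = P) (hQ : Q * Q = Q) (h : P - Q ∈ (t.mat κ).K) :
    (t.mat (ι ⊕ κ)).d (cor2 ι P) (cor2 ι Q) = (t.mat κ).d P Q := by
  refine TI.d_map _ _ (fun a ha => ?_) (fun a _ => ?_) hP hQ h
  · rintro (i | i) (j | j)
    · exact t.F.zero_mem
    · exact t.F.zero_mem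
    · exact t.F.zero_mem
    · exact ha i j
  · change ∑ i, t.τ (Matrix.fromBlocks 0 0 0 a i i) = ∑ i, t.τ (a i i)
    simp [Fintype.sum_sum_type, t.τ_zero]

theorem d_re (e : ι ≃ κ) {P Q : Matrix ι ι A} (hP : P * P = P) (hQ : Q * Q = Q)
    (h : P - Q ∈ (t.mat ι).K) : (t.mat κ).d (reHom e P) (reHom e Q) = (t.mat ι).d P Q := by
  refine TI.d_map (t := t.mat ι) (t.mat κ) (reHom e) (fun a ha i j => ha _ _) (fun a _ => ?_)
    hP hQ h
  exact Equiv.sum_comp e.symm fun i => t.τ (a i i)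

theorem blocks_K {a : Matrix ι ι A} {b : Matrix ι κ A} {c : Matrix κ ι A} {e : Matrix κ κ A}
    (ha : ∀ i j, a i j ∈ t.K) (hb : ∀ i j, b i j ∈ t.K) (hc : ∀ i j, c i j ∈ t.K)
    (he : ∀ i j, e i j ∈ t.K) : Matrix.fromBlocks a b c e ∈ (t.mat (ι ⊕ κ)).K := by
  refine t.mem_mat_K.2 ?_
  rintro (i | i) (j | j)
  exacts [ha i j, hb i j, hc i j, he i j]

theorem cor1_K {P Q : Matrix ι ι A} (h : P - Q ∈ (t.mat ι).K) :
    cor1 κ P - cor1 κ Q ∈ (t.mat (ι ⊕ κ)).K := by
  rw [← map_sub]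
  exact blocks_K (t.mem_mat_K.1 h) (fun _ _ => K_zero) (fun _ _ => K_zero) fun _ _ => K_zero

theorem cor2_K {P Q : Matrix κ κ A} (h : P - Q ∈ (t.mat κ).K) :
    cor2 ι P - cor2 ι Q ∈ (t.mat (ι ⊕ κ)).K := by
  rw [← map_sub]
  exact blocks_K (fun _ _ => K_zero) (fun _ _ => K_zero) (fun _ _ => K_zero) (t.mem_mat_K.1 h)

omit [CompleteSpace A] [DecidableEq ι] [DecidableEq κ] in
theorem cor12 (X : Matrix ι ι A) (Y : Matrix κ κ A) : cor1 κ X * cor2 ι Y = 0 := by
  change Matrix.fromBlocks X 0 0 0 * Matrix.fromBlocks 0 0 0 Y = 0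
  simp [Matrix.fromBlocks_multiply]

omit [CompleteSpace A] [DecidableEq ι] [DecidableEq κ] in
theorem cor21 (X : Matrix ι ι A) (Y : Matrix κ κ A) : cor2 ι Y * cor1 κ X = 0 := by
  change Matrix.fromBlocks 0 0 0 Y * Matrix.fromBlocks X 0 0 0 = 0
  simp [Matrix.fromBlocks_multiply]

theorem d_blocks {P Q : Matrix ι ι A} {P' Q' : Matrix κ κ A} (hP : P * P = P) (hQ : Q * Q = Q)
    (hP' : P' * P' = P') (hQ' : Q' * Q' = Q') (h : P - Q ∈ (t.mat ι).K)
    (h' : P' - Q' ∈ (t.mat κ).K) :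
    (t.mat (ι ⊕ κ)).d (Matrix.fromBlocks P 0 0 P') (Matrix.fromBlocks Q 0 0 Q') =
      (t.mat ι).d P Q + (t.mat κ).d P' Q' := by
  have e : ∀ (X : Matrix ι ι A) (Y : Matrix κ κ A),
      Matrix.fromBlocks X 0 0 Y = cor1 κ X + cor2 ι Y := fun X Y => by
    change _ = Matrix.fromBlocks X 0 0 0 + Matrix.fromBlocks 0 0 0 Y
    simp [Matrix.fromBlocks_add]
  rw [e, e, TI.d_orth (by rw [← map_mul, hP]) (by rw [← map_mul, hQ]) (by rw [← map_mul, hP'])
    (by rw [← map_mul, hQ']) (cor1_K h) (cor2_K h') (cor12 _ _) (cor21 _ _) (cor12 _ _)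
    (cor21 _ _) (cor12 _ _) (cor21 _ _), d_cor1 hP hQ h, d_cor2 hP' hQ' h']

theorem d_rect {P Q : Matrix ι ι A} {P' Q' : Matrix κ κ A} (hP : P * P = P) (hQ : Q * Q = Q)
    (hP' : P' * P' = P') (hQ' : Q' * Q' = Q') (h : P - Q ∈ (t.mat ι).K)
    (h' : P' - Q' ∈ (t.mat κ).K) {x w : Matrix ι κ A} {y z : Matrix κ ι A}
    (xy : x * y = P) (yx : y * x = P') (wz : w * z = Q) (zw : z * w = Q')
    (hK : ∀ i j, y i j - z i j ∈ t.K) : (t.mat ι).d P Q = (t.mat κ).d P' Q' := by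
  rw [← d_cor1 (κ := κ) hP hQ h, ← d_cor2 (ι := ι) hP' hQ' h']
  have e1 : ∀ (x : Matrix ι κ A) (y : Matrix κ ι A),
      Matrix.fromBlocks 0 x 0 0 * Matrix.fromBlocks 0 0 y 0 = cor1 κ (x * y) := fun x y => by
    change _ = Matrix.fromBlocks (x * y) 0 0 0
    simp [Matrix.fromBlocks_multiply]
  have e2 : ∀ (x : Matrix ι κ A) (y : Matrix κ ι A),
      Matrix.fromBlocks 0 0 y 0 * Matrix.fromBlocks 0 x 0 0 = cor2 ι (y * x) := fun x y => by
    change _ = Matrix.fromBlocks 0 0 0 (y * x)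
    simp [Matrix.fromBlocks_multiply]
  refine TI.d_eqv (x := Matrix.fromBlocks 0 x 0 0) (y := Matrix.fromBlocks 0 0 y 0)
    (w := Matrix.fromBlocks 0 w 0 0) (z := Matrix.fromBlocks 0 0 z 0)
    (by rw [← map_mul, hP]) (by rw [← map_mul, hQ]) (by rw [← map_mul, hP'])
    (by rw [← map_mul, hQ']) (cor1_K h) (cor2_K h') (by rw [e1, xy]) (by rw [e2, yx])
    (by rw [e1, wz]) (by rw [e2, zw]) ?_
  refine t.mem_mat_K.2 ?_
  rintro (i | i) (j | j)
  · simpa using K_zero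
  · simpa using K_zero
  · exact hK i j
  · simpa using K_zero

end

variable {B : Type} [Ring B]

omit [CompleteSpace A] in
theorem map_idem (p : B →ₙ+* A) (a : Idem B) : a.e.map p * a.e.map p = a.e.map p := by
  rw [← map_mul_nu, a.idem]

variable (t) in
/-- The index homomorphism of two representations that agree modulo `K`. -/
def dK (p0 p1 : B →ₙ+* A) (h : ∀ b, p0 b - p1 b ∈ t.K) : K0 B →+ ℂ :=
  QuotientAddGroup.lift (K0Rel B)
    (FreeAbelianGroup.lift fun a : Idem B => t.dM (a.e.map p0) (a.e.map p1)) (by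
      have hK : ∀ a : Idem B, a.e.map p0 - a.e.map p1 ∈ (t.mat (Fin a.n)).K := fun a =>
        t.mem_mat_K.2 fun i j => h _
      refine (AddSubgroup.closure_le _).2 ?_
      rintro z (⟨a, b, ⟨x, y, h1, h2⟩, rfl⟩ | ⟨a, b, rfl⟩)
      · simp only [SetLike.mem_coe, AddMonoidHom.mem_ker, map_sub, FreeAbelianGroup.lift_apply_of]
        refine sub_eq_zero.2 (d_rect (map_idem p0 a) (map_idem p1 a) (map_idem p0 b)
          (map_idem p1 b) (hK a) (hK b) (x := x.map p0) (y := y.map p0) (w := x.map p1)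
          (z := y.map p1) ?_ ?_ ?_ ?_ fun i j => h _)
        · rw [← map_mul_nu, h1]
        · rw [← map_mul_nu, h2]
        · rw [← map_mul_nu, h1]
        · rw [← map_mul_nu, h2]
      · simp only [SetLike.mem_coe, AddMonoidHom.mem_ker, map_sub, FreeAbelianGroup.lift_apply_of]
        have e : ∀ p : B →ₙ+* A, (a.add b).e.map p =
            reHom finSumFinEquiv (Matrix.fromBlocks (a.e.map p) 0 0 (b.e.map p)) := fun p => by
          change _ = Matrix.reindex finSumFinEquiv finSumFinEquiv _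
          ext i j
          obtain ⟨i, rfl⟩ := finSumFinEquiv.surjective i
          obtain ⟨j, rfl⟩ := finSumFinEquiv.surjective j
          cases i <;> cases j <;> simp [Idem.add]
        have hi : ∀ p : B →ₙ+* A, Matrix.fromBlocks (a.e.map p) 0 0 (b.e.map p) *
            Matrix.fromBlocks (a.e.map p) 0 0 (b.e.map p) =
            Matrix.fromBlocks (a.e.map p) 0 0 (b.e.map p) := fun p => by
          simp [Matrix.fromBlocks_multiply, map_idem]
        have hb : Matrix.fromBlocks (a.e.map p0) 0 0 (b.e.map p0) -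
            Matrix.fromBlocks (a.e.map p1) 0 0 (b.e.map p1) ∈ (t.mat (Fin a.n ⊕ Fin b.n)).K := by
          refine t.mem_mat_K.2 ?_
          rintro (i | i) (j | j)
          · exact h _
          · simpa using K_zero
          · simpa using K_zero
          · exact h _
        have := (d_re finSumFinEquiv (hi p0) (hi p1) hb).trans
          (d_blocks (map_idem p0 a) (map_idem p1 a) (map_idem p0 b) (map_idem p1 b) (hK a) (hK b))
        rw [e, e, sub_sub]
        exact sub_eq_zero.2 this)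

theorem dK_cls (p0 p1 : B →ₙ+* A) (h : ∀ b, p0 b - p1 b ∈ t.K) (a : Idem B) :
    t.dK p0 p1 h (kcl a) = t.dM (a.e.map p0) (a.e.map p1) := by
  simp [dK, kcl]

theorem dM_one {P Q : A} (hP : P * P = P) (hQ : Q * Q = Q) (h : P - Q ∈ t.K) :
    t.dM (oneHom P) (oneHom Q) = t.d P Q :=
  TI.d_map (t := t.alg) (t.mat (Fin 1)) oneHom (fun _ ha _ _ => ha)
    (fun a _ => Fin.sum_univ_one fun _ => t.τ a) hP hQ (t.mem_KI.2 h)

theorem dK_one (p0 p1 : B →ₙ+* A) (h : ∀ b, p0 b - p1 b ∈ t.K) (e : B) (he : e * e = e) :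
    t.dK p0 p1 h (kcl (Idem.one e he)) = t.d (p0 e) (p1 e) := by
  rw [dK_cls]
  exact dM_one (by rw [← map_mul, he]) (by rw [← map_mul, he]) (h e)

end NT

end Pool.Agent.P.MP_9167e9_an
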