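import Mathlib

/-!
The Newton iteration `X ↦ 3 X^2 - 2 X^3` in a Banach ring: an almost idempotent element is close
to an idempotent.
-/

noncomputable section
open scoped Classical
open Filter Topology

namespace Pool.Agent.P.MP_9167e9_an

section alg

variable {A : Type} [Ring A]

/-- One Newton step. -/
def nwt (X : A) : A := X * X + X * X + X * X - (X * X * X + X * X * X)

theorem nwt_sub (X : A) : nwt X - X = (X * X - X) - (X * (X * X - X) + X * (X * X - X)) := by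
  unfold nwt; noncomm_ring

theorem nwt_sq (X : A) : nwt X * nwt X - nwt X =
    (4 : ℕ) • ((X * X - X) * (X * X - X) * (X * X - X)) - (3 : ℕ) • ((X * X - X) * (X * X - X)) := by
  unfold nwt; noncomm_ring

theorem nwt_mem (S : Subring A) {X : A} (h : X ∈ S) : nwt X ∈ S := by
  have h2 := S.mul_mem h h
  have h3 := S.mul_mem h2 h
  exact S.sub_mem (S.add_mem (S.add_mem h2 h2) h2) (S.add_mem h3 h3)

theorem nwt_cong (K : TwoSidedIdeal A) {X Y : A} (h : X - Y ∈ K) : nwt X - nwt Y ∈ K := by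
  have h2 : X * X - Y * Y ∈ K := by
    have e : X * X - Y * Y = X * (X - Y) + (X - Y) * Y := by noncomm_ring
    rw [e]; exact K.add_mem (K.mul_mem_left _ _ h) (K.mul_mem_right _ _ h)
  have h3 : X * X * X - Y * Y * Y ∈ K := by
    have e : X * X * X - Y * Y * Y = X * X * (X - Y) + (X * X - Y * Y) * Y := by noncomm_ring
    rw [e]; exact K.add_mem (K.mul_mem_left _ _ h) (K.mul_mem_right _ _ h2)
  have e : nwt X - nwt Y = (X * X - Y * Y) + (X * X - Y * Y) + (X * X - Y * Y) -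
      ((X * X * X - Y * Y * Y) + (X * X * X - Y * Y * Y)) := by unfold nwt; abel
  rw [e]
  exact K.sub_mem (K.add_mem (K.add_mem h2 h2) h2) (K.add_mem h3 h3)

end alg

variable {A : Type} [NormedRing A]

theorem nwt_sub_le (X : A) : ‖nwt X - X‖ ≤ (2 * ‖X‖ + 1) * ‖X * X - X‖ := by
  rw [nwt_sub]
  have h := norm_mul_le X (X * X - X)
  have h1 := norm_sub_le (X * X - X) (X * (X * X - X) + X * (X * X - X))
  have h2 := norm_add_le (X * (X * X - X)) (X * (X * X - X))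
  linarith

theorem nwt_sq_le (X : A) (h : ‖X * X - X‖ ≤ 1 / 100) :
    ‖nwt X * nwt X - nwt X‖ ≤ ‖X * X - X‖ / 4 := by
  rw [nwt_sq]
  set D := X * X - X
  have h0 := norm_nonneg D
  have h2 : ‖D * D‖ ≤ ‖D‖ / 100 := (norm_mul_le D D).trans (by nlinarith)
  have h3 : ‖D * D * D‖ ≤ ‖D‖ / 100 :=
    (norm_mul_le _ D).trans (by nlinarith [norm_nonneg (D * D)])
  have a := norm_sub_le ((4 : ℕ) • (D * D * D)) ((3 : ℕ) • (D * D))
  have b := norm_nsmul_le (a := D * D * D) (n := 4)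
  have c := norm_nsmul_le (a := D * D) (n := 3)
  push_cast at b c
  linarith

theorem nwt_iter {X : A} {δ : ℝ} (h : ‖X * X - X‖ ≤ δ) (hδ : δ ≤ 1 / 100) (n : ℕ) :
    ‖nwt^[n] X * nwt^[n] X - nwt^[n] X‖ ≤ δ * (1 / 4) ^ n ∧
      ‖nwt^[n] X - X‖ ≤ 2 * δ * (2 * ‖X‖ + 1) * (1 - (1 / 4) ^ n) ∧
      ‖nwt^[n + 1] X - nwt^[n] X‖ ≤ 3 / 2 * δ * (2 * ‖X‖ + 1) * (1 / 4) ^ n := by
  have hδ0 : 0 ≤ δ := (norm_nonneg _).trans h
  have hX := norm_nonneg X
  have key : ∀ n : ℕ, ‖nwt^[n] X * nwt^[n] X - nwt^[n] X‖ ≤ δ * (1 / 4) ^ n →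
      ‖nwt^[n] X - X‖ ≤ 2 * δ * (2 * ‖X‖ + 1) * (1 - (1 / 4) ^ n) →
      ‖nwt^[n + 1] X - nwt^[n] X‖ ≤ 3 / 2 * δ * (2 * ‖X‖ + 1) * (1 / 4) ^ n := by
    intro n h1 h2
    rw [Function.iterate_succ_apply']
    refine (nwt_sub_le _).trans ?_
    have hq : (0 : ℝ) < (1 / 4) ^ n := by positivity
    have h3 : ‖nwt^[n] X‖ ≤ ‖X‖ + ‖nwt^[n] X - X‖ := by
      have := norm_add_le X (nwt^[n] X - X)
      rwa [add_sub_cancel] at this
    have h4 : 2 * δ * (2 * ‖X‖ + 1) * (1 - (1 / 4) ^ n) ≤ 2 / 100 * (2 * ‖X‖ + 1) := by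
      have : 0 ≤ δ * (2 * ‖X‖ + 1) * (1 / 4) ^ n := by positivity
      nlinarith
    have h5 : 2 * ‖nwt^[n] X‖ + 1 ≤ 3 / 2 * (2 * ‖X‖ + 1) := by linarith
    calc (2 * ‖nwt^[n] X‖ + 1) * ‖nwt^[n] X * nwt^[n] X - nwt^[n] X‖
        ≤ (3 / 2 * (2 * ‖X‖ + 1)) * (δ * (1 / 4) ^ n) :=
          mul_le_mul h5 h1 (norm_nonneg _) (by positivity)
      _ = _ := by ring
  induction n with
  | zero =>
    have h1 : ‖nwt^[0] X * nwt^[0] X - nwt^[0] X‖ ≤ δ * (1 / 4) ^ 0 := by simpa using h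
    have h2 : ‖nwt^[0] X - X‖ ≤ 2 * δ * (2 * ‖X‖ + 1) * (1 - (1 / 4) ^ 0) := by simp
    exact ⟨h1, h2, key 0 h1 h2⟩
  | succ n ih =>
    obtain ⟨i1, i2, i3⟩ := ih
    have hq : ((1 : ℝ) / 4) ^ n ≤ 1 := pow_le_one₀ (by norm_num) (by norm_num)
    have h1 : ‖nwt^[n + 1] X * nwt^[n + 1] X - nwt^[n + 1] X‖ ≤ δ * (1 / 4) ^ (n + 1) := by
      rw [Function.iterate_succ_apply']
      refine (nwt_sq_le _ (i1.trans (by nlinarith))).trans ?_
      rw [pow_succ]; linarith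
    have h2 : ‖nwt^[n + 1] X - X‖ ≤ 2 * δ * (2 * ‖X‖ + 1) * (1 - (1 / 4) ^ (n + 1)) := by
      have := norm_add_le (nwt^[n + 1] X - nwt^[n] X) (nwt^[n] X - X)
      rw [sub_add_sub_cancel] at this
      rw [pow_succ]
      linarith
    exact ⟨h1, h2, key _ h1 h2⟩

/-- The limit of the Newton iteration. -/
def chi (X : A) : A := limUnder atTop fun n : ℕ => nwt^[n] X

variable [CompleteSpace A]

theorem chi_tendsto {X : A} {δ : ℝ} (h : ‖X * X - X‖ ≤ δ) (hδ : δ ≤ 1 / 100) :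
    Tendsto (fun n : ℕ => nwt^[n] X) atTop (𝓝 (chi X)) := by
  refine CauchySeq.tendsto_limUnder ?_
  refine cauchySeq_of_le_geometric (1 / 4) (3 / 2 * δ * (2 * ‖X‖ + 1)) (by norm_num) fun n => ?_
  rw [dist_comm, dist_eq_norm]
  exact (nwt_iter h hδ n).2.2

theorem chi_idem {X : A} {δ : ℝ} (h : ‖X * X - X‖ ≤ δ) (hδ : δ ≤ 1 / 100) :
    chi X * chi X = chi X := by
  have h1 := chi_tendsto h hδ
  have h2 := ((h1.mul h1).sub h1).norm
  have h3 : Tendsto (fun n : ℕ => δ * (1 / 4 : ℝ) ^ n) atTop (𝓝 (δ * 0)) :=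
    (tendsto_pow_atTop_nhds_zero_of_lt_one (by norm_num) (by norm_num)).const_mul δ
  have h4 := le_of_tendsto_of_tendsto' h2 h3 fun n => (nwt_iter h hδ n).1
  rw [mul_zero] at h4
  exact sub_eq_zero.mp (norm_le_zero_iff.mp h4)

theorem chi_near {X : A} {δ : ℝ} (h : ‖X * X - X‖ ≤ δ) (hδ : δ ≤ 1 / 100) :
    ‖chi X - X‖ ≤ 2 * δ * (2 * ‖X‖ + 1) := by
  have hδ0 : 0 ≤ δ := (norm_nonneg _).trans h
  refine le_of_tendsto' ((chi_tendsto h hδ).sub_const X).norm fun n => ?_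
  refine (nwt_iter h hδ n).2.1.trans ?_
  have : 0 ≤ 2 * δ * (2 * ‖X‖ + 1) * (1 / 4) ^ n := by positivity
  linarith

theorem chi_mem {X : A} {δ : ℝ} (h : ‖X * X - X‖ ≤ δ) (hδ : δ ≤ 1 / 100) (S : Subring A)
    (hS : IsClosed (S : Set A)) (hX : X ∈ S) : chi X ∈ S := by
  refine hS.mem_of_tendsto (chi_tendsto h hδ) (Eventually.of_forall fun n => ?_)
  induction n with
  | zero => exact hX
  | succ n ih => rw [Function.iterate_succ_apply']; exact nwt_mem S ih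

theorem chi_cong {X Y : A} {δ : ℝ} (h : ‖X * X - X‖ ≤ δ) (h' : ‖Y * Y - Y‖ ≤ δ) (hδ : δ ≤ 1 / 100)
    (K : TwoSidedIdeal A) (hK : IsClosed (K : Set A)) (hXY : X - Y ∈ K) : chi X - chi Y ∈ K := by
  refine hK.mem_of_tendsto ((chi_tendsto h hδ).sub (chi_tendsto h' hδ))
    (Eventually.of_forall fun n => ?_)
  induction n with
  | zero => exact hXY
  | succ n ih =>
    rw [Function.iterate_succ_apply', Function.iterate_succ_apply']; exact nwt_cong K ih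

/-- An almost idempotent element is close to an idempotent of the closed subring it generates. -/
theorem exists_idem {X : A} {δ : ℝ} (h : ‖X * X - X‖ ≤ δ) (hδ : δ ≤ 1 / 100) :
    ∃ P : A, P * P = P ∧ ‖P - X‖ ≤ 2 * δ * (2 * ‖X‖ + 1) ∧
      ∀ S : Subring A, IsClosed (S : Set A) → X ∈ S → P ∈ S :=
  ⟨chi X, chi_idem h hδ, chi_near h hδ, fun S hS hX => chi_mem h hδ S hS hX⟩

theorem isUnit_of_near {P Q : A} (h : ‖P - Q‖ < 1) : IsUnit (1 - (P - Q) * (P - Q)) := by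
  refine isUnit_one_sub_of_norm_lt_one ((norm_mul_le _ _).trans_lt ?_)
  nlinarith [norm_nonneg (P - Q)]

end Pool.Agent.P.MP_9167e9_an
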