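import Pool.Agent.P.MP_9167e9_an.Defs
import Pool.Agent.P.MP_9167e9_an.Det.IndB
import Pool.Agent.P.MP_9167e9_an.Det.IndN

/-!
The index over a Banach ring with a trace ideal `F` and `K` the closure of `F`; matrices; the
induced homomorphism on `K_0`.
-/

noncomputable section
open scoped Classical

namespace Pool.Agent.P.MP_9167e9_an

/-- A trace ideal in a normed ring. -/
structure NT (A : Type) [NormedRing A] where
  F : TwoSidedIdeal A
  τ : A → ℂ
  τ_add : ∀ a ∈ F, ∀ b ∈ F, τ (a + b) = τ a + τ b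
  τ_comm : ∀ a ∈ F, ∀ b, τ (a * b) = τ (b * a)

section norm

attribute [local instance] Matrix.linftyOpNormedRing

variable {A : Type} [NormedRing A] {ι : Type} [Fintype ι] [DecidableEq ι]

theorem mat_norm_le (M : Matrix ι ι A) {c : ℝ} (hc : 0 ≤ c) (h : ∀ i j, ‖M i j‖ ≤ c) :
    ‖M‖ ≤ Fintype.card ι * c := by
  lift c to NNReal using hc
  have : ‖M‖₊ ≤ Fintype.card ι * c := by
    rw [Matrix.linfty_opNNNorm_def]
    refine Finset.sup_le fun i _ => ?_
    refine (Finset.sum_le_card_nsmul _ _ c fun j _ => h i j).trans ?_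
    simp
  exact_mod_cast this

theorem mat_complete [CompleteSpace A] :
    @CompleteSpace (Matrix ι ι A) PseudoMetricSpace.toUniformSpace :=
  inferInstanceAs (CompleteSpace (ι → ι → A))

theorem mat_unit [CompleteSpace A] (M : Matrix ι ι A)
    (h : ∀ i j, ‖M i j‖ ≤ 1 / (Fintype.card ι + 1)) : IsUnit (1 - M) := by
  have := mat_complete (A := A) (ι := ι)
  refine isUnit_one_sub_of_norm_lt_one ((mat_norm_le M (by positivity) h).trans_lt ?_)
  rw [mul_one_div, div_lt_one (by positivity)]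
  linarith

end norm

namespace NT

variable {A : Type} [NormedRing A] (t : NT A)

/-- The closure of the trace ideal. -/
def K : Set A := closure (t.F : Set A)

theorem isClosed_K : IsClosed t.K := isClosed_closure

variable {t}

theorem F_le_K {a : A} (h : a ∈ t.F) : a ∈ t.K := subset_closure h

theorem K_zero : (0 : A) ∈ t.K := F_le_K t.F.zero_mem

theorem K_add {a b : A} (ha : a ∈ t.K) (hb : b ∈ t.K) : a + b ∈ t.K :=
  map_mem_closure₂ (f := fun x y : A => x + y) continuous_add ha hb fun _ hx _ hy =>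
    t.F.add_mem hx hy

theorem K_neg {a : A} (ha : a ∈ t.K) : -a ∈ t.K :=
  map_mem_closure continuous_neg ha fun _ hx => t.F.neg_mem hx

theorem K_sub {a b : A} (ha : a ∈ t.K) (hb : b ∈ t.K) : a - b ∈ t.K := by
  rw [sub_eq_add_neg]; exact K_add ha (K_neg hb)

theorem K_mul_left (b : A) {a : A} (ha : a ∈ t.K) : b * a ∈ t.K :=
  map_mem_closure (continuous_const_mul b) ha fun _ hx => t.F.mul_mem_left _ _ hx

theorem K_mul_right {a : A} (b : A) (ha : a ∈ t.K) : a * b ∈ t.K :=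
  map_mem_closure (f := fun x => x * b) (continuous_mul_const b) ha fun _ hx =>
    t.F.mul_mem_right _ _ hx

theorem mem_K_iff {a : A} : a ∈ t.K ↔ ∀ ε > 0, ∃ f ∈ t.F, ‖a - f‖ < ε := by
  simp only [K, Metric.mem_closure_iff, dist_eq_norm, SetLike.mem_coe]

variable (t)

/-- The closure of the trace ideal, as an ideal. -/
def KI : TwoSidedIdeal A :=
  TwoSidedIdeal.mk' t.K K_zero K_add K_neg (fun {x _} h => K_mul_left x h)
    (fun {_ y} h => K_mul_right y h)

theorem mem_KI {a : A} : a ∈ t.KI ↔ a ∈ t.K := TwoSidedIdeal.mem_mk' _ _ _ _ _ _ _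

theorem K_sum {ι : Type} (S : Finset ι) (f : ι → A) (hf : ∀ i ∈ S, f i ∈ t.K) :
    ∑ i ∈ S, f i ∈ t.K :=
  t.mem_KI.1 (sum_mem fun i hi => t.mem_KI.2 (hf i hi))

variable [CompleteSpace A]

/-- The algebraic data attached to a trace ideal of a Banach ring. -/
def alg : TI A where
  F := t.F
  K := t.KI
  τ := t.τ
  le := fun _ h => t.mem_KI.2 (F_le_K h)
  τ_add := t.τ_add
  τ_comm := t.τ_comm
  unit := fun k hk => by
    obtain ⟨f, hf, h⟩ := mem_K_iff.1 (t.mem_KI.1 hk) 1 one_pos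
    refine ⟨f, hf, ?_⟩
    have e : 1 + k - f = 1 - (f - k) := by abel
    rw [e]
    exact isUnit_one_sub_of_norm_lt_one (by rwa [norm_sub_rev])

/-- The same data for matrices. -/
def mat (ι : Type) [Fintype ι] [DecidableEq ι] : TI (Matrix ι ι A) where
  F := t.F.matrix ι
  K := t.KI.matrix ι
  τ := fun M => ∑ i, t.τ (M i i)
  le := fun _ h i j => t.mem_KI.2 (F_le_K (h i j))
  τ_add := fun a ha b hb => by
    rw [← Finset.sum_add_distrib]
    exact Finset.sum_congr rfl fun i _ => t.τ_add _ (ha i i) _ (hb i i)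
  τ_comm := fun a ha b => by
    have ha' : ∀ i j, a i j ∈ t.F := ha
    have h1 : ∀ i, t.τ ((a * b) i i) = ∑ j, t.τ (a i j * b j i) := fun i =>
      TI.τ_sum (t := t.alg) _ _ fun j _ => t.F.mul_mem_right _ _ (ha' i j)
    have h2 : ∀ j, t.τ ((b * a) j j) = ∑ i, t.τ (b j i * a i j) := fun j =>
      TI.τ_sum (t := t.alg) _ _ fun i _ => t.F.mul_mem_left _ _ (ha' i j)
    simp only [h1, h2]
    rw [Finset.sum_comm]
    exact Finset.sum_congr rfl fun j _ => Finset.sum_congr rfl fun i _ => t.τ_comm _ (ha' i j) _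
  unit := fun k hk => by
    have hk' : ∀ i j, ∃ f ∈ t.F, ‖k i j - f‖ < 1 / (Fintype.card ι + 1) := fun i j =>
      mem_K_iff.1 (t.mem_KI.1 (hk i j)) _ (by positivity)
    choose f hf h using hk'
    refine ⟨Matrix.of f, hf, ?_⟩
    have e : 1 + k - Matrix.of f = 1 - (Matrix.of f - k) := by abel
    rw [e]
    exact mat_unit _ fun i j => by
      rw [Matrix.sub_apply, norm_sub_rev]; exact (h i j).le

theorem mem_mat_K {ι : Type} [Fintype ι] [DecidableEq ι] {M : Matrix ι ι A} :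
    M ∈ (t.mat ι).K ↔ ∀ i j, M i j ∈ t.K :=
  forall_congr' fun _ => forall_congr' fun _ => t.mem_KI

theorem τ_zero : t.τ 0 = 0 := t.alg.τ_zero

theorem τ_neg {a : A} (ha : a ∈ t.F) : t.τ (-a) = -t.τ a := t.alg.τ_neg ha

theorem τ_sub {a b : A} (ha : a ∈ t.F) (hb : b ∈ t.F) : t.τ (a - b) = t.τ a - t.τ b :=
  t.alg.τ_sub ha hb

/-- The relative index of two idempotents. -/
def d (P Q : A) : ℂ := t.alg.d P Q

/-- The relative index of two idempotent matrices. -/
def dM {n : ℕ} (P Q : Matrix (Fin n) (Fin n) A) : ℂ := (t.mat (Fin n)).d P Q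

variable {t}

theorem d_fin {P Q : A} (hP : P * P = P) (hQ : Q * Q = Q) (h : P - Q ∈ t.F) :
    t.d P Q = t.τ (P - Q) := TI.d_fin (t := t.alg) hP hQ h

theorem d_pert {P Q P2 Q2 : A} (hP : P * P = P) (hQ : Q * Q = Q) (hP2 : P2 * P2 = P2)
    (hQ2 : Q2 * Q2 = Q2) (h : P - Q ∈ t.K) (h2 : P2 - Q2 ∈ t.K) (n1 : ‖P - P2‖ < 1)
    (n2 : ‖Q - Q2‖ < 1) : t.d P Q = t.d P2 Q2 :=
  TI.d_pertU (t := t.alg) hP hQ hP2 hQ2 (t.mem_KI.2 h) (t.mem_KI.2 h2) (isUnit_of_near n1)
    (isUnit_of_near n2)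

theorem d_near {P Q : A} (hP : P * P = P) (hQ : Q * Q = Q) (h : ‖P - Q‖ < 1) : t.d P Q = 0 :=
  TI.d_unit (t := t.alg) hP hQ (isUnit_of_near h)

theorem d_cocycle {P Q R : A} (hP : P * P = P) (hQ : Q * Q = Q) (hR : R * R = R)
    (h : P - Q ∈ t.K) (h' : Q - R ∈ t.K) : t.d P R = t.d P Q + t.d Q R :=
  TI.d_cocycle (t := t.alg) hP hQ hR (t.mem_KI.2 h) (t.mem_KI.2 h')

theorem d_eqv {P Q P' Q' x y w z : A} (hP : P * P = P) (hQ : Q * Q = Q) (hP' : P' * P' = P')
    (hQ' : Q' * Q' = Q') (h : P - Q ∈ t.K) (h' : P' - Q' ∈ t.K)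
    (xy : x * y = P) (yx : y * x = P') (wz : w * z = Q) (zw : z * w = Q') (hK : y - z ∈ t.K) :
    t.d P Q = t.d P' Q' :=
  TI.d_eqv (t := t.alg) hP hQ hP' hQ' (t.mem_KI.2 h) (t.mem_KI.2 h') xy yx wz zw (t.mem_KI.2 hK)

theorem d_map {A2 : Type} [NormedRing A2] [CompleteSpace A2] (t2 : NT A2) (ψ : A →ₙ+* A2)
    (hF : ∀ a ∈ t.F, ψ a ∈ t2.F) (hτ : ∀ a ∈ t.F, t2.τ (ψ a) = t.τ a) {P Q : A}
    (hP : P * P = P) (hQ : Q * Q = Q) (h : P - Q ∈ t.K) : t2.d (ψ P) (ψ Q) = t.d P Q :=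
  TI.d_map (t := t.alg) t2.alg ψ hF hτ hP hQ (t.mem_KI.2 h)

end NT

section homs

variable {A B : Type} [Ring A] [Ring B] {ι κ : Type} [Fintype ι] [Fintype κ]

theorem map_mul_nu {l m n : Type} [Fintype m] (ψ : A →ₙ+* B) (X : Matrix l m A)
    (Y : Matrix m n A) : (X * Y).map ψ = X.map ψ * Y.map ψ := by
  ext i j
  simp [Matrix.mul_apply, map_sum]

/-- A non-unital homomorphism acts entrywise on matrices. -/
def matHom (ψ : A →ₙ+* B) : Matrix ι ι A →ₙ+* Matrix ι ι B where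
  toFun X := X.map ψ
  map_mul' := map_mul_nu ψ
  map_zero' := by ext i j; simp
  map_add' X Y := by ext i j; simp

/-- The upper left corner. -/
def cor1 (κ : Type) [Fintype κ] : Matrix ι ι A →ₙ+* Matrix (ι ⊕ κ) (ι ⊕ κ) A where
  toFun X := Matrix.fromBlocks X 0 0 0
  map_mul' X Y := by simp [Matrix.fromBlocks_multiply]
  map_zero' := by simp
  map_add' X Y := by simp [Matrix.fromBlocks_add]

/-- The lower right corner. -/
def cor2 (ι : Type) [Fintype ι] : Matrix κ κ A →ₙ+* Matrix (ι ⊕ κ) (ι ⊕ κ) A where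
  toFun X := Matrix.fromBlocks 0 0 0 X
  map_mul' X Y := by simp [Matrix.fromBlocks_multiply]
  map_zero' := by simp
  map_add' X Y := by simp [Matrix.fromBlocks_add]

/-- Reindexing. -/
def reHom (e : ι ≃ κ) : Matrix ι ι A →ₙ+* Matrix κ κ A where
  toFun X := Matrix.reindex e e X
  map_mul' X Y := by simp [Matrix.submatrix_mul_equiv]
  map_zero' := by simp
  map_add' X Y := by ext i j; simp

/-- An element as a matrix of size one. -/
def oneHom : A →ₙ+* Matrix (Fin 1) (Fin 1) A where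
  toFun a := Matrix.of fun _ _ => a
  map_mul' a b := by ext i j; simp [Matrix.mul_apply]
  map_zero' := by ext i j; simp
  map_add' a b := by ext i j; simp

end homs

end Pool.Agent.P.MP_9167e9_an
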