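import Pool.Agent.P.MP_9167e9_an.Defs

/-!
An operator on `ℓ²` which agrees with a bounded operator on `ℓ^p`, and whose adjoint does so too,
has norm at most the geometric mean of the two norms.
-/

noncomputable section
open scoped ENNReal Classical InnerProductSpace
open Filter Topology

namespace Pool.Agent.P.MP_9167e9_an.L2

section hilb

variable {E : Type} [NormedAddCommGroup E] [InnerProductSpace ℂ E] [CompleteSpace E]

theorem sq_le_inner {S : E →L[ℂ] E} (hS : IsSelfAdjoint S) (η : E) (m : ℕ) :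
    ‖(S ^ m) η‖ ^ 2 ≤ ‖⟪η, (S ^ (2 * m)) η⟫_ℂ‖ := by
  have h := (hS.pow m).isSymmetric η ((S ^ m) η)
  have e : (S ^ (2 * m)) η = (S ^ m) ((S ^ m) η) := by rw [two_mul, pow_add]; rfl
  rw [e]
  change ⟪(S ^ m) η, (S ^ m) η⟫_ℂ = ⟪η, (S ^ m) ((S ^ m) η)⟫_ℂ at h
  rw [← h, inner_self_eq_norm_sq_to_K]
  simp

theorem pow_le_pow_apply {S : E →L[ℂ] E} (hS : IsSelfAdjoint S) {η : E} (h : ‖η‖ ≤ 1) (k : ℕ) :
    ‖S η‖ ^ 2 ^ k ≤ ‖(S ^ 2 ^ k) η‖ := by
  induction k with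
  | zero => simp
  | succ k ih =>
    rw [pow_succ 2 k, pow_mul]
    refine (pow_le_pow_left₀ (by positivity) ih 2).trans ((sq_le_inner hS η _).trans ?_)
    refine (norm_inner_le_norm _ _).trans ?_
    rw [mul_comm 2]
    exact mul_le_of_le_one_left (norm_nonneg _) h

theorem apply_le_one {S : E →L[ℂ] E} (hS : IsSelfAdjoint S) {η : E} (h : ‖η‖ ≤ 1) {c M : ℝ}
    (hM : 0 ≤ M) (hc : ∀ m, ‖⟪η, (S ^ m) η⟫_ℂ‖ ≤ c * M ^ m) : ‖S η‖ ≤ M := by
  by_contra hlt
  have hlt : M < ‖S η‖ := not_le.1 hlt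
  have hx : 0 < ‖S η‖ := hM.trans_lt hlt
  have h1 : ∀ k : ℕ, 1 ≤ c * (M / ‖S η‖) ^ (2 * 2 ^ k) := fun k => by
    rw [div_pow, ← mul_div_assoc, le_div_iff₀ (by positivity), one_mul, mul_comm 2, pow_mul]
    refine (pow_le_pow_left₀ (by positivity) (pow_le_pow_apply hS h k) 2).trans ?_
    rw [mul_comm (2 ^ k)]
    exact (sq_le_inner hS η _).trans (hc _)
  have h2 : Tendsto (fun k : ℕ => 2 * 2 ^ k) atTop atTop :=
    (tendsto_pow_atTop_atTop_of_one_lt (by norm_num : (1 : ℕ) < 2)).const_mul_atTop' (by norm_num)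
  have h3 := ((tendsto_pow_atTop_nhds_zero_of_lt_one (by positivity : 0 ≤ M / ‖S η‖)
    ((div_lt_one hx).2 hlt)).comp h2).const_mul c
  have h4 := ge_of_tendsto' h3 h1
  norm_num at h4

theorem apply_le {S : E →L[ℂ] E} (hS : IsSelfAdjoint S) (η : E) {c M : ℝ}
    (hM : 0 ≤ M) (hc : ∀ m, ‖⟪η, (S ^ m) η⟫_ℂ‖ ≤ c * M ^ m) : ‖S η‖ ≤ M * ‖η‖ := by
  rcases eq_or_ne η 0 with rfl | h0
  · simp
  have hn : 0 < ‖η‖ := norm_pos_iff.2 h0
  have h := apply_le_one hS (η := ((‖η‖⁻¹ : ℝ) : ℂ) • η) (c := ‖η‖⁻¹ * (‖η‖⁻¹ * c)) (M := M)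
    (by rw [norm_smul, Complex.norm_real, norm_inv, norm_norm, inv_mul_cancel₀ hn.ne']) hM
    fun m => by
      rw [map_smul, inner_smul_left, inner_smul_right, norm_mul, norm_mul, RCLike.norm_conj,
        Complex.norm_real, norm_inv, norm_norm, mul_assoc, mul_assoc]
      have := hc m
      gcongr
  rw [map_smul, norm_smul, Complex.norm_real, norm_inv, norm_norm, inv_mul_le_iff₀ hn] at h
  rwa [mul_comm]

end hilb

variable {I : Type} {p : ℝ≥0∞} [Fact (1 ≤ p)]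

/-- The two operators agree on the vectors that lie in both spaces. -/
def Ag (T : Op I p) (S : Op I 2) : Prop :=
  ∀ (ξ : Lq I p) (η : Lq I 2), (∀ x, ξ x = η x) → ∀ x, T ξ x = S η x

theorem ag_one : Ag (1 : Op I p) 1 := fun _ _ h => h

theorem ag_zero : Ag (0 : Op I p) 0 := fun _ _ _ _ => rfl

theorem Ag.mul {T T' : Op I p} {S S' : Op I 2} (h : Ag T S) (h' : Ag T' S') :
    Ag (T * T') (S * S') := fun ξ η e => h _ _ (h' ξ η e)

theorem Ag.add {T T' : Op I p} {S S' : Op I 2} (h : Ag T S) (h' : Ag T' S') :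
    Ag (T + T') (S + S') := fun ξ η e x => by
  change T ξ x + T' ξ x = S η x + S' η x
  rw [h ξ η e x, h' ξ η e x]

theorem Ag.neg {T : Op I p} {S : Op I 2} (h : Ag T S) : Ag (-T) (-S) := fun ξ η e x => by
  change -(T ξ x) = -(S η x)
  rw [h ξ η e x]

theorem Ag.sub {T T' : Op I p} {S S' : Op I 2} (h : Ag T S) (h' : Ag T' S') :
    Ag (T - T') (S - S') := by
  rw [sub_eq_add_neg, sub_eq_add_neg]; exact h.add h'.neg

theorem Ag.pow {T : Op I p} {S : Op I 2} (h : Ag T S) (m : ℕ) : Ag (T ^ m) (S ^ m) := by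
  induction m with
  | zero => rw [pow_zero, pow_zero]; exact ag_one
  | succ m ih => rw [pow_succ, pow_succ]; exact ih.mul h

theorem Ag.unique (h2 : 2 ≤ p) {T : Op I p} {S S' : Op I 2} (h : Ag T S) (h' : Ag T S') :
    S = S' := by
  ext η x
  have hm : Memℓp (η : I → ℂ) p := (lp.memℓp η).of_exponent_ge h2
  exact (h ⟨_, hm⟩ η (fun _ => rfl) x).symm.trans (h' ⟨_, hm⟩ η (fun _ => rfl) x)

theorem Ag.single {T : Op I p} {S : Op I 2} (h : Ag T S) (i j : I) :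
    S (lp.single 2 j 1) i = T (lp.single p j 1) i :=
  (h _ _ (fun x => by simp [lp.single_apply]) i).symm

theorem cont_eval (q : ℝ≥0∞) [Fact (1 ≤ q)] (ξ : Lq I q) (x : I) :
    Continuous fun T : Op I q => T ξ x :=
  (continuous_apply x).comp (lp.uniformContinuous_coe.continuous.comp
    (ContinuousLinearMap.apply ℂ (Lq I q) ξ).continuous)

theorem ag_lim {T : ℕ → Op I p} {S : ℕ → Op I 2} {T0 : Op I p} {S0 : Op I 2}
    (h : ∀ n, Ag (T n) (S n)) (hT : Tendsto T atTop (𝓝 T0)) (hS : Tendsto S atTop (𝓝 S0)) :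
    Ag T0 S0 := fun ξ η e x =>
  tendsto_nhds_unique (((cont_eval p ξ x).tendsto T0).comp hT)
    ((((cont_eval 2 η x).tendsto S0).comp hS).congr fun n => (h n ξ η e x).symm)

theorem Ag.norm_sa {T : Op I p} {S : Op I 2} (h : Ag T S) (hS : IsSelfAdjoint S) : ‖S‖ ≤ ‖T‖ := by
  refine ContinuousLinearMap.opNorm_le_bound _ (norm_nonneg _) fun η => ?_
  have hs : Tendsto (fun s : Finset I => ∑ i ∈ s, lp.single 2 i (η i)) atTop (𝓝 η) :=
    lp.hasSum_single (by simp) η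
  refine le_of_tendsto_of_tendsto' ((S.continuous.tendsto η).comp hs).norm
    (hs.norm.const_mul ‖T‖) fun s => ?_
  set ξ : Lq I p := ∑ i ∈ s, lp.single p i (η i) with hξ
  set ζ : Lq I 2 := ∑ i ∈ s, lp.single 2 i (η i) with hζ
  have e : ∀ x, ξ x = ζ x := fun x => by
    rw [hξ, hζ, lp.coeFn_sum, lp.coeFn_sum, Finset.sum_apply, Finset.sum_apply]
    simp [lp.single_apply]
  refine apply_le hS ζ (c := (∑ i ∈ s, ‖η i‖) * ‖ξ‖) (norm_nonneg _) fun m => ?_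
  conv_lhs => rw [hζ, sum_inner, ← hζ]
  refine (norm_sum_le _ _).trans ?_
  rw [Finset.sum_mul, Finset.sum_mul]
  refine Finset.sum_le_sum fun i _ => ?_
  rw [lp.inner_single_left, ← h.pow m ξ ζ e i, mul_assoc]
  refine (norm_inner_le_norm _ _).trans (mul_le_mul_of_nonneg_left ?_ (norm_nonneg _))
  have hp0 : p ≠ 0 := (zero_lt_one.trans_le (Fact.out : 1 ≤ p)).ne'
  refine (lp.norm_apply_le_norm hp0 _ i).trans (((T ^ m).le_opNorm ξ).trans ?_)
  rw [mul_comm]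
  refine mul_le_mul_of_nonneg_left ?_ (norm_nonneg _)
  rcases m with _ | m
  · rw [pow_zero, pow_zero]; exact ContinuousLinearMap.norm_id_le
  · exact norm_pow_le' T m.succ_pos

theorem Ag.norm_le {T T' : Op I p} {S : Op I 2} (h : Ag T S) (h' : Ag T' (star S)) :
    ‖S‖ ≤ max ‖T‖ ‖T'‖ := by
  have h1 := (h'.mul h).norm_sa (IsSelfAdjoint.star_mul_self S)
  have h2 : ‖star S * S‖ = ‖S‖ * ‖S‖ := ContinuousLinearMap.norm_adjoint_comp_self S
  rw [h2] at h1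
  have h3 : ‖T' * T‖ ≤ max ‖T‖ ‖T'‖ * max ‖T‖ ‖T'‖ := (norm_mul_le _ _).trans
    (mul_le_mul (le_max_right _ _) (le_max_left _ _) (norm_nonneg _) (by positivity))
  exact abs_le_of_sq_le_sq' (by nlinarith) (by positivity) |>.2

end Pool.Agent.P.MP_9167e9_an.L2
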