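import Pool.Agent.P.MP_9167e9_an.Det.PowerAbs

/-!
Kernels, multiplication and permutation operators on `ℓ^p`, the regular representation, and the
algebras `Bp`, `BpStar` as closures of the group ring.
-/

noncomputable section
open scoped ENNReal Classical
open Filter Topology

namespace Pool.Agent.P.MP_9167e9_an

variable {Z W : Type} {p : ℝ≥0∞} [Fact (1 ≤ p)]

theorem p_ne_zero : p ≠ 0 := (zero_lt_one.trans_le (Fact.out : 1 ≤ p)).ne'

theorem p_pos (hp : p ≠ ∞) : 0 < p.toReal := ENNReal.toReal_pos p_ne_zero hp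

/-! ### Kernels -/

/-- The matrix of an operator. -/
def ker (T : Op Z p) (i j : Z) : ℂ := T (lp.single p j 1) i

theorem ker_def (T : Op Z p) (i j : Z) : ker T i j = T (lp.single p j 1) i := rfl

theorem ker_add (S T : Op Z p) (i j : Z) : ker (S + T) i j = ker S i j + ker T i j := rfl

theorem ker_sub (S T : Op Z p) (i j : Z) : ker (S - T) i j = ker S i j - ker T i j := rfl

theorem ker_neg (T : Op Z p) (i j : Z) : ker (-T) i j = -ker T i j := rfl

theorem ker_smul (c : ℂ) (T : Op Z p) (i j : Z) : ker (c • T) i j = c * ker T i j := rfl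

theorem ker_zero (i j : Z) : ker (0 : Op Z p) i j = 0 := rfl

theorem ker_one (i j : Z) : ker (1 : Op Z p) i j = if i = j then 1 else 0 := by
  simp [ker, lp.single_apply, Pi.single_apply]

omit [Fact (1 ≤ p)] in
theorem single_app (j : Z) (c : ℂ) (i : Z) :
    (lp.single p j c : Lq Z p) i = if i = j then c else 0 := by
  simp [lp.single_apply, Pi.single_apply]

theorem norm_single_one (j : Z) : ‖(lp.single p j (1 : ℂ) : Lq Z p)‖ = 1 := by
  rw [lp.norm_single (pos_iff_ne_zero.2 p_ne_zero), norm_one]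

theorem norm_ker_le (T : Op Z p) (i j : Z) : ‖ker T i j‖ ≤ ‖T‖ := by
  refine (lp.norm_apply_le_norm p_ne_zero _ i).trans ((T.le_opNorm _).trans ?_)
  rw [norm_single_one, mul_one]

/-- The matrix entry as a continuous functional. -/
def kerL (p : ℝ≥0∞) [Fact (1 ≤ p)] (i j : Z) : Op Z p →L[ℂ] ℂ :=
  LinearMap.mkContinuous ⟨⟨fun T => ker T i j, fun _ _ => rfl⟩, fun _ _ => rfl⟩ 1
    fun T => by rw [one_mul]; exact norm_ker_le T i j

theorem kerL_apply (T : Op Z p) (i j : Z) : kerL p i j T = ker T i j := rfl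

theorem continuous_ker (i j : Z) : Continuous fun T : Op Z p => ker T i j := (kerL p i j).continuous

theorem ker_sum {I : Type} (s : Finset I) (T : I → Op Z p) (i j : Z) :
    ker (∑ a ∈ s, T a) i j = ∑ a ∈ s, ker (T a) i j := map_sum (kerL p i j) T s

theorem hasSum_ker (hp : p ≠ ∞) (T : Op Z p) (u : Lq Z p) (i : Z) :
    HasSum (fun j => ker T i j * u j) (T u i) := by
  have e : (fun j => ker T i j * u j) =
      fun j => ((lp.evalCLM ℂ (fun _ : Z => ℂ) p i).comp T) (lp.single p j (u j)) :=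
    funext fun j => by
      have : (lp.single p j (u j) : Lq Z p) = u j • lp.single p j (1 : ℂ) := by
        rw [← lp.single_smul, smul_eq_mul, mul_one]
      rw [this, map_smul, smul_eq_mul, mul_comm]
      rfl
  rw [e]
  exact (lp.hasSum_single hp u).mapL ((lp.evalCLM ℂ (fun _ : Z => ℂ) p i).comp T)

theorem ext_ker (hp : p ≠ ∞) {S T : Op Z p} (h : ∀ i j, ker S i j = ker T i j) : S = T := by
  ext u i
  refine (hasSum_ker hp S u i).unique ?_
  simp only [h]
  exact hasSum_ker hp T u i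

theorem hasSum_ker_mul (hp : p ≠ ∞) (S T : Op Z p) (i j : Z) :
    HasSum (fun k => ker S i k * ker T k j) (ker (S * T) i j) :=
  hasSum_ker hp S (T (lp.single p j 1)) i

/-! ### Composition with a map that has bounded fibres -/

/-- All fibres of `e` have at most `N` points. -/
def FibLe (e : W → Z) (N : ℕ) : Prop := ∀ (s : Finset W) (z : Z), (s.filter fun w => e w = z).card ≤ N

theorem fib_of_inj {e : W → Z} (h : Function.Injective e) : FibLe e 1 := fun _ _ =>
  Finset.card_le_one.2 fun _ ha _ hb =>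
    h ((Finset.mem_filter.1 ha).2.trans (Finset.mem_filter.1 hb).2.symm)

theorem comp_sum {e : W → Z} {N : ℕ} (h : FibLe e N) (hp : p ≠ ∞) (ξ : Lq Z p) (s : Finset W) :
    ∑ w ∈ s, ‖ξ (e w)‖ ^ p.toReal ≤ ((N : ℝ) ^ (1 / p.toReal) * ‖ξ‖) ^ p.toReal := by
  have hr := p_pos hp
  rw [Real.mul_rpow (by positivity) (norm_nonneg _), ← Real.rpow_mul (by positivity),
    one_div_mul_cancel hr.ne', Real.rpow_one,
    ← Finset.sum_fiberwise_of_maps_to (g := e) (t := s.image e)
      fun w hw => Finset.mem_image_of_mem e hw]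
  refine le_trans ?_ (mul_le_mul_of_nonneg_left (lp.sum_rpow_le_norm_rpow hr ξ (s.image e))
    (by positivity))
  rw [Finset.mul_sum]
  refine Finset.sum_le_sum fun z _ => ?_
  rw [Finset.sum_congr rfl fun w hw => by rw [(Finset.mem_filter.1 hw).2], Finset.sum_const,
    nsmul_eq_mul]
  exact mul_le_mul_of_nonneg_right (by exact_mod_cast h s z) (by positivity)

theorem comp_mem {e : W → Z} {N : ℕ} (h : FibLe e N) (ξ : Lq Z p) :
    Memℓp (fun w => ξ (e w)) p := by
  rcases eq_or_ne p ∞ with rfl | hp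
  · exact memℓp_infty ⟨‖ξ‖, by
      rintro _ ⟨w, rfl⟩
      exact lp.norm_apply_le_norm ENNReal.top_ne_zero ξ _⟩
  · exact memℓp_gen' (comp_sum h hp ξ)

theorem comp_norm {e : W → Z} {N : ℕ} (h : FibLe e N) (ξ : Lq Z p) (η : Lq W p)
    (hη : ∀ w, η w = ξ (e w)) : ‖η‖ ≤ (N : ℝ) ^ (1 / p.toReal) * ‖ξ‖ := by
  rcases eq_or_ne p ∞ with rfl | hp
  · refine lp.norm_le_of_forall_le (by positivity) fun w => ?_
    rw [hη]
    simpa using lp.norm_apply_le_norm ENNReal.top_ne_zero ξ (e w)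
  · refine lp.norm_le_of_forall_sum_le (p_pos hp) (by positivity) fun s => ?_
    simp only [hη]
    exact comp_sum h hp ξ s

variable (p) in
/-- The operator `ξ ↦ ξ ∘ e`. -/
def compOp {e : W → Z} {N : ℕ} (h : FibLe e N) : Lq Z p →L[ℂ] Lq W p :=
  LinearMap.mkContinuous
    ⟨⟨fun ξ => ⟨fun w => ξ (e w), comp_mem h ξ⟩, fun _ _ => rfl⟩, fun _ _ => rfl⟩
    ((N : ℝ) ^ (1 / p.toReal)) fun ξ => comp_norm h ξ _ fun _ => rfl

theorem compOp_apply {e : W → Z} {N : ℕ} (h : FibLe e N) (ξ : Lq Z p) (w : W) :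
    compOp p h ξ w = ξ (e w) := rfl

theorem norm_compOp_le {e : W → Z} {N : ℕ} (h : FibLe e N) :
    ‖compOp p h‖ ≤ (N : ℝ) ^ (1 / p.toReal) :=
  LinearMap.mkContinuous_norm_le _ (by positivity) _

/-! ### Permutation operators -/

variable (p) in
/-- The operator `δ_j ↦ δ_{σ j}`. -/
def permOp (σ : Equiv.Perm Z) : Op Z p := compOp p (fib_of_inj σ.symm.injective)

theorem permOp_apply (σ : Equiv.Perm Z) (ξ : Lq Z p) (i : Z) : permOp p σ ξ i = ξ (σ.symm i) := rfl

theorem permOp_one : permOp p (1 : Equiv.Perm Z) = 1 := rfl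

theorem permOp_mul (σ τ : Equiv.Perm Z) : permOp p (σ * τ) = permOp p σ * permOp p τ := rfl

theorem permOp_mul_inv (σ : Equiv.Perm Z) : permOp p σ * permOp p σ⁻¹ = 1 := by
  rw [← permOp_mul, mul_inv_cancel, permOp_one]

theorem permOp_inv_mul (σ : Equiv.Perm Z) : permOp p σ⁻¹ * permOp p σ = 1 := by
  rw [← permOp_mul, inv_mul_cancel, permOp_one]

theorem norm_permOp_le (σ : Equiv.Perm Z) : ‖permOp p σ‖ ≤ 1 := by
  refine (norm_compOp_le (p := p) (fib_of_inj σ.symm.injective)).trans ?_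
  simp

theorem permOp_single (σ : Equiv.Perm Z) (j : Z) (c : ℂ) :
    permOp p σ (lp.single p j c) = lp.single p (σ j) c := by
  ext i
  rw [permOp_apply, single_app, single_app]
  simp only [Equiv.symm_apply_eq]

theorem ker_permOp (σ : Equiv.Perm Z) (i j : Z) :
    ker (permOp p σ) i j = if σ j = i then 1 else 0 := by
  rw [ker, permOp_single, single_app]
  simp only [eq_comm]

theorem ker_permOp_mul (σ : Equiv.Perm Z) (T : Op Z p) (i j : Z) :
    ker (permOp p σ * T) i j = ker T (σ.symm i) j := rfl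

theorem ker_mul_permOp (σ : Equiv.Perm Z) (T : Op Z p) (i j : Z) :
    ker (T * permOp p σ) i j = ker T i (σ j) := by
  rw [ker, mul_apply_eq_comp, permOp_single]
  rfl

theorem permOp_comm_of_ker (hp : p ≠ ∞) (σ : Equiv.Perm Z) {T : Op Z p}
    (h : ∀ i j, ker T (σ i) (σ j) = ker T i j) : permOp p σ * T = T * permOp p σ :=
  ext_ker hp fun i j => by
    rw [ker_permOp_mul, ker_mul_permOp, ← h, Equiv.apply_symm_apply]

theorem ker_of_permOp_comm (σ : Equiv.Perm Z) {T : Op Z p}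
    (h : permOp p σ * T = T * permOp p σ) (i j : Z) : ker T (σ i) (σ j) = ker T i j := by
  rw [← ker_mul_permOp, ← h, ker_permOp_mul, Equiv.symm_apply_apply]

variable (Z p) in
/-- The permutation representation. -/
def permHom : Equiv.Perm Z →* Op Z p := ⟨⟨permOp p, permOp_one⟩, permOp_mul⟩

theorem permHom_apply (σ : Equiv.Perm Z) : permHom Z p σ = permOp p σ := rfl

/-! ### Multiplication operators -/

omit [Fact (1 ≤ p)] in
theorem mulOp_mem {c : Z → ℂ} {C : ℝ} (h : ∀ i, ‖c i‖ ≤ C) (ξ : Lq Z p) :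
    Memℓp (fun i => c i * ξ i) p :=
  (lp.memℓp ((C : ℂ) • ξ)).mono' fun i => by
    rw [lp.coeFn_smul, Pi.smul_apply, norm_smul, norm_mul, Complex.norm_real]
    exact mul_le_mul_of_nonneg_right ((h i).trans (le_abs_self C)) (norm_nonneg _)

theorem mulOp_norm {c : Z → ℂ} {C : ℝ} (hC : 0 ≤ C) (h : ∀ i, ‖c i‖ ≤ C) (ξ η : Lq Z p)
    (hη : ∀ i, η i = c i * ξ i) : ‖η‖ ≤ C * ‖ξ‖ := by
  have : ‖η‖ ≤ ‖(C : ℂ) • ξ‖ := lp.norm_mono p_ne_zero fun i => by
    rw [hη, lp.coeFn_smul, Pi.smul_apply, norm_smul, norm_mul, Complex.norm_real]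
    exact mul_le_mul_of_nonneg_right ((h i).trans (le_abs_self C)) (norm_nonneg _)
  rwa [norm_smul, Complex.norm_real, Real.norm_of_nonneg hC] at this

variable (p) in
/-- Multiplication by a bounded function (and `0` for an unbounded one). -/
def mulOp (c : Z → ℂ) : Op Z p :=
  if h : ∃ C : ℝ, ∀ i, ‖c i‖ ≤ C then
    LinearMap.mkContinuous
      ⟨⟨fun ξ => ⟨fun i => c i * ξ i, mulOp_mem h.choose_spec ξ⟩,
        fun ξ η => lp.ext (funext fun i => mul_add (c i) (ξ i) (η i))⟩,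
        fun a ξ => lp.ext (funext fun i => mul_left_comm (c i) a (ξ i))⟩ |h.choose|
      fun ξ => mulOp_norm (abs_nonneg _) (fun i => (h.choose_spec i).trans (le_abs_self _)) ξ _
        fun _ => rfl
  else 0

section mul
variable {c c' : Z → ℂ} {C C' : ℝ}

theorem mulOp_apply (h : ∀ i, ‖c i‖ ≤ C) (ξ : Lq Z p) (i : Z) : mulOp p c ξ i = c i * ξ i := by
  rw [mulOp, dif_pos ⟨C, h⟩]
  rfl

theorem norm_mulOp_le (hC : 0 ≤ C) (h : ∀ i, ‖c i‖ ≤ C) : ‖mulOp p c‖ ≤ C :=
  ContinuousLinearMap.opNorm_le_bound _ hC fun ξ => mulOp_norm hC h ξ _ (mulOp_apply h ξ)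

theorem mulOp_mul (h : ∀ i, ‖c i‖ ≤ C) (h' : ∀ i, ‖c' i‖ ≤ C') :
    mulOp p c * mulOp p c' = mulOp p fun i => c i * c' i := by
  ext ξ i
  rw [mul_apply_eq_comp, mulOp_apply h, mulOp_apply h',
    mulOp_apply (C := C * C') fun i => by
      rw [norm_mul]
      exact mul_le_mul (h i) (h' i) (norm_nonneg _) ((norm_nonneg _).trans (h i)), mul_assoc]

theorem mulOp_add (h : ∀ i, ‖c i‖ ≤ C) (h' : ∀ i, ‖c' i‖ ≤ C') :
    mulOp p c + mulOp p c' = mulOp p fun i => c i + c' i := by
  ext ξ i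
  rw [mulOp_apply (C := C + C') fun i => (norm_add_le _ _).trans (add_le_add (h i) (h' i)),
    add_mul, ← mulOp_apply h, ← mulOp_apply h']
  rfl

theorem mulOp_sub (h : ∀ i, ‖c i‖ ≤ C) (h' : ∀ i, ‖c' i‖ ≤ C') :
    mulOp p c - mulOp p c' = mulOp p fun i => c i - c' i := by
  ext ξ i
  rw [mulOp_apply (C := C + C') fun i => (norm_sub_le _ _).trans (add_le_add (h i) (h' i)),
    sub_mul, ← mulOp_apply h, ← mulOp_apply h']
  rfl

theorem mulOp_const (a : ℂ) : mulOp p (fun _ : Z => a) = a • 1 := by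
  ext ξ i
  rw [mulOp_apply (C := ‖a‖) fun _ => le_rfl]
  rfl

theorem mulOp_one : mulOp p (fun _ : Z => (1 : ℂ)) = 1 := by rw [mulOp_const, one_smul]

theorem mulOp_mul_eq_one (h : ∀ i, ‖c i‖ ≤ C) (h' : ∀ i, ‖c' i‖ ≤ C') (e : ∀ i, c i * c' i = 1) :
    mulOp p c * mulOp p c' = 1 := by
  rw [mulOp_mul h h', funext e, mulOp_one]

theorem mulOp_single (h : ∀ i, ‖c i‖ ≤ C) (j : Z) (a : ℂ) :
    mulOp p c (lp.single p j a) = c j • lp.single p j a := by
  ext i
  rw [mulOp_apply h, lp.coeFn_smul, Pi.smul_apply, single_app]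
  split_ifs with e
  · rw [e, smul_eq_mul]
  · simp

theorem ker_mulOp_mul (h : ∀ i, ‖c i‖ ≤ C) (T : Op Z p) (i j : Z) :
    ker (mulOp p c * T) i j = c i * ker T i j := mulOp_apply h _ i

theorem ker_mul_mulOp (h : ∀ i, ‖c i‖ ≤ C) (T : Op Z p) (i j : Z) :
    ker (T * mulOp p c) i j = ker T i j * c j := by
  rw [ker, mul_apply_eq_comp, mulOp_single h, map_smul, lp.coeFn_smul, Pi.smul_apply,
    smul_eq_mul, mul_comm]
  rfl

theorem ker_mulOp (h : ∀ i, ‖c i‖ ≤ C) (i j : Z) :
    ker (mulOp p c) i j = if i = j then c i else 0 := by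
  rw [← mul_one (mulOp p c), ker_mulOp_mul h, ker_one]
  split_ifs <;> simp

theorem permOp_mul_mulOp (h : ∀ i, ‖c i‖ ≤ C) (σ : Equiv.Perm Z) :
    permOp p σ * mulOp p c = mulOp p (fun i => c (σ.symm i)) * permOp p σ := by
  ext ξ i
  rw [mul_apply_eq_comp, mul_apply_eq_comp, permOp_apply, mulOp_apply h,
    mulOp_apply fun i => h _, permOp_apply]

theorem mulOp_neg (h : ∀ i, ‖c i‖ ≤ C) : mulOp p (fun i => -c i) = -mulOp p c := by
  ext ξ i
  rw [mulOp_apply (C := C) fun i => by rw [norm_neg]; exact h i, neg_mul, ← mulOp_apply h]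
  rfl

/-- A function that is odd under `σ` anticommutes with `σ`. -/
theorem permOp_anti (h : ∀ i, ‖c i‖ ≤ C) (σ : Equiv.Perm Z) (e : ∀ i, c (σ i) = -c i) :
    permOp p σ * mulOp p c = -(mulOp p c * permOp p σ) := by
  have : (fun i => c (σ.symm i)) = fun i => -c i := funext fun i => by
    rw [← neg_neg (c (σ.symm i)), ← e, Equiv.apply_symm_apply]
  rw [permOp_mul_mulOp h, this, mulOp_neg h, neg_mul]

end mul

/-! ### Representations of group rings -/

section rep
variable {L : Type} [Group L]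

variable (p) in
/-- The representation of the group ring given by an action. -/
def rep (α : L →* Equiv.Perm Z) : MonoidAlgebra ℂ L →ₐ[ℂ] Op Z p :=
  MonoidAlgebra.lift ℂ (Op Z p) L ((permHom Z p).comp α)

theorem rep_single (α : L →* Equiv.Perm Z) (f : L) (c : ℂ) :
    rep p α (MonoidAlgebra.single f c) = c • permOp p (α f) := MonoidAlgebra.lift_single _ _ _

theorem rep_eq (α : L →* Equiv.Perm Z) (y : MonoidAlgebra ℂ L) :
    rep p α y = ∑ f ∈ y.coeff.support, y.coeff f • permOp p (α f) :=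
  MonoidAlgebra.lift_apply _ _

theorem rep_apply (α : L →* Equiv.Perm Z) (y : MonoidAlgebra ℂ L) (ξ : Lq Z p) (w : Z) :
    rep p α y ξ w = y.coeff.sum fun f c => c * ξ (α f⁻¹ w) := by
  rw [rep_eq, sum_apply, lp.coeFn_sum, Finset.sum_apply, Finsupp.sum]
  refine Finset.sum_congr rfl fun f _ => ?_
  rw [map_inv]
  rfl

theorem ker_rep (α : L →* Equiv.Perm Z) (y : MonoidAlgebra ℂ L) (w w' : Z) :
    ker (rep p α y) w w' = kr α y w w' := by
  rw [rep_eq, ker_sum, kr, Finsupp.sum]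
  refine Finset.sum_congr rfl fun f _ => ?_
  rw [ker_smul, ker_permOp]
  split_ifs <;> simp

theorem norm_rep_le (α : L →* Equiv.Perm Z) (y : MonoidAlgebra ℂ L) : ‖rep p α y‖ ≤ Gau.l1 y := by
  rw [rep_eq, Gau.l1]
  refine (norm_sum_le _ _).trans (Finset.sum_le_sum fun f _ => ?_)
  rw [norm_smul]
  exact mul_le_of_le_one_right (norm_nonneg _) (norm_permOp_le _)

theorem rep_mapDomain {G : Type} [Group G] (ρ : L →* G) (α : G →* Equiv.Perm Z)
    (y : MonoidAlgebra ℂ L) : rep p α (MonoidAlgebra.mapDomain ρ y) = rep p (α.comp ρ) y := by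
  induction y using MonoidAlgebra.induction_linear with
  | zero => simp
  | add a b ha hb => rw [MonoidAlgebra.mapDomain_add, map_add, map_add, ha, hb]
  | single f c => simp [rep_single]

theorem permOp_comm_rep (α : L →* Equiv.Perm Z) (σ : Equiv.Perm Z) (h : ∀ f w, σ (α f w) = α f (σ w))
    (y : MonoidAlgebra ℂ L) : permOp p σ * rep p α y = rep p α y * permOp p σ := by
  rw [rep_eq, Finset.mul_sum, Finset.sum_mul]
  refine Finset.sum_congr rfl fun f _ => ?_
  rw [mul_smul_comm, smul_mul_assoc, ← permOp_mul, ← permOp_mul,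
    show σ * α f = α f * σ from Equiv.ext (h f)]

end rep

/-! ### The regular representation -/

end Pool.Agent.P.MP_9167e9_an

namespace Pool.Agent.P.MP_9167e9_an

variable {G : Type} [Group G] {p : ℝ≥0∞} [Fact (1 ≤ p)]

variable (G p) in
/-- The left regular representation of the group ring. -/
def lam : MonoidAlgebra ℂ G →ₐ[ℂ] Op G p := rep p (MulAction.toPermHom G G)

theorem isConv_lam (y : MonoidAlgebra ℂ G) : IsConv y.coeff (lam G p y) :=
  fun ξ x => rep_apply _ y ξ x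

theorem IsConv.unique {f : G →₀ ℂ} {S T : Op G p} (h : IsConv f S) (h' : IsConv f T) : S = T := by
  ext ξ x
  rw [h, h']

theorem isConv_iff {f : G →₀ ℂ} {T : Op G p} : IsConv f T ↔ T = lam G p (.ofCoeff f) :=
  ⟨fun h => h.unique (isConv_lam (.ofCoeff f)), fun h => h ▸ isConv_lam (.ofCoeff f)⟩

theorem IsConv.eq_lam {y : MonoidAlgebra ℂ G} {T : Op G p} (h : IsConv y.coeff T) :
    T = lam G p y := h.unique (isConv_lam y)

theorem isConv_lam_sta (y : MonoidAlgebra ℂ G) : IsConv (invol y.coeff) (lam G p (Gau.sta y)) :=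
  isConv_lam (Gau.sta y)

theorem isConv_lam_map {L : Type} [Group L] (ρ : L →* G) (y : MonoidAlgebra ℂ L) :
    IsConv (y.coeff.mapDomain ρ) (lam G p (MonoidAlgebra.mapDomain ρ y)) :=
  isConv_lam (MonoidAlgebra.mapDomain ρ y)

theorem ker_lam (y : MonoidAlgebra ℂ G) (g g' : G) : ker (lam G p y) g g' = y.coeff (g * g'⁻¹) := by
  rw [lam, ker_rep, kr]
  have : (fun (f : G) (c : ℂ) => if MulAction.toPermHom G G f g' = g then c else 0) =
      fun f c => if f = g * g'⁻¹ then c else 0 := by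
    funext f c
    simp [eq_mul_inv_iff_mul_eq]
  rw [this, Finsupp.sum_ite_eq']
  split_ifs with h
  · rfl
  · exact (Finsupp.notMem_support_iff.1 h).symm

theorem norm_lam_le (y : MonoidAlgebra ℂ G) : ‖lam G p y‖ ≤ Gau.l1 y := norm_rep_le _ y

theorem mem_Bp {T : Op G p} : T ∈ Bp G p ↔ T ∈ closure (Set.range (lam G p)) := by
  have : Subring.closure {T : Op G p | ∃ f : G →₀ ℂ, IsConv f T} = (lam G p).toRingHom.range := by
    refine le_antisymm (Subring.closure_le.2 ?_) ?_
    · rintro T ⟨f, h⟩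
      exact ⟨.ofCoeff f, (isConv_iff.1 h).symm⟩
    · rintro _ ⟨y, rfl⟩
      exact Subring.subset_closure ⟨y.coeff, isConv_lam y⟩
  rw [Bp, this]
  rfl

variable (G p) in
/-- The pair `(λ(y), λ(y^*))`. -/
def lamP : MonoidAlgebra ℂ G →+* Op G p × (Op G p)ᵐᵒᵖ where
  toFun y := (lam G p y, MulOpposite.op (lam G p (Gau.sta y)))
  map_one' := by rw [Gau.sta_one, map_one]; rfl
  map_mul' a b := by rw [Gau.sta_mul, map_mul, map_mul]; rfl
  map_zero' := by rw [Gau.sta_zero, map_zero]; rfl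
  map_add' a b := by rw [Gau.sta_add, map_add, map_add]; rfl

theorem lamP_apply (y : MonoidAlgebra ℂ G) :
    lamP G p y = (lam G p y, MulOpposite.op (lam G p (Gau.sta y))) := rfl

theorem norm_lamP (y : MonoidAlgebra ℂ G) :
    ‖lamP G p y‖ = max ‖lam G p y‖ ‖lam G p (Gau.sta y)‖ := rfl

theorem mem_BpStar {z : Op G p × (Op G p)ᵐᵒᵖ} :
    z ∈ BpStar G p ↔ z ∈ closure (Set.range (lamP G p)) := by
  have : Subring.closure {z : Op G p × (Op G p)ᵐᵒᵖ |
      ∃ f : G →₀ ℂ, IsConv f z.1 ∧ IsConv (invol f) z.2.unop} = (lamP G p).range := by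
    refine le_antisymm (Subring.closure_le.2 ?_) ?_
    · rintro ⟨S, T⟩ ⟨f, h, h'⟩
      refine ⟨.ofCoeff f, Prod.ext (isConv_iff.1 h).symm ?_⟩
      exact MulOpposite.unop_injective (h'.unique (isConv_lam_sta (.ofCoeff f))).symm
    · rintro _ ⟨y, rfl⟩
      exact Subring.subset_closure ⟨y.coeff, isConv_lam y, isConv_lam_sta y⟩
  rw [BpStar, this]
  rfl

theorem lam_mem (y : MonoidAlgebra ℂ G) : lam G p y ∈ Bp G p := mem_Bp.2 (subset_closure ⟨y, rfl⟩)

theorem lamP_mem (y : MonoidAlgebra ℂ G) : lamP G p y ∈ BpStar G p :=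
  mem_BpStar.2 (subset_closure ⟨y, rfl⟩)

variable (G p) in
/-- The group ring inside `Bp`. -/
def lamB : MonoidAlgebra ℂ G →+* Bp G p := (lam G p).toRingHom.codRestrict _ lam_mem

variable (G p) in
/-- The group ring inside `BpStar`. -/
def lamS : MonoidAlgebra ℂ G →+* BpStar G p := (lamP G p).codRestrict _ lamP_mem

theorem coe_lamB (y : MonoidAlgebra ℂ G) : (lamB G p y : Op G p) = lam G p y := rfl

theorem coe_lamS (y : MonoidAlgebra ℂ G) :
    (lamS G p y : Op G p × (Op G p)ᵐᵒᵖ) = lamP G p y := rfl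

theorem iota_lamS (y : MonoidAlgebra ℂ G) : iota G p (lamS G p y) = lamB G p y := rfl

theorem coe_iota (z : BpStar G p) : (iota G p z : Op G p) = z.1.1 := rfl

theorem norm_iota_le (z : BpStar G p) : ‖iota G p z‖ ≤ ‖z‖ := norm_fst_le z.1

theorem continuous_iota : Continuous (iota G p) :=
  (continuous_fst.comp continuous_subtype_val).subtype_mk _

theorem denseRange_lamB : DenseRange (lamB G p) := fun T => by
  rw [closure_subtype, ← Set.range_comp]
  exact mem_Bp.1 T.2

theorem denseRange_lamS : DenseRange (lamS G p) := fun z => by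
  rw [closure_subtype, ← Set.range_comp]
  exact mem_BpStar.1 z.2

theorem isClosed_Bp : IsClosed (Bp G p : Set (Op G p)) := isClosed_closure

theorem isClosed_BpStar : IsClosed (BpStar G p : Set (Op G p × (Op G p)ᵐᵒᵖ)) := isClosed_closure

instance : CompleteSpace (Bp G p) := isClosed_Bp.completeSpace_coe

instance : CompleteSpace (BpStar G p) := isClosed_BpStar.completeSpace_coe

theorem smul_mem_Bp (c : ℂ) {T : Op G p} (h : T ∈ Bp G p) : c • T ∈ Bp G p := by
  have := (Bp G p).mul_mem (lam_mem (algebraMap ℂ _ c)) h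
  rwa [AlgHom.commutes, ← Algebra.smul_def] at this

/-- A closed property of the convolution operators holds on `Bp`. -/
theorem Bp_ind {P : Op G p → Prop} (hc : IsClosed {T | P T}) (h : ∀ y, P (lam G p y)) {T : Op G p}
    (hT : T ∈ Bp G p) : P T :=
  closure_minimal (s := Set.range (lam G p)) (by rintro _ ⟨y, rfl⟩; exact h y) hc (mem_Bp.1 hT)

/-- Right translation: `(rt a ξ) g = ξ (g a)`. -/
def rt (p : ℝ≥0∞) [Fact (1 ≤ p)] (a : G) : Op G p := permOp p (Equiv.mulRight a⁻¹)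

theorem rt_apply (a : G) (ξ : Lq G p) (g : G) : rt p a ξ g = ξ (g * a) := by
  rw [rt, permOp_apply]
  simp

theorem norm_rt_le (a : G) : ‖rt p a‖ ≤ 1 := norm_permOp_le _

theorem rt_comm (a : G) {T : Op G p} (hT : T ∈ Bp G p) : rt p a * T = T * rt p a :=
  Bp_ind (P := fun T => rt p a * T = T * rt p a)
    (isClosed_eq (continuous_const.mul continuous_id) (continuous_id.mul continuous_const))
    (fun y => permOp_comm_rep _ _ (fun f w => by simp [mul_assoc]) y) hT

theorem ker_right (a : G) {T : Op G p} (hT : T ∈ Bp G p) (g g' : G) :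
    ker T (g * a) (g' * a) = ker T g g' := by
  have := ker_of_permOp_comm (Equiv.mulRight a⁻¹⁻¹) (rt_comm a⁻¹ hT) g g'
  simpa using this

end Pool.Agent.P.MP_9167e9_an
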