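import Pool.Agent.P.MP_9167e9_an.Det.Twist
import Pool.Agent.P.MP_9167e9_an.Det.Hom

/-!
The twisted operators are asymptotically contractive.
-/

noncomputable section
open scoped ENNReal Classical
open Filter Topology

namespace Pool.Agent.P.MP_9167e9_an.Gau

section conv
variable {L G : Type} [Group L] [Group G] {q : ℝ≥0∞} [Fact (1 ≤ q)]

theorem conv_unique {f : G →₀ ℂ} {S T : Op G q} (h : IsConv f S) (h' : IsConv f T) : S = T := by
  ext ξ x
  rw [h, h']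

theorem exists_lift {ρ : L →* G} (hρ : Function.Surjective ρ) (f : G →₀ ℂ) :
    ∃ y : MonoidAlgebra ℂ L, y.coeff.mapDomain ρ = f := by
  obtain ⟨g, hg⟩ := Finsupp.mapDomain_surjective (M := ℂ) hρ f
  exact ⟨.ofCoeff g, hg⟩

/-- The left regular action through `ρ`. -/
def lact (ρ : L →* G) : L →* Equiv.Perm G := (MulAction.toPermHom G G).comp ρ

theorem rep_conv (ρ : L →* G) (y : MonoidAlgebra ℂ L) :
    IsConv (y.coeff.mapDomain ρ) (rep (lact ρ) y) := fun ξ x => by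
  rw [rep_apply, Finsupp.sum_mapDomain_index (by simp) (fun _ _ _ => add_mul _ _ _)]
  simp [Finsupp.sum, lact]

/-- The regular representation with values in `Bp G 2`. -/
def lamB (ρ : L →* G) : MonoidAlgebra ℂ L →+* Bp G 2 :=
  (rep (lact ρ)).toRingHom.codRestrict (Bp G 2) fun y => Avg.conv_mem (rep_conv ρ y)

theorem lamB_dense {ρ : L →* G} (hρ : Function.Surjective ρ) : DenseRange (lamB ρ) := fun z => by
  refine Avg.Bp_ind (lamB ρ).range.topologicalClosure (Subring.isClosed_topologicalClosure _)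
    (fun z f hf => ?_) z
  obtain ⟨y, rfl⟩ := exists_lift hρ f
  exact Subring.le_topologicalClosure _ ⟨y, Subtype.ext (conv_unique (rep_conv ρ y) hf)⟩

end conv

section loc
variable {Gen Z : Type} {α : FreeGroup Gen →* Equiv.Perm Z} {io : Z → Z} {R : ℕ}
  (loc : Loc α io R) (φ : ℝ)

theorem TwL_mul {y y' : MonoidAlgebra ℂ (FreeGroup Gen)} (h : Bl (2 * R) y) (h' : Bl (2 * R) y') :
    Tw α (om loc) φ (y * y') = Tw α (om loc) φ y * Tw α (om loc) φ y' :=
  Tw_mul φ fun f hf g hg _ => om_add (cl_app g (h' g hg) _) (cl_app f (h f hf) _)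

theorem TwL_sta {y : MonoidAlgebra ℂ (FreeGroup Gen)} (h : Bl (2 * R) y) :
    Tw α (om loc) φ (sta y) = star (Tw α (om loc) φ y) :=
  Tw_sta φ fun f hf _ => om_neg (cl_app f (h f hf) _)

theorem TwL_norm {y : MonoidAlgebra ℂ (FreeGroup Gen)} {Cn : ℝ} (hC : 0 ≤ Cn)
    (h : ∀ Λ : ℝ, FB (kr α y) Λ → ∀ φ : ℝ,
      FB (tw (fun w w' => loc.Ht (loc.p w) (loc.p w')) φ (kr α y)) (Cn * Λ)) :
    ‖Tw α (om loc) φ y‖ ≤ Cn * ‖rep α y‖ := by
  have h1 := FB_norm (rep α y)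
  simp only [rep_ker] at h1
  have h2 := FB.phase (h _ h1 φ)
    (a := fun w => Complex.exp ((φ * beta loc w : ℝ) * Complex.I))
    (b := fun w => Complex.exp ((-(φ * beta loc w) : ℝ) * Complex.I))
    (fun _ => Complex.norm_exp_ofReal_mul_I _) (fun _ => Complex.norm_exp_ofReal_mul_I _)
  refine norm_le_of_FB (by positivity) ?_
  convert h2 using 3 with w w'
  rw [Tw_ker, tw, ph, om, mul_comm (Complex.exp _), mul_assoc, mul_assoc, ← Complex.exp_add,
    ← Complex.exp_add]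
  congr 2
  push_cast; ring

end loc

/-- The power trick for the stages of the construction. -/
theorem power (Gen : Type) [Fintype Gen] :
    ∃ Y : ℕ → ℕ → Finset (MonoidAlgebra ℂ (FreeGroup Gen)),
    (∀ n r, (Y n r).card ≤ n + 1) ∧ (∀ n r, ∀ y ∈ Y n r, ∀ f ∈ y.coeff.support, nr f ≤ r) ∧
    ∀ (p : ℝ≥0∞) [Fact (1 ≤ p)] (x : MonoidAlgebra ℂ (FreeGroup Gen)) (G : Type) [Group G]
      (ρ : FreeGroup Gen →* G) (R : ℕ → ℕ)
      (S : ∀ n, Stage p ρ x (R n) (Y n (R n)) (Real.exp (R n / (n + 1) ^ 2))),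
      (∀ n, 4 * (n + 1) ≤ R n) →
      (∀ n y, ‖rep (actQ ρ (S n).A) y‖ ≤ ‖rep (lact ρ) y‖) →
      ∀ y ε, 0 < ε → ∀ᶠ n in atTop, ∀ φ,
        ‖Tw (actQ ρ (S n).A) (om (S n).loc) φ y‖ ≤ ‖rep (lact ρ) y‖ + ε := by
  obtain ⟨Y, h1, h2, h3⟩ := power_abs (Gen := Gen)
  refine ⟨Y, h1, h2, fun p _ x G _ ρ R S hR hd => ?_⟩
  refine h3 R (fun n => Op (G ⧸ (S n).A) 2) (Op G 2) ℝ
    (fun n φ => Tw (actQ ρ (S n).A) (om (S n).loc) φ) (rep (lact ρ)) hR (rep_sta _)
    (fun y => norm_Tw _ _ _ y) (fun n φ y => norm_Tw _ _ _ y)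
    (fun n φ y y' a b => TwL_mul _ φ (a.mono (by omega)) (b.mono (by omega)))
    (fun n φ y a => TwL_sta _ φ (a.mono (by omega))) fun n φ y hy => ?_
  exact (TwL_norm _ φ (Real.exp_pos _).le ((S n).twist y hy)).trans
    (mul_le_mul_of_nonneg_left (hd n y) (Real.exp_pos _).le)

end Pool.Agent.P.MP_9167e9_an.Gau
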