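import Pool.Agent.P.MP_9167e9_an.Det.Gauge

/-!
The power trick in abstract form, and the involution and `ℓ¹` norm of a group ring.
-/

noncomputable section
open scoped Classical
open Filter Topology

namespace Pool.Agent.P.MP_9167e9_an.Gau

section star
variable {L : Type} [Group L]

/-- The involution of the group ring. -/
def sta (y : MonoidAlgebra ℂ L) : MonoidAlgebra ℂ L := .ofCoeff (invol y.coeff)

theorem sta_coeff (y : MonoidAlgebra ℂ L) (f : L) :
    (sta y).coeff f = starRingEnd ℂ (y.coeff f⁻¹) := by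
  simp [sta, invol]

theorem sta_add (y y' : MonoidAlgebra ℂ L) : sta (y + y') = sta y + sta y' := by
  ext f; simp [sta_coeff]

theorem sta_zero : sta (0 : MonoidAlgebra ℂ L) = 0 := by
  ext f; simp [sta_coeff]

theorem sta_sub (y y' : MonoidAlgebra ℂ L) : sta (y - y') = sta y - sta y' := by
  ext f; simp [sta_coeff]

theorem sta_smul (c : ℂ) (y : MonoidAlgebra ℂ L) : sta (c • y) = starRingEnd ℂ c • sta y := by
  ext f; simp [sta_coeff]

theorem sta_sta (y : MonoidAlgebra ℂ L) : sta (sta y) = y := by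
  ext f; simp [sta_coeff]

theorem sta_single (f : L) (c : ℂ) :
    sta (MonoidAlgebra.single f c) = MonoidAlgebra.single f⁻¹ (starRingEnd ℂ c) := by
  ext g
  simp only [sta_coeff, MonoidAlgebra.coeff_single, Finsupp.single_apply]
  by_cases h : f = g⁻¹
  · subst h; simp
  · rw [if_neg h, if_neg (fun h' => h (by rw [← h']; simp))]; simp

theorem sta_one : sta (1 : MonoidAlgebra ℂ L) = 1 := by
  rw [MonoidAlgebra.one_def, sta_single]; simp

theorem sta_mul (y y' : MonoidAlgebra ℂ L) : sta (y * y') = sta y' * sta y := by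
  induction y using MonoidAlgebra.induction_linear with
  | zero => simp [sta_zero]
  | add a b ha hb => rw [add_mul, sta_add, sta_add, ha, hb, mul_add]
  | single f c =>
    induction y' using MonoidAlgebra.induction_linear with
    | zero => simp [sta_zero]
    | add a b ha hb => rw [mul_add, sta_add, sta_add, ha, hb, add_mul]
    | single g d => simp [MonoidAlgebra.single_mul_single, sta_single, mul_comm]

theorem sta_mapDomain {G : Type} [Group G] (ρ : L →* G) (y : MonoidAlgebra ℂ L) :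
    sta (MonoidAlgebra.mapDomain ρ y) = MonoidAlgebra.mapDomain ρ (sta y) := by
  induction y using MonoidAlgebra.induction_linear with
  | zero => simp [sta_zero]
  | add a b ha hb => rw [MonoidAlgebra.mapDomain_add, sta_add, sta_add, ha, hb,
      MonoidAlgebra.mapDomain_add]
  | single f c => simp [sta_single]

omit [Group L] in
/-- The `ℓ¹` norm. -/
def l1 (y : MonoidAlgebra ℂ L) : ℝ := ∑ f ∈ y.coeff.support, ‖y.coeff f‖

omit [Group L] in
theorem l1_nonneg (y : MonoidAlgebra ℂ L) : 0 ≤ l1 y := Finset.sum_nonneg fun _ _ => norm_nonneg _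

omit [Group L] in
theorem l1_eq (y : MonoidAlgebra ℂ L) {s : Finset L} (h : y.coeff.support ⊆ s) :
    l1 y = ∑ f ∈ s, ‖y.coeff f‖ :=
  Finset.sum_subset h fun f _ hf => by simpa using hf

omit [Group L] in
/-- A linear map that is contractive on point masses is `ℓ¹`-contractive. -/
theorem norm_le_l1 {E : Type} [SeminormedAddCommGroup E] [NormedSpace ℂ E]
    (T : MonoidAlgebra ℂ L →ₗ[ℂ] E) (y : MonoidAlgebra ℂ L) {K : ℝ}
    (h : ∀ f ∈ y.coeff.support, ‖T (MonoidAlgebra.single f 1)‖ ≤ K) : ‖T y‖ ≤ K * l1 y := by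
  have e : y = ∑ f ∈ y.coeff.support, y.coeff f • MonoidAlgebra.single f (1 : ℂ) := by
    conv_lhs => rw [← MonoidAlgebra.sum_coeff_single y]
    simp [Finsupp.sum]
  conv_lhs => rw [e, map_sum]
  refine (norm_sum_le _ _).trans ?_
  rw [l1, Finset.mul_sum]
  refine Finset.sum_le_sum fun f hf => ?_
  rw [map_smul, norm_smul, mul_comm]
  exact mul_le_mul_of_nonneg_right (h f hf) (norm_nonneg _)

end star

variable {Gen : Type}

/-- The support of `y` lies in the ball of radius `r`. -/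
def Bl (r : ℕ) (y : MonoidAlgebra ℂ (FreeGroup Gen)) : Prop := ∀ f ∈ y.coeff.support, nr f ≤ r

theorem Bl.mono {r s : ℕ} {y : MonoidAlgebra ℂ (FreeGroup Gen)} (h : Bl r y) (hs : r ≤ s) :
    Bl s y := fun f hf => (h f hf).trans hs

theorem Bl.mul {r s : ℕ} {y y' : MonoidAlgebra ℂ (FreeGroup Gen)} (h : Bl r y) (h' : Bl s y') :
    Bl (r + s) (y * y') := fun f hf => by
  obtain ⟨a, ha, b, hb, rfl⟩ := Finset.mem_mul.1 (MonoidAlgebra.support_coeff_mul_subset y y' hf)
  exact (nr_mul a b).trans (add_le_add (h a ha) (h' b hb))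

theorem Bl.sta {r : ℕ} {y : MonoidAlgebra ℂ (FreeGroup Gen)} (h : Bl r y) : Bl r (sta y) :=
  fun f hf => by
    rw [← nr_inv]
    refine h _ ?_
    rw [Finsupp.mem_support_iff] at hf ⊢
    intro h0
    exact hf (by rw [sta_coeff, h0]; simp)

theorem Bl.add {r : ℕ} {y y' : MonoidAlgebra ℂ (FreeGroup Gen)} (h : Bl r y) (h' : Bl r y') :
    Bl r (y + y') := fun f hf => by
  rcases Finset.mem_union.1 (Finsupp.support_add hf) with h1 | h1
  exacts [h f h1, h' f h1]

theorem bl_single {r : ℕ} {f : FreeGroup Gen} (h : nr f ≤ r) (c : ℂ) :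
    Bl r (MonoidAlgebra.single f c) := fun g hg => by
  rw [Finset.mem_singleton.1 (Finsupp.support_single_subset hg)]; exact h

theorem bl_one (r : ℕ) : Bl r (1 : MonoidAlgebra ℂ (FreeGroup Gen)) :=
  bl_single (by simp [nr_one]) 1

theorem Bl.pow {r : ℕ} {y : MonoidAlgebra ℂ (FreeGroup Gen)} (h : Bl r y) (m : ℕ) :
    Bl (m * r) (y ^ m) := by
  induction m with
  | zero => simpa using bl_one 0
  | succ m ih => rw [pow_succ, add_mul, one_mul]; exact ih.mul h

theorem exists_bl (y : MonoidAlgebra ℂ (FreeGroup Gen)) : ∃ r, Bl r y :=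
  ⟨y.coeff.support.sup nr, fun _ hf => Finset.le_sup (f := nr) hf⟩

/-- A countable family approximating every element in `ℓ¹`, without enlarging supports. -/
theorem exists_dense [Countable Gen] : ∃ e : ℕ → MonoidAlgebra ℂ (FreeGroup Gen),
    ∀ (y : MonoidAlgebra ℂ (FreeGroup Gen)) (ε : ℝ), 0 < ε →
      ∃ i, (e i).coeff.support ⊆ y.coeff.support ∧ l1 (y - e i) ≤ ε := by
  obtain ⟨d, hd⟩ := TopologicalSpace.exists_dense_seq ℂ
  obtain ⟨en, hen⟩ := exists_surjective_nat (List (FreeGroup Gen × ℕ))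
  refine ⟨fun i => ((en i).map fun x => MonoidAlgebra.single x.1 (d x.2)).sum, fun y ε hε => ?_⟩
  set s := y.coeff.support with hs
  have hδ : 0 < ε / (s.card + 1) := by positivity
  choose k hk using fun f => hd.exists_dist_lt (y.coeff f) hδ
  obtain ⟨i, hi⟩ := hen (s.toList.map fun f => (f, k f))
  have he : ((en i).map fun x => MonoidAlgebra.single x.1 (d x.2)).sum =
      ∑ f ∈ s, MonoidAlgebra.single f (d (k f)) := by
    rw [hi, List.map_map, ← Finset.sum_map_toList]; rfl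
  have hc : ∀ g, (∑ f ∈ s, MonoidAlgebra.single f (d (k f)) :
      MonoidAlgebra ℂ (FreeGroup Gen)).coeff g = if g ∈ s then d (k g) else 0 := fun g => by
    simp [Finsupp.single_apply, Finset.sum_apply']
  have hsub : (∑ f ∈ s, MonoidAlgebra.single f (d (k f)) :
      MonoidAlgebra ℂ (FreeGroup Gen)).coeff.support ⊆ s := fun g hg => by
    by_contra h
    rw [Finsupp.mem_support_iff, hc, if_neg h] at hg
    exact hg rfl
  refine ⟨i, by simp only [he]; exact hsub, ?_⟩
  simp only [he]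
  rw [l1_eq (y - ∑ f ∈ s, MonoidAlgebra.single f (d (k f))) (s := s)
    (Finsupp.support_sub.trans (Finset.union_subset le_rfl hsub))]
  refine (Finset.sum_le_card_nsmul _ _ (ε / (s.card + 1)) fun g hg => ?_).trans ?_
  · rw [MonoidAlgebra.coeff_sub, Finsupp.sub_apply, hc, if_pos hg, ← dist_eq_norm]
    exact (hk g).le
  · rw [nsmul_eq_mul, mul_div_assoc', div_le_iff₀ (by positivity)]
    nlinarith

/-- The exponent used at stage `n` with radius `r`. -/
def ex (n r : ℕ) : ℕ := 2 ^ Nat.log 2 (r / (2 * (n + 1)))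

theorem ex_le {n r : ℕ} (h : 2 * (n + 1) ≤ r) : ex n r * (n + 1 + (n + 1)) ≤ r := by
  have h1 : 0 < r / (2 * (n + 1)) := Nat.div_pos h (by omega)
  have h2 := Nat.pow_log_le_self 2 h1.ne'
  calc ex n r * (n + 1 + (n + 1)) ≤ r / (2 * (n + 1)) * (2 * (n + 1)) :=
        Nat.mul_le_mul h2 (by omega)
    _ ≤ r := Nat.div_mul_le_self _ _

theorem le_ex (n r : ℕ) : r ≤ 4 * (n + 1) * ex n r := by
  have h2 := Nat.lt_pow_succ_log_self (b := 2) (by norm_num) (r / (2 * (n + 1)))
  have h3 := (Nat.div_lt_iff_lt_mul (by omega : 0 < 2 * (n + 1))).1 h2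
  rw [Nat.succ_eq_add_one, pow_succ] at h3
  unfold ex
  nlinarith

/-- The test families. -/
def Yf (e : ℕ → MonoidAlgebra ℂ (FreeGroup Gen)) (n r : ℕ) :
    Finset (MonoidAlgebra ℂ (FreeGroup Gen)) :=
  ((Finset.range (n + 1)).filter fun i => Bl (n + 1) (e i) ∧ 2 * (n + 1) ≤ r).image
    fun i => (sta (e i) * e i) ^ ex n r

theorem Yf_card (e : ℕ → MonoidAlgebra ℂ (FreeGroup Gen)) (n r : ℕ) :
    (Yf e n r).card ≤ n + 1 :=
  Finset.card_image_le.trans ((Finset.card_filter_le _ _).trans (by simp))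

theorem Yf_bl (e : ℕ → MonoidAlgebra ℂ (FreeGroup Gen)) (n r : ℕ) :
    ∀ y ∈ Yf e n r, Bl r y := fun y hy => by
  obtain ⟨i, hi, rfl⟩ := Finset.mem_image.1 hy
  obtain ⟨-, h1, h2⟩ := Finset.mem_filter.1 hi
  exact ((h1.sta.mul h1).pow _).mono (ex_le h2)

/-- One stage of the power trick. -/
theorem power_step {B B' : Type} [CStarAlgebra B] [CStarAlgebra B'] {n r : ℕ}
    (hr : 4 * (n + 1) ≤ r) (T : MonoidAlgebra ℂ (FreeGroup Gen) →ₗ[ℂ] B)
    (lam : MonoidAlgebra ℂ (FreeGroup Gen) →ₐ[ℂ] B') (hls : ∀ y, lam (sta y) = star (lam y))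
    (hmul : ∀ y y', Bl r y → Bl r y' → T (y * y') = T y * T y')
    (hst : ∀ y, Bl r y → T (sta y) = star (T y)) {y : MonoidAlgebra ℂ (FreeGroup Gen)}
    (hy : Bl (n + 1) y)
    (h : ‖T ((sta y * y) ^ ex n r)‖ ≤
      Real.exp (r / (n + 1) ^ 2) * ‖lam ((sta y * y) ^ ex n r)‖) :
    ‖T y‖ ≤ Real.exp (2 / (n + 1)) * ‖lam y‖ := by
  have hS : Bl (n + 1 + (n + 1)) (sta y * y) := hy.sta.mul hy
  have hle := ex_le (n := n) (r := r) (by omega)
  have hm : 0 < ex n r := by unfold ex; positivity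
  have hp : ∀ m, 1 ≤ m → m ≤ ex n r → T ((sta y * y) ^ m) = (star (T y) * T y) ^ m := by
    intro m h1 h2
    induction m, h1 using Nat.le_induction with
    | base =>
      rw [pow_one, pow_one, hmul _ _ (hy.sta.mono (by omega)) (hy.mono (by omega)),
        hst _ (hy.mono (by omega))]
    | succ m hm1 ih =>
      rw [pow_succ, hmul _ _ ((hS.pow m).mono ((Nat.mul_le_mul_right _ (by omega)).trans hle))
        (hS.mono (by omega)), ih (by omega), pow_succ,
        hmul _ _ (hy.sta.mono (by omega)) (hy.mono (by omega)), hst _ (hy.mono (by omega))]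
  rw [hp _ hm le_rfl, map_pow, map_mul, hls] at h
  unfold ex at h
  rw [(IsSelfAdjoint.star_mul_self (T y)).norm_pow_two_pow,
    (IsSelfAdjoint.star_mul_self (lam y)).norm_pow_two_pow, CStarRing.norm_star_mul_self,
    CStarRing.norm_star_mul_self] at h
  change (‖T y‖ * ‖T y‖) ^ ex n r ≤ _ * (‖lam y‖ * ‖lam y‖) ^ ex n r at h
  have he : Real.exp (r / (n + 1) ^ 2) ≤ Real.exp (2 / (n + 1)) ^ (2 * ex n r) := by
    rw [← Real.exp_nat_mul, Real.exp_le_exp]
    have h1 : (r : ℝ) ≤ 4 * (n + 1) * ex n r := by exact_mod_cast le_ex n r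
    rw [div_le_iff₀ (by positivity)]
    push_cast
    calc (r : ℝ) ≤ 4 * (n + 1) * ex n r := h1
      _ = _ := by field_simp; ring
  refine le_of_pow_le_pow_left₀ (n := 2 * ex n r) (by omega) (by positivity) ?_
  rw [mul_pow, pow_mul ‖T y‖, pow_mul ‖lam y‖, pow_two, pow_two]
  exact h.trans (mul_le_mul_of_nonneg_right he (by positivity))

/-- The power trick. -/
theorem power_abs [Countable Gen] : ∃ Y : ℕ → ℕ → Finset (MonoidAlgebra ℂ (FreeGroup Gen)),
    (∀ n r, (Y n r).card ≤ n + 1) ∧ (∀ n r, ∀ y ∈ Y n r, ∀ f ∈ y.coeff.support, nr f ≤ r) ∧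
    ∀ (R : ℕ → ℕ) (B : ℕ → Type) [∀ n, CStarAlgebra (B n)] (B' I : Type) [CStarAlgebra B']
      (T : ∀ n, I → MonoidAlgebra ℂ (FreeGroup Gen) →ₗ[ℂ] B n)
      (lam : MonoidAlgebra ℂ (FreeGroup Gen) →ₐ[ℂ] B'), (∀ n, 4 * (n + 1) ≤ R n) →
      (∀ y, lam (sta y) = star (lam y)) → (∀ y, ‖lam y‖ ≤ l1 y) →
      (∀ n i y, ‖T n i y‖ ≤ l1 y) →
      (∀ n i y y', Bl (R n) y → Bl (R n) y' → T n i (y * y') = T n i y * T n i y') →
      (∀ n i y, Bl (R n) y → T n i (sta y) = star (T n i y)) →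
      (∀ n i, ∀ y ∈ Y n (R n), ‖T n i y‖ ≤ Real.exp (R n / (n + 1) ^ 2) * ‖lam y‖) →
      ∀ y ε, 0 < ε → ∀ᶠ n in atTop, ∀ i, ‖T n i y‖ ≤ ‖lam y‖ + ε := by
  obtain ⟨e, he⟩ := exists_dense (Gen := Gen)
  refine ⟨Yf e, Yf_card e, Yf_bl e, ?_⟩
  intro R B _ B' I _ T lam hR hls hl1 hT1 hmul hst htw y ε hε
  obtain ⟨k, hk1, hk2⟩ := he y (ε / 3) (by positivity)
  obtain ⟨r, hr⟩ := exists_bl y
  have hlim : Tendsto (fun n : ℕ => Real.exp (2 / (n + 1)) * ‖lam (e k)‖) atTop
      (𝓝 (Real.exp 0 * ‖lam (e k)‖)) := by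
    refine Tendsto.mul_const _ ((Real.continuous_exp.tendsto 0).comp ?_)
    exact (tendsto_atTop_add_const_right _ 1 tendsto_natCast_atTop_atTop).const_div_atTop 2
  have hev := hlim.eventually (gt_mem_nhds (show Real.exp 0 * ‖lam (e k)‖ <
    ‖lam (e k)‖ + ε / 3 by simp; positivity))
  filter_upwards [hev, eventually_ge_atTop k, eventually_ge_atTop r] with n h1 h2 h3 i
  have hb : Bl (n + 1) (e k) := fun f hf => (hr f (hk1 hf)).trans (by omega)
  have hmem : (sta (e k) * e k) ^ ex n (R n) ∈ Yf e n (R n) :=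
    Finset.mem_image.2 ⟨k, Finset.mem_filter.2 ⟨Finset.mem_range.2 (by omega), hb,
      by have := hR n; omega⟩, rfl⟩
  have h4 := power_step (hR n) (T n i) lam hls (hmul n i) (hst n i) hb (htw n i _ hmem)
  have h5 : ‖T n i y‖ ≤ ‖T n i (e k)‖ + ε / 3 := by
    have : T n i y = T n i (e k) + T n i (y - e k) := by rw [← map_add]; simp
    rw [this]
    exact (norm_add_le _ _).trans (add_le_add le_rfl ((hT1 _ _ _).trans hk2))
  have h6 : ‖lam (e k)‖ ≤ ‖lam y‖ + ε / 3 := by
    have : lam (e k) = lam y - lam (y - e k) := by rw [← map_sub]; simp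
    rw [this]
    exact (norm_sub_le _ _).trans (add_le_add le_rfl ((hl1 _).trans hk2))
  linarith

end Pool.Agent.P.MP_9167e9_an.Gau
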