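import Pool.Agent.P.MP_9167e9_an.Det.Wc

/-!
The twisted operators `Tw α H φ y` on `ℓ²(Z)`.
-/

noncomputable section
open scoped ENNReal Classical
open Filter Topology

namespace Pool.Agent.P.MP_9167e9_an.Gau

variable {L Z : Type} [Group L] (α : L →* Equiv.Perm Z) (H : Z → Z → ℝ) (φ : ℝ)

/-- The phase. -/
def ph (H : Z → Z → ℝ) (φ : ℝ) (w w' : Z) : ℂ := Complex.exp ((φ * H w w' : ℝ) * Complex.I)

theorem norm_ph (w w' : Z) : ‖ph H φ w w'‖ = 1 := Complex.norm_exp_ofReal_mul_I _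

theorem ex_W (f : L) : ∃ T : Op Z 2,
    (∀ (ξ : Lq Z 2) w, T ξ w = ph H φ (α f⁻¹ w) w * ξ (α f⁻¹ w)) ∧ ‖T‖ ≤ 1 :=
  exists_wc two_ne _ (fun _ => (norm_ph H φ _ _).le) _ (α f⁻¹).injective

/-- The twisted translation. -/
def W (f : L) : Op Z 2 := (ex_W α H φ f).choose

theorem W_apply (f : L) (ξ : Lq Z 2) (w : Z) :
    W α H φ f ξ w = ph H φ (α f⁻¹ w) w * ξ (α f⁻¹ w) := (ex_W α H φ f).choose_spec.1 ξ w

theorem norm_W (f : L) : ‖W α H φ f‖ ≤ 1 := (ex_W α H φ f).choose_spec.2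

/-- The twisted operator of a group ring element. -/
def Tw : MonoidAlgebra ℂ L →ₗ[ℂ] Op Z 2 :=
  (Finsupp.linearCombination ℂ (W α H φ)).comp (MonoidAlgebra.coeffLinearEquiv ℂ).toLinearMap

theorem Tw_eq (y : MonoidAlgebra ℂ L) :
    Tw α H φ y = ∑ f ∈ y.coeff.support, y.coeff f • W α H φ f := rfl

theorem Tw_single (f : L) (c : ℂ) : Tw α H φ (MonoidAlgebra.single f c) = c • W α H φ f := by
  simp [Tw]

theorem Tw_apply (y : MonoidAlgebra ℂ L) (ξ : Lq Z 2) (w : Z) :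
    Tw α H φ y ξ w =
      ∑ f ∈ y.coeff.support, y.coeff f * (ph H φ (α f⁻¹ w) w * ξ (α f⁻¹ w)) := by
  rw [Tw_eq, sum_apply, lp.coeFn_sum, Finset.sum_apply]
  refine Finset.sum_congr rfl fun f _ => ?_
  rw [smul_apply, lp.coeFn_smul, Pi.smul_apply, W_apply, smul_eq_mul]

theorem inv_eq_iff (f : L) (w w' : Z) : α f⁻¹ w = w' ↔ α f w' = w := by
  rw [map_inv, Equiv.Perm.inv_eq_iff_eq, eq_comm]

theorem Tw_ker (y : MonoidAlgebra ℂ L) (w w' : Z) :
    Tw α H φ y (lp.single 2 w' 1) w = kr α y w w' * ph H φ w' w := by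
  rw [Tw_apply, kr, Finsupp.sum, Finset.sum_mul]
  refine Finset.sum_congr rfl fun f _ => ?_
  by_cases h : α f w' = w
  · rw [if_pos h, (inv_eq_iff α f w w').2 h]; simp
  · rw [if_neg h, lp.single_apply, Pi.single_eq_of_ne (fun h' => h ((inv_eq_iff α f w w').1 h'))]
    simp

theorem norm_Tw (y : MonoidAlgebra ℂ L) : ‖Tw α H φ y‖ ≤ l1 y := by
  have := norm_le_l1 (Tw α H φ) y (K := 1) fun f _ => by
    rw [Tw_single, one_smul]; exact norm_W α H φ f
  rwa [one_mul] at this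

variable {α H}

theorem W_mul {f g : L} (h : ∀ w, H w (α g w) + H (α g w) (α f (α g w)) = H w (α f (α g w))) :
    W α H φ (f * g) = W α H φ f * W α H φ g := by
  ext ξ w
  rw [mul_apply_eq_comp, W_apply, W_apply, W_apply]
  have e : α (f * g)⁻¹ w = α g⁻¹ (α f⁻¹ w) := by simp
  have h1 := h (α g⁻¹ (α f⁻¹ w))
  have e1 : α g (α g⁻¹ (α f⁻¹ w)) = α f⁻¹ w := by simp
  have e2 : α f (α f⁻¹ w) = w := by simp
  rw [e1, e2] at h1
  rw [e, ← mul_assoc]
  congr 1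
  unfold ph
  rw [← Complex.exp_add, ← h1]
  congr 1
  push_cast; ring

theorem Tw_mul {y y' : MonoidAlgebra ℂ L}
    (h : ∀ f ∈ y.coeff.support, ∀ g ∈ y'.coeff.support, ∀ w,
      H w (α g w) + H (α g w) (α f (α g w)) = H w (α f (α g w))) :
    Tw α H φ (y * y') = Tw α H φ y * Tw α H φ y' := by
  rw [MonoidAlgebra.mul_def, Finsupp.sum, map_sum, Tw_eq α H φ y, Finset.sum_mul]
  refine Finset.sum_congr rfl fun f hf => ?_
  rw [Finsupp.sum, map_sum, Tw_eq α H φ y', Finset.mul_sum]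
  refine Finset.sum_congr rfl fun g hg => ?_
  rw [Tw_single, W_mul φ (h f hf g hg), smul_mul_smul_comm]

theorem W_one (h : ∀ w, H w w = 0) : W α H φ 1 = 1 := by
  ext ξ w
  simp [W_apply, ph, h]

theorem W_star {f : L} (h : ∀ w, H (α f w) w = -H w (α f w)) :
    W α H φ f⁻¹ = star (W α H φ f) := by
  refine Conc.ext_ker two_ne fun i j => ?_
  rw [ker_star, W_apply, W_apply, inv_inv]
  by_cases e : α f i = j
  · rw [e, (inv_eq_iff α f j i).2 e, ← e]
    simp only [lp.single_apply, Pi.single_eq_same, mul_one, ph, h, ← Complex.exp_conj]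
    congr 1
    simp
  · rw [lp.single_apply, lp.single_apply, Pi.single_eq_of_ne e,
      Pi.single_eq_of_ne (fun h' => e ((inv_eq_iff α f j i).1 h'))]
    simp

theorem Tw_sta {y : MonoidAlgebra ℂ L}
    (h : ∀ f ∈ y.coeff.support, ∀ w, H (α f w) w = -H w (α f w)) :
    Tw α H φ (sta y) = star (Tw α H φ y) := by
  have e : sta y = ∑ f ∈ y.coeff.support,
      MonoidAlgebra.single f⁻¹ (starRingEnd ℂ (y.coeff f)) := by
    conv_lhs => rw [← MonoidAlgebra.sum_coeff_single y, Finsupp.sum]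
    refine (map_sum (AddMonoidHom.mk' (sta (L := L)) sta_add) _ _).trans ?_
    exact Finset.sum_congr rfl fun f _ => sta_single _ _
  rw [e, map_sum, Tw_eq α H φ y, star_sum]
  refine Finset.sum_congr rfl fun f hf => ?_
  rw [Tw_single, W_star φ (h f hf), star_smul]; rfl

theorem Tw_comm {io : Z → Z} (hio : ∀ f w, io (α f w) = α f (io w))
    (h : ∀ w w', H (io w) (io w') = H w w') {J : Op Z 2} (hJ : ∀ ξ w, J ξ w = ξ (io w))
    (y : MonoidAlgebra ℂ L) : J * Tw α H φ y = Tw α H φ y * J := by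
  ext ξ w
  rw [mul_apply_eq_comp, mul_apply_eq_comp, hJ, Tw_apply, Tw_apply]
  refine Finset.sum_congr rfl fun f _ => ?_
  rw [hJ, ← hio]
  simp only [ph, h]

theorem Tw_zero (y : MonoidAlgebra ℂ L) : Tw α H 0 y = Tw α (fun _ _ => 0) 0 y :=
  Conc.ext_ker two_ne fun i j => by simp [Tw_ker, ph]

theorem W_lip {M : ℝ} (hM0 : 0 ≤ M) (hM : ∀ w w', |H w w'| ≤ M) (f : L) (φ ψ : ℝ) :
    ‖W α H φ f - W α H ψ f‖ ≤ M * |φ - ψ| := by
  refine norm_le_of_pt two_ne (α f⁻¹).injective (by positivity) fun ξ w => ?_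
  rw [sub_apply, lp.coeFn_sub, Pi.sub_apply, W_apply, W_apply, ← sub_mul, norm_mul]
  refine mul_le_mul_of_nonneg_right ?_ (norm_nonneg _)
  set t := H (α f⁻¹ w) w with ht
  have e : ph H φ (α f⁻¹ w) w - ph H ψ (α f⁻¹ w) w =
      ph H ψ (α f⁻¹ w) w * (Complex.exp (Complex.I * ((φ - ψ) * t : ℝ)) - 1) := by
    unfold ph
    rw [mul_sub, ← Complex.exp_add, mul_one, ← ht]
    congr 2
    push_cast; ring
  rw [e, norm_mul, norm_ph, one_mul]
  refine Real.norm_exp_I_mul_ofReal_sub_one_le.trans ?_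
  rw [Real.norm_eq_abs, abs_mul, mul_comm]
  exact mul_le_mul_of_nonneg_right (hM _ _) (abs_nonneg _)

theorem Tw_cont {M : ℝ} (hM : ∀ w w', |H w w'| ≤ M) (y : MonoidAlgebra ℂ L) :
    Continuous fun φ => Tw α H φ y := by
  simp only [Tw_eq]
  refine continuous_finsetSum _ fun f _ =>
    (continuous_const_smul (y.coeff f)).comp (f := fun φ => W α H φ f) ?_
  refine (LipschitzWith.of_dist_le_mul (K := ⟨|M|, abs_nonneg M⟩) fun φ ψ => ?_).continuous
  rw [dist_eq_norm, Real.dist_eq]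
  exact W_lip (abs_nonneg M) (fun w w' => (hM w w').trans (le_abs_self M)) f φ ψ

theorem Tw_K (h : ∀ f, Tendsto (fun w => ph H φ w (α f w)) cofinite (𝓝 1))
    (y : MonoidAlgebra ℂ L) : Tw α H φ y - Tw α H 0 y ∈ (opNT Z 2 two_ne).K := by
  rw [Tw_eq, Tw_eq, ← Finset.sum_sub_distrib]
  refine NT.K_sum _ _ _ fun f _ => ?_
  rw [← smul_sub]
  refine opNT_K_smul _ ?_
  have e : W α H φ f - W α H 0 f = (W α H φ f * W α H 0 f⁻¹ - 1) * W α H 0 f := by
    ext ξ w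
    simp [W_apply, ph]
  rw [e]
  refine NT.K_mul_right _ (mem_K_of_mul (c := fun w => ph H φ (α f⁻¹ w) w - 1) ?_ ?_)
  · intro ξ w
    rw [sub_apply, lp.coeFn_sub, Pi.sub_apply, mul_apply_eq_comp, W_apply, W_apply]
    simp [ph, sub_mul]
  · have := ((h f).comp (α f⁻¹).injective.tendsto_cofinite).sub_const 1
    simpa [Function.comp_def] using this

theorem Tw_conj {u : Z → ℂ} (hu : ∀ w, u w ≠ 0) {U V : Op Z 2} (hU : ∀ ξ w, U ξ w = u w * ξ w)
    (hV : ∀ ξ w, V ξ w = (u w)⁻¹ * ξ w) {y : MonoidAlgebra ℂ L}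
    (h : ∀ f ∈ y.coeff.support, ∀ w, u (α f w) = u w * ph H φ w (α f w)) :
    Tw α H φ y = U * Tw α H 0 y * V := by
  ext ξ w
  rw [mul_apply_eq_comp, mul_apply_eq_comp, hU, Tw_apply, Tw_apply, Finset.mul_sum]
  refine Finset.sum_congr rfl fun f hf => ?_
  have h1 := h f hf (α f⁻¹ w)
  have e2 : α f (α f⁻¹ w) = w := by simp
  rw [e2] at h1
  have h2 : ph H 0 (α f⁻¹ w) w = 1 := by simp [ph]
  have h3 := hu (α f⁻¹ w)
  rw [hV, h2]
  conv_rhs => rw [h1]
  field_simp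

variable (α)

/-- The untwisted representation. -/
def rep : MonoidAlgebra ℂ L →ₐ[ℂ] Op Z 2 :=
  AlgHom.ofLinearMap (Tw α (fun _ _ => 0) 0)
    (by rw [MonoidAlgebra.one_def, Tw_single, one_smul, W_one 0 fun _ => rfl])
    fun _ _ => Tw_mul 0 fun _ _ _ _ _ => add_zero _

theorem rep_eq (y : MonoidAlgebra ℂ L) : rep α y = Tw α (fun _ _ => 0) 0 y := rfl

theorem rep_sta (y : MonoidAlgebra ℂ L) : rep α (sta y) = star (rep α y) :=
  Tw_sta 0 fun _ _ _ => neg_zero.symm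

theorem rep_ker (y : MonoidAlgebra ℂ L) (w w' : Z) :
    rep α y (lp.single 2 w' 1) w = kr α y w w' := by
  rw [rep_eq, Tw_ker]; simp [ph]

theorem rep_apply (y : MonoidAlgebra ℂ L) (ξ : Lq Z 2) (w : Z) :
    rep α y ξ w = ∑ f ∈ y.coeff.support, y.coeff f * ξ (α f⁻¹ w) := by
  rw [rep_eq, Tw_apply]; simp [ph]

end Pool.Agent.P.MP_9167e9_an.Gau
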