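import Pool.Agent.P.MP_9167e9_an.Det.Conc
import Pool.Agent.P.MP_9167e9_an.Det.PowerAbs

/-!
Weighted composition operators, and kernels on `ℓ²`.
-/

noncomputable section
open scoped ENNReal Classical InnerProductSpace
open Filter Topology

namespace Pool.Agent.P.MP_9167e9_an.Gau

variable {Z : Type}

theorem exists_wc {q : ℝ≥0∞} [Fact (1 ≤ q)] (hq : q ≠ ∞) (c : Z → ℂ) (hc : ∀ w, ‖c w‖ ≤ 1)
    (σ : Z → Z) (hσ : Function.Injective σ) :
    ∃ T : Op Z q, (∀ (ξ : Lq Z q) w, T ξ w = c w * ξ (σ w)) ∧ ‖T‖ ≤ 1 := by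
  have h0 : 0 < q.toReal := ENNReal.toReal_pos (zero_lt_one.trans_le Fact.out).ne' hq
  have key : ∀ (ξ : Lq Z q) (F : Finset Z),
      ∑ w ∈ F, ‖c w * ξ (σ w)‖ ^ q.toReal ≤ ‖ξ‖ ^ q.toReal := fun ξ F => by
    refine le_trans ?_ (lp.sum_rpow_le_norm_rpow h0 ξ (F.map ⟨σ, hσ⟩))
    rw [Finset.sum_map]
    refine Finset.sum_le_sum fun w _ => Real.rpow_le_rpow (norm_nonneg _) ?_ h0.le
    rw [norm_mul]
    exact mul_le_of_le_one_left (norm_nonneg _) (hc w)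
  let L : Lq Z q →ₗ[ℂ] Lq Z q :=
    { toFun := fun ξ => ⟨fun w => c w * ξ (σ w), memℓp_gen' (key ξ)⟩
      map_add' := fun ξ ζ => by
        ext w
        change c w * (ξ + ζ) (σ w) = c w * ξ (σ w) + c w * ζ (σ w)
        rw [lp.coeFn_add, Pi.add_apply, mul_add]
      map_smul' := fun a ξ => by
        ext w
        change c w * (a • ξ) (σ w) = a • (c w * ξ (σ w))
        rw [lp.coeFn_smul, Pi.smul_apply, smul_eq_mul, smul_eq_mul]; ring }
  have hL : ∀ ξ, ‖L ξ‖ ≤ 1 * ‖ξ‖ := fun ξ => by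
    rw [one_mul]
    exact lp.norm_le_of_forall_sum_le h0 (norm_nonneg _) (key ξ)
  exact ⟨L.mkContinuous 1 hL, fun _ _ => rfl, L.mkContinuous_norm_le zero_le_one hL⟩

/-- An operator whose values are dominated pointwise along an injective map. -/
theorem norm_le_of_pt {q : ℝ≥0∞} [Fact (1 ≤ q)] (hq : q ≠ ∞) {T : Op Z q} {σ : Z → Z}
    (hσ : Function.Injective σ) {K : ℝ} (hK : 0 ≤ K)
    (h : ∀ (ξ : Lq Z q) w, ‖T ξ w‖ ≤ K * ‖ξ (σ w)‖) : ‖T‖ ≤ K := by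
  obtain ⟨S, hS, nS⟩ := exists_wc hq (fun _ : Z => 1) (by simp) σ hσ
  refine ContinuousLinearMap.opNorm_le_bound _ hK fun ξ => ?_
  have h1 : ‖T ξ‖ ≤ ‖(K : ℂ) • S ξ‖ := norm_le_of_le hq fun w => by
    rw [lp.coeFn_smul, Pi.smul_apply, norm_smul, hS, one_mul, Complex.norm_real,
      Real.norm_of_nonneg hK]
    exact h ξ w
  rw [norm_smul, Complex.norm_real, Real.norm_of_nonneg hK] at h1
  exact h1.trans (mul_le_mul_of_nonneg_left ((S.le_opNorm ξ).trans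
    (mul_le_of_le_one_left (norm_nonneg _) nS)) hK)

theorem two_ne : (2 : ℝ≥0∞) ≠ ∞ := ENNReal.ofNat_ne_top

theorem nsq_nonneg (s : Finset Z) (ξ : Z → ℂ) : 0 ≤ nsq s ξ :=
  Finset.sum_nonneg fun _ _ => by positivity

/-- The finitely supported vector with the values of `ξ` on `s`. -/
def fv (s : Finset Z) (ξ : Z → ℂ) : Lq Z 2 := ∑ i ∈ s, lp.single 2 i (ξ i)

theorem norm_fv (s : Finset Z) (ξ : Z → ℂ) : ‖fv s ξ‖ = √(nsq s ξ) := by
  have h := lp.norm_sum_single (E := fun _ : Z => ℂ) (p := 2) (by norm_num) ξ s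
  rw [eq_comm, Real.sqrt_eq_iff_mul_self_eq (nsq_nonneg _ _) (norm_nonneg _)]
  simp only [ENNReal.toReal_ofNat, Real.rpow_ofNat] at h
  rw [← pow_two]
  exact h.symm

theorem apply_fv (T : Op Z 2) (t : Finset Z) (ζ : Z → ℂ) (w : Z) :
    T (fv t ζ) w = ∑ w' ∈ t, T (lp.single 2 w' 1) w * ζ w' := by
  rw [fv, map_sum, lp.coeFn_sum, Finset.sum_apply]
  refine Finset.sum_congr rfl fun w' _ => ?_
  rw [Conc.single_eq w' (ζ w'), map_smul, lp.coeFn_smul, Pi.smul_apply, smul_eq_mul, mul_comm]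

theorem FB_norm (T : Op Z 2) : FB (fun w w' => T (lp.single 2 w' 1) w) ‖T‖ := by
  intro s t ξ ζ
  have e : ∑ w ∈ s, ∑ w' ∈ t, ξ w * T (lp.single 2 w' 1) w * ζ w' =
      ⟪fv s (fun w => starRingEnd ℂ (ξ w)), T (fv t ζ)⟫_ℂ := by
    rw [fv, sum_inner]
    refine Finset.sum_congr rfl fun w _ => ?_
    rw [lp.inner_single_left, apply_fv, RCLike.inner_apply', Complex.conj_conj, Finset.mul_sum]
    exact Finset.sum_congr rfl fun w' _ => mul_assoc _ _ _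
  have n1 : nsq s (fun w => starRingEnd ℂ (ξ w)) = nsq s ξ := by simp [nsq]
  rw [e]
  refine (norm_inner_le_norm _ _).trans ?_
  rw [norm_fv, n1, ← norm_fv t ζ]
  calc √(nsq s ξ) * ‖T (fv t ζ)‖ ≤ √(nsq s ξ) * (‖T‖ * ‖fv t ζ‖) :=
        mul_le_mul_of_nonneg_left (T.le_opNorm _) (Real.sqrt_nonneg _)
    _ = _ := by ring

theorem norm_le_of_FB {T : Op Z 2} {Λ : ℝ} (hΛ : 0 ≤ Λ)
    (h : FB (fun w w' => T (lp.single 2 w' 1) w) Λ) : ‖T‖ ≤ Λ := by
  have h1 : ∀ t ζ, ‖T (fv t ζ)‖ ≤ Λ * ‖fv t ζ‖ := fun t ζ => by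
    refine lp.norm_le_of_forall_sum_le (by norm_num) (by positivity) fun s => ?_
    simp only [ENNReal.toReal_ofNat, Real.rpow_ofNat]
    change nsq s (T (fv t ζ)) ≤ _
    have h2 := h s t (fun w => starRingEnd ℂ (T (fv t ζ) w)) ζ
    have e : ∑ w ∈ s, ∑ w' ∈ t, starRingEnd ℂ (T (fv t ζ) w) * T (lp.single 2 w' 1) w * ζ w' =
        (nsq s (T (fv t ζ)) : ℝ) := by
      unfold nsq
      push_cast
      refine Finset.sum_congr rfl fun w _ => ?_
      rw [← Complex.conj_mul', apply_fv T t ζ w, Finset.mul_sum]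
      exact Finset.sum_congr rfl fun w' _ => mul_assoc _ _ _
    have n1 : nsq s (fun w => starRingEnd ℂ (T (fv t ζ) w)) = nsq s (T (fv t ζ)) := by simp [nsq]
    rw [e, n1, Complex.norm_real, Real.norm_of_nonneg (nsq_nonneg _ _), ← norm_fv t ζ] at h2
    have h3 := Real.mul_self_sqrt (nsq_nonneg s (T (fv t ζ)))
    set a := √(nsq s (T (fv t ζ))) with ha
    have ha0 : 0 ≤ a := Real.sqrt_nonneg _
    have hb0 : 0 ≤ Λ * ‖fv t ζ‖ := by positivity
    nlinarith [sq_nonneg (a - Λ * ‖fv t ζ‖)]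
  refine ContinuousLinearMap.opNorm_le_bound _ hΛ fun ζ => ?_
  have ht : Tendsto (fun t : Finset Z => fv t ζ) atTop (𝓝 ζ) := lp.hasSum_single two_ne ζ
  exact le_of_tendsto_of_tendsto' ((T.continuous.tendsto ζ).comp ht).norm
    (ht.norm.const_mul Λ) fun t => h1 t ζ

theorem FB.phase {X : Z → Z → ℂ} {Λ : ℝ} (h : FB X Λ) {a b : Z → ℂ} (ha : ∀ w, ‖a w‖ = 1)
    (hb : ∀ w, ‖b w‖ = 1) : FB (fun w w' => a w * X w w' * b w') Λ := by
  intro s t ξ ζ
  have h1 := h s t (fun w => ξ w * a w) (fun w => b w * ζ w)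
  have n1 : nsq s (fun w => ξ w * a w) = nsq s ξ := by simp [nsq, ha]
  have n2 : nsq t (fun w => b w * ζ w) = nsq t ζ := by simp [nsq, hb]
  rw [n1, n2] at h1
  convert h1 using 4
  ring

theorem ker_star (T : Op Z 2) (i j : Z) :
    (star T) (lp.single 2 j 1) i = starRingEnd ℂ (T (lp.single 2 i 1) j) := by
  have h := ContinuousLinearMap.adjoint_inner_right T (lp.single 2 i (1 : ℂ))
    (lp.single 2 j (1 : ℂ))
  rw [lp.inner_single_left, lp.inner_single_right] at h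
  simpa [ContinuousLinearMap.star_eq_adjoint] using h

end Pool.Agent.P.MP_9167e9_an.Gau
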